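import Pool.Agent.H132R3.BP.Stmts

/-!
# Task TArith2 of project H132-BP
-/

set_option autoImplicit false

namespace Pool.Agent.H132R3.BP

namespace A2

theorem e_row4 (a J i z : ℕ) (hz : z = 4) (hi0 : i ≠ 0) (hi : i + 2 ≤ a + 4) :
    t2 (a + 4) J i z = J * a + a + 3 - i := by
  unfold t2
  rw [if_neg (by omega), if_neg (by omega), if_pos (by omega), Nat.add_sub_cancel]
  omega

theorem e_wall (L J i z : ℕ) (hi0 : i ≠ 0) (hi : i < 4) (hz : z = 3 ∨ z = 5) :
    t2 L J i z = 0 := by
  unfold t2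
  rw [if_neg (by omega), if_neg (by omega), if_neg (by omega), if_pos (by omega)]

theorem e_even (a J i z : ℕ) (hz : z % 2 = 0) (h6 : 6 ≤ z) (hzJ : z ≤ 2 * J + 5) (hi : 4 ≤ i)
    (hi2 : i + 2 ≤ a + 4) :
    t2 (a + 4) J i z = (J - (z - 4) / 2) * a + 1 + (if z % 4 = 0 then a + 2 - i else i - 4) := by
  unfold t2
  rw [if_neg (by omega), if_neg (by omega), if_neg (by omega), if_neg (by omega),
    if_pos (by omega), if_pos (by omega), Nat.add_sub_cancel]
  congr 1

theorem e_edge (a J i z : ℕ) (hz : z % 2 = 0) (h4 : 4 ≤ z) (hzJ : z ≤ 2 * J + 5)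
    (hi : (i = 3 ∧ 6 ≤ z ∧ 3 < a + 4) ∨ (i + 1 = a + 4 ∧ 4 ≤ i)) :
    t2 (a + 4) J i z = 0 := by
  unfold t2
  rw [if_neg (by omega), if_neg (by omega), if_neg (by omega), if_neg (by omega),
    if_pos (by omega), if_neg (by omega), if_neg (by omega), if_neg (by omega)]

theorem e_odd1 (a J i z : ℕ) (hz : z % 4 = 1) (h5 : 5 ≤ z) (hzJ : z ≤ 2 * J + 3)
    (hi : i + 2 = a + 4) (hi4 : 4 ≤ i) : t2 (a + 4) J i z = (J - (z - 5) / 2) * a := by
  unfold t2
  rw [if_neg (by omega), if_neg (by omega), if_neg (by omega), if_neg (by omega),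
    if_pos (by omega), if_neg (by omega), if_pos (by omega), Nat.add_sub_cancel]

theorem e_odd3 (a J i z : ℕ) (hz : z % 4 = 3) (h7 : 7 ≤ z) (hzJ : z ≤ 2 * J + 3)
    (hi : i = 4) (ha : 4 < a + 4) : t2 (a + 4) J i z = (J - (z - 5) / 2) * a := by
  unfold t2
  rw [if_neg (by omega), if_neg (by omega), if_neg (by omega), if_neg (by omega),
    if_pos (by omega), if_neg (by omega), if_neg (by omega), if_pos (by omega), Nat.add_sub_cancel]

theorem e_odd0 (a J i z : ℕ) (hz : z % 2 = 1) (h3 : 3 ≤ z) (hzJ : z ≤ 2 * J + 5) (hi : 3 ≤ i)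
    (hiL : i < a + 4) (h1 : ¬ (z % 4 = 1 ∧ 5 ≤ z ∧ z ≤ 2 * J + 3 ∧ i + 2 = a + 4))
    (h2 : ¬ (z % 4 = 3 ∧ 7 ≤ z ∧ z ≤ 2 * J + 3 ∧ i = 4)) : t2 (a + 4) J i z = 0 := by
  by_cases hB : i < 4 ∧ (z = 3 ∨ z = 5)
  · exact e_wall _ _ _ _ (by omega) hB.1 hB.2
  · unfold t2
    rw [if_neg (by omega), if_neg (by omega), if_neg (by omega), if_neg (by omega),
      if_pos (by omega), if_neg (by omega), if_neg (by omega), if_neg (by omega)]

theorem e_out (L J i z : ℕ) (hz : z ≠ 0) (hi : i ≠ 0) (hA : ¬ (z = 4 ∧ i + 2 ≤ L))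
    (hB : ¬ (i < 4 ∧ (z = 3 ∨ z = 5))) (hC : ¬ (3 ≤ i ∧ i < L ∧ 3 ≤ z ∧ z ≤ 2 * J + 5)) :
    t2 L J i z = big L J := by
  unfold t2
  rw [if_neg hz, if_neg hi, if_neg hA, if_neg hB, if_neg hC]

theorem count3 (p q r s : Prop) [Decidable p] [Decidable q] [Decidable r] [Decidable s]
    (h : (p ∧ q ∧ r) ∨ (p ∧ q ∧ s) ∨ (p ∧ r ∧ s) ∨ (q ∧ r ∧ s)) :
    3 ≤ (if p then 1 else 0) + (if q then 1 else 0) + (if r then 1 else 0) +
      (if s then 1 else 0) := by
  split_ifs <;> first | omega | tauto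

end A2

open A2 in
theorem tTArith2 : TArith2 := by
  intro L J i z hL hJ hi hz ht
  obtain ⟨a, rfl⟩ : ∃ a, L = a + 4 := ⟨L - 4, by omega⟩
  by_cases cA : z = 4 ∧ i + 2 ≤ a + 4
  · -- the top strand
    obtain ⟨rfl, hi2⟩ := cA
    refine ⟨by omega, by omega, fun _ => ?_⟩
    have e0 := e_row4 a J i 4 rfl (by omega) hi2
    have w3 : t2 (a + 4) J i (4 - 1) = 0 := by
      by_cases h4 : i < 4
      · exact e_wall _ _ _ _ (by omega) h4 (by omega)
      · exact e_odd0 _ _ _ _ (by omega) (by omega) (by omega) (by omega) (by omega) (by omega)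
          (by omega)
    have w5 : t2 (a + 4) J i (4 + 1) ≤ J * a := by
      by_cases h4 : i < 4
      · rw [e_wall _ _ _ _ (by omega) h4 (by omega)]; exact Nat.zero_le _
      · by_cases h5 : i + 2 = a + 4
        · rw [e_odd1 a J i (4 + 1) (by omega) (by omega) (by omega) h5 (by omega)]
          simp
        · rw [e_odd0 a J i (4 + 1) (by omega) (by omega) (by omega) (by omega) (by omega) (by omega)
            (by omega)]
          exact Nat.zero_le _
    have wp : t2 (a + 4) J (i + 1) 4 < J * a + a + 3 - i := by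
      by_cases h5 : i + 3 ≤ a + 4
      · rw [e_row4 a J (i + 1) 4 rfl (by omega) (by omega)]
        omega
      · rw [e_edge a J (i + 1) 4 (by omega) (by omega) (by omega) (Or.inr (by omega))]
        omega
    rw [e0]
    apply count3
    right; right; right
    refine ⟨wp, ?_, ?_⟩
    · rw [w3]; omega
    · omega
  by_cases cB : i < 4 ∧ (z = 3 ∨ z = 5)
  · refine ⟨by omega, by omega, fun h => ?_⟩
    rw [e_wall _ _ _ _ (by omega) cB.1 cB.2] at h
    omega
  by_cases cC : 3 ≤ i ∧ i < a + 4 ∧ 3 ≤ z ∧ z ≤ 2 * J + 5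
  swap
  · rw [e_out _ _ _ _ (by omega) (by omega) cA cB cC] at ht
    omega
  obtain ⟨hi3, hiL, hz3, hzJ⟩ := cC
  refine ⟨hiL, hzJ, fun h1 => ?_⟩
  by_cases c1 : z % 2 = 0 ∧ 4 ≤ i ∧ i + 2 ≤ a + 4
  · obtain ⟨hz2, hi4, hi2⟩ := c1
    have hz6 : 6 ≤ z := by omega
    have e0 := e_even a J i z hz2 hz6 hzJ hi4 hi2
    by_cases h4 : z % 4 = 0
    · rw [if_pos h4] at e0
      rw [e0]
      -- up
      have wu : t2 (a + 4) J i (z + 1) ≤ (J - (z - 4) / 2) * a := by
        by_cases h5 : i + 2 = a + 4 ∧ z + 1 ≤ 2 * J + 3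
        · rw [e_odd1 a J i (z + 1) (by omega) (by omega) h5.2 h5.1 (by omega)]
          have : z + 1 - 5 = z - 4 := by omega
          rw [this]
        · rw [e_odd0 a J i (z + 1) (by omega) (by omega) (by omega) (by omega) (by omega) (by omega)
            (by omega)]
          exact Nat.zero_le _
      have wr : t2 (a + 4) J (i + 1) z < (J - (z - 4) / 2) * a + 1 + (a + 2 - i) := by
        by_cases h5 : i + 3 ≤ a + 4
        · rw [e_even a J (i + 1) z hz2 hz6 hzJ (by omega) (by omega), if_pos h4]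
          omega
        · rw [e_edge a J (i + 1) z hz2 (by omega) hzJ (Or.inr (by omega))]
          omega
      apply count3
      by_cases h6 : i = 4
      · right; left
        refine ⟨?_, wr, by omega⟩
        rw [e_edge a J (i - 1) z hz2 (by omega) hzJ (Or.inl (by omega))]
        omega
      · right; right; right
        refine ⟨wr, ?_, by omega⟩
        rw [e_odd0 a J i (z - 1) (by omega) (by omega) (by omega) (by omega) (by omega) (by omega)
          (by omega)]
        omega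
    · rw [if_neg h4] at e0
      rw [e0]
      have wu : t2 (a + 4) J i (z + 1) ≤ (J - (z - 4) / 2) * a := by
        by_cases h5 : i = 4 ∧ z + 1 ≤ 2 * J + 3
        · rw [e_odd3 a J i (z + 1) (by omega) (by omega) h5.2 h5.1 (by omega)]
          have : z + 1 - 5 = z - 4 := by omega
          rw [this]
        · rw [e_odd0 a J i (z + 1) (by omega) (by omega) (by omega) (by omega) (by omega) (by omega)
            (by omega)]
          exact Nat.zero_le _
      have wl : t2 (a + 4) J (i - 1) z < (J - (z - 4) / 2) * a + 1 + (i - 4) := by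
        by_cases h5 : 5 ≤ i
        · rw [e_even a J (i - 1) z hz2 hz6 hzJ (by omega) (by omega), if_neg h4]
          omega
        · rw [e_edge a J (i - 1) z hz2 (by omega) hzJ (Or.inl (by omega))]
          omega
      apply count3
      by_cases h6 : i + 2 = a + 4
      · right; left
        refine ⟨wl, ?_, by omega⟩
        rw [e_edge a J (i + 1) z hz2 (by omega) hzJ (Or.inr (by omega))]
        omega
      · right; right; left
        refine ⟨wl, ?_, by omega⟩
        rw [e_odd0 a J i (z - 1) (by omega) (by omega) (by omega) (by omega) (by omega) (by omega)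
          (by omega)]
        omega
  by_cases c2 : z % 4 = 1 ∧ 5 ≤ z ∧ z ≤ 2 * J + 3 ∧ i + 2 = a + 4
  · obtain ⟨hz4, hz5, hzJ3, hi2⟩ := c2
    obtain ⟨k, hk1, hk2⟩ : ∃ k, J - (z - 5) / 2 = k + 1 ∧ J - (z + 1 - 4) / 2 = k :=
      ⟨J - (z + 1 - 4) / 2, by omega, rfl⟩
    have e0 := e_odd1 a J i z hz4 hz5 hzJ3 hi2 (by omega)
    rw [hk1, Nat.succ_mul] at e0
    rw [e0]
    apply count3
    right; left
    refine ⟨?_, ?_, ?_⟩
    · rw [e_odd0 a J (i - 1) z (by omega) (by omega) (by omega) (by omega) (by omega) (by omega)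
        (by omega)]
      omega
    · rw [e_odd0 a J (i + 1) z (by omega) (by omega) (by omega) (by omega) (by omega) (by omega)
        (by omega)]
      omega
    · rw [e_even a J i (z + 1) (by omega) (by omega) (by omega) (by omega) (by omega),
        if_neg (by omega), hk2]
      omega
  by_cases c3 : z % 4 = 3 ∧ 7 ≤ z ∧ z ≤ 2 * J + 3 ∧ i = 4
  · obtain ⟨hz4, hz5, hzJ3, hi2⟩ := c3
    obtain ⟨k, hk1, hk2⟩ : ∃ k, J - (z - 5) / 2 = k + 1 ∧ J - (z + 1 - 4) / 2 = k :=
      ⟨J - (z + 1 - 4) / 2, by omega, rfl⟩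
    have e0 := e_odd3 a J i z hz4 hz5 hzJ3 hi2 (by omega)
    rw [hk1, Nat.succ_mul] at e0
    rw [e0]
    apply count3
    right; left
    refine ⟨?_, ?_, ?_⟩
    · rw [e_odd0 a J (i - 1) z (by omega) (by omega) (by omega) (by omega) (by omega) (by omega)
        (by omega)]
      omega
    · rw [e_odd0 a J (i + 1) z (by omega) (by omega) (by omega) (by omega) (by omega) (by omega)
        (by omega)]
      omega
    · rw [e_even a J i (z + 1) (by omega) (by omega) (by omega) (by omega) (by omega),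
        if_pos (by omega), hk2]
      omega
  -- the walls
  exfalso
  have : t2 (a + 4) J i z = 0 := by
    by_cases hpar : z % 2 = 0
    · exact e_edge a J i z hpar (by omega) hzJ (by omega)
    · exact e_odd0 a J i z (by omega) hz3 hzJ hi3 hiL c2 c3
  omega

end Pool.Agent.H132R3.BP
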