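import Mathlib
import Pool.Agent.H132R3.BP.Stmts

/-!
# Task TCount1 of the project H132-BP
-/

set_option autoImplicit false

namespace Pool.Agent.H132R3.BP

open SimpleGraph

theorem t2_le_big (L J i z : ℕ) (hL : 30 ≤ L) : t2 L J i z ≤ big L J := by
  have key : ∀ k : ℕ, (J - k) * (L - 4) ≤ J * (L - 4) := fun k =>
    Nat.mul_le_mul_right _ (Nat.sub_le _ _)
  have k1 := key ((z - 4) / 2)
  have k2 := key ((z - 5) / 2)
  unfold t2 big
  generalize (J - (z - 4) / 2) * (L - 4) = a at k1 ⊢
  generalize (J - (z - 5) / 2) * (L - 4) = b at k2 ⊢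
  generalize J * (L - 4) = c at k1 k2 ⊢
  split_ifs <;> omega

theorem ncard_le_ite_c1 {α : Type} (B : Set α) (P : Prop) [Decidable P] (hs : B.Subsingleton)
    (h : ∀ x ∈ B, P) : B.ncard ≤ if P then 1 else 0 := by
  split_ifs with hP
  · rcases hs.eq_empty_or_singleton with h0 | ⟨x, hx⟩
    · rw [h0]; simp
    · rw [hx]; simp
  · have : B = ∅ := Set.eq_empty_of_forall_notMem (fun x hx => hP (h x hx))
    rw [this]; simp

theorem tTCount1 : TArith1 → TCount1 := by
  intro hA V _ Y n L J lam kap q φ τ S i z hi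
  by_cases hz : (z : ℕ) = 0
  · have h0 : τ (φ i, z) = 0 := S.tau.zero _ _ (Or.inl hz)
    have : ((Y □ pathGraph n).neighborSet (φ i, z) ∩ {u | τ u + 2 ≤ τ (φ i, z)}) = ∅ := by
      apply Set.eq_empty_of_forall_notMem
      rintro u ⟨-, hu⟩
      simp only [Set.mem_setOf_eq, h0] at hu
      omega
    rw [this]; simp
  have hz1 : 1 ≤ (z : ℕ) := Nat.one_le_iff_ne_zero.2 hz
  have hti : τ (φ i, z) = t2 L J i z := S.tau.line i z hz hi
  set B1 : Set (V × Fin n) := {u | u.2 = z ∧ (∃ j : Fin L, (j : ℕ) + 1 = i ∧ u.1 = φ j) ∧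
    t2 L J ((i : ℕ) - 1) z + 2 ≤ t2 L J i z} with hB1
  set B2 : Set (V × Fin n) := {u | u.2 = z ∧ (∃ j : Fin L, (j : ℕ) = i + 1 ∧ u.1 = φ j) ∧
    t2 L J ((i : ℕ) + 1) z + 2 ≤ t2 L J i z} with hB2
  set B3 : Set (V × Fin n) := {u | u.1 = φ i ∧ (u.2 : ℕ) + 1 = z ∧
    t2 L J i ((z : ℕ) - 1) + 2 ≤ t2 L J i z} with hB3
  set B4 : Set (V × Fin n) := {u | u.1 = φ i ∧ (u.2 : ℕ) = z + 1 ∧
    t2 L J i ((z : ℕ) + 1) + 2 ≤ t2 L J i z} with hB4
  have hsub : ((Y □ pathGraph n).neighborSet (φ i, z) ∩ {u | τ u + 2 ≤ τ (φ i, z)}) ⊆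
      B1 ∪ B2 ∪ B3 ∪ B4 := by
    rintro ⟨y', z'⟩ ⟨hadj, hu⟩
    rw [mem_neighborSet, boxProd_adj] at hadj
    simp only [Set.mem_setOf_eq, hti] at hu
    rcases hadj with ⟨hY, hzz⟩ | ⟨hP, hyy⟩
    · -- same height
      simp only at hY hzz
      subst hzz
      by_cases hr : y' ∈ Set.range φ
      · obtain ⟨j, rfl⟩ := hr
        rw [S.thin.adj, pathGraph_adj] at hY
        have hτj : τ (φ j, z) = t2 L J j z := by
          by_cases hj : 1 ≤ (j : ℕ)
          · exact S.tau.line j z hz hj
          · have hj0 : (j : ℕ) = 0 := by omega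
            obtain ⟨hl, hk⟩ := S.lead j (by omega)
            rw [S.tau.bottom (φ j) z hz (by omega) (by omega), hk]
            unfold t2 U0
            rw [if_neg hz, if_pos hj0]
            by_cases h14 : (z : ℕ) = 1 ∨ (z : ℕ) = 4
            · rw [if_pos h14, if_pos]
              rcases h14 with h | h
              · right; right; exact ⟨h, by omega⟩
              · left; exact ⟨h, by omega⟩
            · rw [if_neg h14, if_neg]
              rintro (h | h | h)
              · exact h14 (Or.inr h.1)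
              · omega
              · exact h14 (Or.inl h.1)
        rw [hτj] at hu
        rcases hY with h | h
        · left; left; right
          refine ⟨rfl, ⟨j, h.symm, rfl⟩, ?_⟩
          rw [h]; exact hu
        · left; left; left
          refine ⟨rfl, ⟨j, h, rfl⟩, ?_⟩
          have : (i : ℕ) - 1 = j := by omega
          rw [this]; exact hu
      · exfalso
        have hk5 := S.high i
        have hst := S.graded.step _ _ hY
        have hkap : kap y' ≠ 0 := by omega
        have hlam : lam y' ≠ 0 := by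
          intro h0
          have hli : lam (φ i) = 1 ∧ kap (φ i) = kap y' := by
            by_cases h3 : (i : ℕ) ≤ 3
            · have := (S.lead i h3).1
              rcases hst with ⟨hk, h | h⟩ | ⟨h, -⟩
              · omega
              · exact ⟨by omega, hk⟩
              · omega
            · have := S.far i (by omega)
              omega
          have hi1 : (i : ℕ) = 1 := by
            by_cases h3 : (i : ℕ) ≤ 3
            · have := (S.lead i h3).1
              omega
            · have := S.far i (by omega)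
              omega
          have hk : kap y' = 5 := by rw [← hli.2]; exact (S.lead i (by omega)).2
          have hL0 : 0 < L := by have := S.hL; omega
          obtain ⟨hl0, hk0⟩ := S.lead ⟨0, hL0⟩ (by simp)
          apply hr
          refine ⟨⟨0, hL0⟩, ?_⟩
          rw [S.graded.q_uniq _ h0, hk, S.graded.q_uniq (φ ⟨0, hL0⟩) (by simpa using hl0), hk0]
        have hbig := S.tau.outer y' z hz hkap hlam hr
        rw [hbig] at hu
        have := t2_le_big L J i z S.hL
        omega
    · simp only at hP hyy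
      subst hyy
      rw [pathGraph_adj] at hP
      have hτ : τ (φ i, z') = t2 L J i z' := by
        by_cases h0 : (z' : ℕ) = 0
        · rw [S.tau.zero _ _ (Or.inl h0), h0]
          simp [t2]
        · exact S.tau.line i z' h0 hi
      rw [hτ] at hu
      rcases hP with h | h
      · right
        refine ⟨rfl, h.symm, ?_⟩
        rw [h]; exact hu
      · left; right
        refine ⟨rfl, h, ?_⟩
        have : (z : ℕ) - 1 = z' := by omega
        rw [this]; exact hu
  have c1 : B1.ncard ≤ if t2 L J ((i : ℕ) - 1) z + 2 ≤ t2 L J i z then 1 else 0 := by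
    apply ncard_le_ite_c1
    · rintro ⟨a, b⟩ ⟨h1, ⟨j, h2, h3⟩, -⟩ ⟨c, d⟩ ⟨h1', ⟨j', h2', h3'⟩, -⟩
      simp only at h1 h3 h1' h3'
      have : j = j' := Fin.ext (by omega)
      rw [h1, h3, h1', h3', this]
    · rintro u ⟨-, -, h⟩; exact h
  have c2 : B2.ncard ≤ if t2 L J ((i : ℕ) + 1) z + 2 ≤ t2 L J i z then 1 else 0 := by
    apply ncard_le_ite_c1
    · rintro ⟨a, b⟩ ⟨h1, ⟨j, h2, h3⟩, -⟩ ⟨c, d⟩ ⟨h1', ⟨j', h2', h3'⟩, -⟩
      simp only at h1 h3 h1' h3'
      have : j = j' := Fin.ext (by omega)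
      rw [h1, h3, h1', h3', this]
    · rintro u ⟨-, -, h⟩; exact h
  have c3 : B3.ncard ≤ if t2 L J i ((z : ℕ) - 1) + 2 ≤ t2 L J i z then 1 else 0 := by
    apply ncard_le_ite_c1
    · rintro ⟨a, b⟩ ⟨h1, h2, -⟩ ⟨c, d⟩ ⟨h1', h2', -⟩
      simp only at h1 h2 h1' h2'
      have : b = d := Fin.ext (by omega)
      rw [h1, h1', this]
    · rintro u ⟨-, -, h⟩; exact h
  have c4 : B4.ncard ≤ if t2 L J i ((z : ℕ) + 1) + 2 ≤ t2 L J i z then 1 else 0 := by
    apply ncard_le_ite_c1
    · rintro ⟨a, b⟩ ⟨h1, h2, -⟩ ⟨c, d⟩ ⟨h1', h2', -⟩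
      simp only at h1 h2 h1' h2'
      have : b = d := Fin.ext (by omega)
      rw [h1, h1', this]
    · rintro u ⟨-, -, h⟩; exact h
  have hAr := hA L J i z S.hL S.hJ1 hi hz1
  have hfin : (B1 ∪ B2 ∪ B3 ∪ B4).Finite := Set.toFinite _
  calc ((Y □ pathGraph n).neighborSet (φ i, z) ∩ {u | τ u + 2 ≤ τ (φ i, z)}).ncard
      ≤ (B1 ∪ B2 ∪ B3 ∪ B4).ncard := Set.ncard_le_ncard hsub hfin
    _ ≤ B1.ncard + B2.ncard + B3.ncard + B4.ncard := by
        refine (Set.ncard_union_le _ _).trans ?_
        gcongr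
        refine (Set.ncard_union_le _ _).trans ?_
        gcongr
        exact Set.ncard_union_le _ _
    _ ≤ 2 := by omega

end Pool.Agent.H132R3.BP
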