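import Pool.Agent.H132R3.BP.Stmts

set_option autoImplicit false

namespace Pool.Agent.H132R3.BP

open SimpleGraph

theorem c3_pair {α : Type} (S : Set α) (a b : α) (h : ∀ u ∈ S, u = a ∨ u = b) : S.ncard ≤ 2 := by
  have hsub : S ⊆ ({a, b} : Set α) := by
    intro u hu
    rcases h u hu with h | h
    · exact Or.inl h
    · exact Or.inr h
  calc S.ncard ≤ ({a, b} : Set α).ncard := Set.ncard_le_ncard hsub (Set.toFinite _)
    _ ≤ ({b} : Set α).ncard + 1 := Set.ncard_insert_le a {b}
    _ = 2 := by rw [Set.ncard_singleton]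

theorem c3_range {V : Type} {n : ℕ} [Finite V] (S : Set (V × Fin n)) (T : Set V) (z : Fin n)
    (hT : T.ncard ≤ 2) (h : ∀ u ∈ S, u.1 ∈ T ∧ u.2 = z) : S.ncard ≤ 2 := by
  have hsub : S ⊆ (fun y => (y, z)) '' T := by
    rintro ⟨a, b⟩ hu
    obtain ⟨h1, h2⟩ := h _ hu
    exact ⟨a, h1, by simp only at h2; rw [h2]⟩
  calc S.ncard ≤ ((fun y => (y, z)) '' T).ncard := Set.ncard_le_ncard hsub (Set.toFinite _)
    _ ≤ T.ncard := Set.ncard_image_le (Set.toFinite _)
    _ ≤ 2 := hT

theorem c3_t2_one (L J i : ℕ) (hi : 1 ≤ i) : t2 L J i 1 = big L J := by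
  unfold t2
  rw [if_neg (by omega), if_neg (by omega), if_neg (by omega), if_neg (by omega),
    if_neg (by omega)]

theorem tTCount3 : TCount3 := by
  intro V _ Y n L J lam kap q φ τ hS y z hl hy
  by_cases hz : (z : ℕ) = 0
  · have h0 : τ (y, z) = 0 := hS.tau.zero y z (Or.inl hz)
    refine c3_pair _ (y, z) (y, z) fun u hu => ?_
    have := hu.2
    simp only [Set.mem_setOf_eq] at this
    omega
  by_cases hk : kap y = 0
  · have h0 : τ (y, z) = 0 := hS.tau.zero y z (Or.inr hk)
    refine c3_pair _ (y, z) (y, z) fun u hu => ?_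
    have := hu.2
    simp only [Set.mem_setOf_eq] at this
    omega
  have hB : τ (y, z) = big L J := hS.tau.outer y z hz hk hl hy
  -- description of the counted neighbours
  have key : ∀ u ∈ ((Y □ pathGraph n).neighborSet (y, z) ∩ {u | τ u + 2 ≤ τ (y, z)}),
      (u.1 = y ∧ (u.2 : ℕ) = 0 ∧ (z : ℕ) = 1) ∨
      (Y.Adj y u.1 ∧ u.2 = z ∧ ((u.1 ∈ Set.range φ ∧ (z : ℕ) ≠ 1) ∨ kap u.1 = 0 ∨
        (lam u.1 = 0 ∧ kap u.1 ≠ 0 ∧ ¬ U0 (kap u.1) z))) := by
    rintro ⟨y', z'⟩ ⟨hadj, hτ⟩
    simp only [Set.mem_setOf_eq] at hτ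
    rw [hB] at hτ
    rw [mem_neighborSet, boxProd_adj] at hadj
    simp only at hadj
    rcases hadj with ⟨ha, hzz⟩ | ⟨ha, hyy⟩
    · subst hzz
      right
      refine ⟨ha, rfl, ?_⟩
      by_cases hk' : kap y' = 0
      · exact Or.inr (Or.inl hk')
      by_cases hl' : lam y' = 0
      · have hb := hS.tau.bottom y' z hz hk' hl'
        refine Or.inr (Or.inr ⟨hl', hk', fun hU => ?_⟩)
        rw [if_pos hU] at hb
        omega
      by_cases hr : y' ∈ Set.range φ
      · left
        refine ⟨hr, fun hz1 => ?_⟩
        obtain ⟨i, rfl⟩ := hr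
        have hi : 1 ≤ (i : ℕ) := by
          by_contra hi
          have h3 := (hS.lead i (by omega)).1
          omega
        have hb := hS.tau.line i z hz hi
        rw [hz1, c3_t2_one L J i hi] at hb
        omega
      · have hb := hS.tau.outer y' z hz hk' hl' hr
        omega
    · subst hyy
      left
      refine ⟨rfl, ?_⟩
      rw [pathGraph_adj] at ha
      by_cases hz' : (z' : ℕ) = 0
      · refine ⟨hz', ?_⟩
        omega
      · exfalso
        have hb := hS.tau.outer y z' hz' hk hl hy
        omega
  have hstep := hS.graded.step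
  by_cases hk1 : kap y = 1
  · -- height one
    obtain ⟨d, hd1, hd2, hd3⟩ := hS.graded.kdown y (by omega)
    have hrange : ∀ y', Y.Adj y y' → y' ∉ Set.range φ := by
      rintro y' ha ⟨i, rfl⟩
      have h5 := hS.high i
      rcases hstep _ _ ha with h | h <;> omega
    have hdown : ∀ y', Y.Adj y y' → kap y' = 0 → y' = d := by
      intro y' ha h0
      exact hS.graded.kdown_uniq y y' d ha hd1 (by omega) hd3
    have hq : ∀ y', Y.Adj y y' → lam y' = 0 → y' = q 1 := by
      intro y' ha h0
      have h1 := hS.graded.q_uniq y' h0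
      rcases hstep _ _ ha with h | h
      · rw [← h.1, hk1] at h1
        exact h1
      · omega
    by_cases hz1 : (z : ℕ) = 1
    · refine c3_pair _ (y, ⟨0, by have := hS.hn; omega⟩) (d, z) fun u hu => ?_
      obtain ⟨u1, u2⟩ := u
      rcases key _ hu with ⟨h1, h2, h3⟩ | ⟨h1, h2, h3⟩
      · left
        simp only at h1 h2
        rw [h1]
        congr 1
        exact Fin.ext h2
      · simp only at h1 h2 h3
        rcases h3 with h3 | h3 | h3
        · exact absurd h3.1 (hrange _ h1)
        · right
          rw [hdown _ h1 h3, h2]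
        · exfalso
          apply h3.2.2
          right; right
          exact ⟨hz1, by omega⟩
    · refine c3_pair _ (q 1, z) (d, z) fun u hu => ?_
      obtain ⟨u1, u2⟩ := u
      rcases key _ hu with ⟨h1, h2, h3⟩ | ⟨h1, h2, h3⟩
      · exact absurd h3 hz1
      · simp only at h1 h2 h3
        rcases h3 with h3 | h3 | h3
        · exact absurd h3.1 (hrange _ h1)
        · right
          rw [hdown _ h1 h3, h2]
        · left
          rw [hq _ h1 h3.1, h2]
  · -- height at least two
    have hkap : ∀ y', Y.Adj y y' → kap y' ≠ 0 := by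
      intro y' ha h0
      rcases hstep _ _ ha with h | h <;> omega
    have hq : ∀ y', Y.Adj y y' → lam y' = 0 → y' = q (kap y) ∧ lam y = 1 ∧ kap y' = kap y := by
      intro y' ha h0
      have h1 := hS.graded.q_uniq y' h0
      rcases hstep _ _ ha with h | h
      · rw [← h.1] at h1
        exact ⟨h1, by omega, h.1.symm⟩
      · omega
    by_cases hz1 : (z : ℕ) = 1
    · refine c3_pair _ (y, ⟨0, by have := hS.hn; omega⟩) (y, z) fun u hu => ?_
      obtain ⟨u1, u2⟩ := u
      rcases key _ hu with ⟨h1, h2, h3⟩ | ⟨h1, h2, h3⟩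
      · left
        simp only at h1 h2
        rw [h1]
        congr 1
        exact Fin.ext h2
      · simp only at h1 h2 h3
        rcases h3 with h3 | h3 | h3
        · exact absurd hz1 h3.2
        · exact absurd h3 (hkap _ h1)
        · exfalso
          apply h3.2.2
          right; right
          exact ⟨hz1, by omega⟩
    · by_cases hcase : lam y = 1 ∧ kap y ≠ 5
      · -- `q (kap y)` and `φ 1`
        have hL : 1 < L := by have := hS.hL; omega
        refine c3_pair _ (q (kap y), z) (φ ⟨1, hL⟩, z) fun u hu => ?_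
        obtain ⟨u1, u2⟩ := u
        rcases key _ hu with ⟨h1, h2, h3⟩ | ⟨h1, h2, h3⟩
        · exact absurd h3 hz1
        · simp only at h1 h2 h3
          rcases h3 with h3 | h3 | h3
          · obtain ⟨⟨i, rfl⟩, -⟩ := h3
            right
            have hi3 : (i : ℕ) < 3 := by
              by_contra hi
              have h4 := hS.far i (by omega)
              rcases hstep _ _ h1 with h | h <;> omega
            have hi := hS.lead i (by omega)
            have hi1 : (i : ℕ) = 1 := by
              rcases hstep _ _ h1 with h | h <;> omega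
            have : i = ⟨1, hL⟩ := Fin.ext hi1
            rw [this, h2]
          · exact absurd h3 (hkap _ h1)
          · left
            rw [(hq _ h1 h3.1).1, h2]
      · refine c3_range _ _ z (hS.thin.out y hy) fun u hu => ?_
        obtain ⟨u1, u2⟩ := u
        rcases key _ hu with ⟨h1, h2, h3⟩ | ⟨h1, h2, h3⟩
        · exact absurd h3 hz1
        · simp only at h1 h2 h3
          refine ⟨⟨h1, ?_⟩, h2⟩
          rcases h3 with h3 | h3 | h3
          · exact h3.1
          · exact absurd h3 (hkap _ h1)
          · obtain ⟨e1, e2, e3⟩ := hq _ h1 h3.1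
            have hk5 : kap y = 5 := by
              by_contra h
              exact hcase ⟨e2, h⟩
            have hL : 0 < L := by have := hS.hL; omega
            refine ⟨⟨0, hL⟩, ?_⟩
            have h0 := hS.lead ⟨0, hL⟩ (by simp)
            have h6 := hS.graded.q_uniq (φ ⟨0, hL⟩) h0.1
            rw [h0.2] at h6
            rw [h6]
            simp only
            rw [e1, hk5]

end Pool.Agent.H132R3.BP
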