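import Pool.Agent.H132R3.BP.Stmts

/-!
# GRADED task of project H132-BP
-/

set_option autoImplicit false

namespace Pool.Agent.H132R3.BP

open SimpleGraph

theorem tTGraded : TGraded := by
  intro m M n hM hn
  -- the point with first coordinates `(0, k)`
  have hq : ∃ q : ℕ → (Fin M × Fin n) × (Fin m → Fin n), ∀ k, k < n →
      ((q k).1.1 : ℕ) = 0 ∧ ((q k).1.2 : ℕ) = k ∧ ∀ j, ((q k).2 j : ℕ) = 0 := by
    refine ⟨fun k => ((⟨0, hM⟩, if h : k < n then ⟨k, h⟩ else ⟨0, hn⟩), fun _ => ⟨0, hn⟩), ?_⟩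
    intro k hk
    refine ⟨rfl, ?_, fun _ => rfl⟩
    simp [hk]
  obtain ⟨q, hq⟩ := hq
  refine ⟨q, ?_⟩
  have hadj : ∀ y y' : (Fin M × Fin n) × (Fin m → Fin n),
      ((pathGraph M □ pathGraph n) □ Grid m n).Adj y y' ↔
        (((((y.1.1 : ℕ) + 1 = y'.1.1 ∨ (y'.1.1 : ℕ) + 1 = y.1.1) ∧ y.1.2 = y'.1.2) ∨
          (((y.1.2 : ℕ) + 1 = y'.1.2 ∨ (y'.1.2 : ℕ) + 1 = y.1.2) ∧ y.1.1 = y'.1.1)) ∧
            y.2 = y'.2) ∨
        ((Grid m n).Adj y.2 y'.2 ∧ y.1 = y'.1) := by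
    intro y y'
    rw [boxProd_adj, boxProd_adj, pathGraph_adj, pathGraph_adj]
  have hgrid : ∀ w w' : Fin m → Fin n, (Grid m n).Adj w w' →
      (∑ j, (w j : ℕ)) + 1 = ∑ j, (w' j : ℕ) ∨ (∑ j, (w' j : ℕ)) + 1 = ∑ j, (w j : ℕ) := by
    intro w w' h
    obtain ⟨i, h, hj⟩ := h
    have e1 : ∑ j, (w j : ℕ) = (w i : ℕ) + ∑ j ∈ Finset.univ.erase i, (w j : ℕ) :=
      (Finset.add_sum_erase _ _ (Finset.mem_univ i)).symm
    have e2 : ∑ j, (w' j : ℕ) = (w' i : ℕ) + ∑ j ∈ Finset.univ.erase i, (w' j : ℕ) :=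
      (Finset.add_sum_erase _ _ (Finset.mem_univ i)).symm
    have e3 : ∑ j ∈ Finset.univ.erase i, (w j : ℕ) = ∑ j ∈ Finset.univ.erase i, (w' j : ℕ) := by
      apply Finset.sum_congr rfl
      intro j hj'
      rw [hj j (Finset.ne_of_mem_erase hj')]
    rw [e1, e2, e3]
    omega
  refine
    { kap_lt := fun y => y.1.2.isLt
      step := ?_
      q_lam := ?_
      q_kap := fun k hk => (hq k hk).2.1
      q_uniq := ?_
      q_adj := ?_
      down := ?_
      kdown := ?_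
      kdown_uniq := ?_ }
  · intro y y' h
    rw [hadj] at h
    try simp only
    rcases h with ⟨h | h, h2⟩ | ⟨h, h2⟩
    · left
      refine ⟨by rw [h.2], ?_⟩
      rw [h2]
      omega
    · right
      refine ⟨by rw [h.2, h2], h.1⟩
    · left
      refine ⟨by rw [h2], ?_⟩
      have := hgrid _ _ h
      rw [h2]
      omega
  · intro k hk
    obtain ⟨h1, h2, h3⟩ := hq k hk
    try simp only
    rw [h1]
    simp [h3]
  · intro y hy
    try simp only at hy ⊢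
    obtain ⟨h1, h2, h3⟩ := hq (y.1.2 : ℕ) y.1.2.isLt
    have hy1 : (y.1.1 : ℕ) = 0 := by omega
    have hy2 : ∑ j, (y.2 j : ℕ) = 0 := by omega
    have hy3 : ∀ j, (y.2 j : ℕ) = 0 := by
      intro j
      have := Finset.sum_eq_zero_iff.1 hy2 j (Finset.mem_univ j)
      exact this
    refine Prod.ext (Prod.ext (Fin.ext ?_) (Fin.ext ?_)) (funext fun j => Fin.ext ?_)
    · rw [hy1, h1]
    · rw [h2]
    · rw [hy3, h3]
  · intro k hk
    obtain ⟨h1, h2, h3⟩ := hq k (by omega)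
    obtain ⟨h1', h2', h3'⟩ := hq (k + 1) hk
    rw [hadj]
    left
    refine ⟨Or.inr ⟨Or.inl (by rw [h2, h2']), Fin.ext (by rw [h1, h1'])⟩, ?_⟩
    funext j
    exact Fin.ext (by rw [h3, h3'])
  · intro y hy
    try simp only at hy ⊢
    by_cases hx : 0 < (y.1.1 : ℕ)
    · refine ⟨((⟨(y.1.1 : ℕ) - 1, by omega⟩, y.1.2), y.2), ?_, rfl, ?_⟩
      · rw [hadj]
        left
        refine ⟨Or.inl ⟨Or.inr ?_, rfl⟩, rfl⟩
        simp only
        omega
      · simp only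
        omega
    · have hs : 0 < ∑ j, (y.2 j : ℕ) := by omega
      obtain ⟨i, -, hi⟩ : ∃ i ∈ Finset.univ, 0 < (y.2 i : ℕ) := by
        by_contra hcon
        push Not at hcon
        have : ∑ j, (y.2 j : ℕ) = 0 := Finset.sum_eq_zero fun j hj => Nat.le_zero.1 (hcon j hj)
        omega
      have hlt : (y.2 i : ℕ) - 1 < n := by
        have := (y.2 i).isLt
        omega
      have hA : (Grid m n).Adj y.2 (Function.update y.2 i ⟨(y.2 i : ℕ) - 1, hlt⟩) := by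
        refine ⟨i, Or.inr ?_, ?_⟩
        · rw [Function.update_self]
          simp only
          omega
        · intro j hj
          rw [Function.update_of_ne hj]
      have e1 : ∑ j, (y.2 j : ℕ) = (y.2 i : ℕ) + ∑ j ∈ Finset.univ.erase i, (y.2 j : ℕ) :=
        (Finset.add_sum_erase _ _ (Finset.mem_univ i)).symm
      have e2 : ∑ j, (Function.update y.2 i ⟨(y.2 i : ℕ) - 1, hlt⟩ j : ℕ) =
          (Function.update y.2 i ⟨(y.2 i : ℕ) - 1, hlt⟩ i : ℕ) +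
            ∑ j ∈ Finset.univ.erase i, (Function.update y.2 i ⟨(y.2 i : ℕ) - 1, hlt⟩ j : ℕ) :=
        (Finset.add_sum_erase _ _ (Finset.mem_univ i)).symm
      have e3 : ∑ j ∈ Finset.univ.erase i, (Function.update y.2 i ⟨(y.2 i : ℕ) - 1, hlt⟩ j : ℕ) =
          ∑ j ∈ Finset.univ.erase i, (y.2 j : ℕ) := by
        apply Finset.sum_congr rfl
        intro j hj'
        rw [Function.update_of_ne (Finset.ne_of_mem_erase hj')]
      rw [Function.update_self] at e2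
      simp only at e2
      refine ⟨(y.1, Function.update y.2 i ⟨(y.2 i : ℕ) - 1, hlt⟩), ?_, rfl, ?_⟩
      · rw [hadj]
        right
        exact ⟨hA, rfl⟩
      · simp only
        omega
  · intro y hy
    try simp only at hy ⊢
    have hlt : (y.1.2 : ℕ) - 1 < n := by
      have := y.1.2.isLt
      omega
    refine ⟨((y.1.1, ⟨(y.1.2 : ℕ) - 1, hlt⟩), y.2), ?_, rfl, ?_⟩
    · rw [hadj]
      left
      refine ⟨Or.inr ⟨Or.inr ?_, rfl⟩, rfl⟩
      simp only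
      omega
    · simp only
      omega
  · intro y y' y'' h1 h2 k1 k2
    rw [hadj] at h1 h2
    try simp only at k1 k2
    have key : ∀ z : (Fin M × Fin n) × (Fin m → Fin n), (z.1.2 : ℕ) + 1 = y.1.2 →
        ((((((y.1.1 : ℕ) + 1 = z.1.1 ∨ (z.1.1 : ℕ) + 1 = y.1.1) ∧ y.1.2 = z.1.2) ∨
          (((y.1.2 : ℕ) + 1 = z.1.2 ∨ (z.1.2 : ℕ) + 1 = y.1.2) ∧ y.1.1 = z.1.1)) ∧
            y.2 = z.2) ∨
        ((Grid m n).Adj y.2 z.2 ∧ y.1 = z.1)) → y.1.1 = z.1.1 ∧ y.2 = z.2 := by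
      intro z hz h
      rcases h with ⟨h | h, h2⟩ | ⟨h, h2⟩
      · rw [h.2] at hz
        omega
      · exact ⟨h.2, h2⟩
      · rw [h2] at hz
        omega
    obtain ⟨a1, a2⟩ := key y' k1 h1
    obtain ⟨b1, b2⟩ := key y'' k2 h2
    refine Prod.ext (Prod.ext ?_ (Fin.ext ?_)) ?_
    · rw [← a1, b1]
    · omega
    · rw [← a2, b2]

end Pool.Agent.H132R3.BP
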