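import Mathlib
import Pool.Agent.H132R3.BP.Stmts

set_option autoImplicit false

/-! Once the bottom plane is infected, everything gets infected. -/

namespace Pool.Agent.H132R3.BP

open SimpleGraph

theorem tTGrow : TGrow := by
  intro V _ Y n L J lam kap q φ τ hS C hC h0 hb
  have key : ∀ s : ℕ, ∀ (y : V) (z : Fin n), lam y + kap y + (z : ℕ) = s → (y, z) ∈ C := by
    intro s
    induction s using Nat.strong_induction_on with
    | _ s ih =>
      intro y z hs
      by_cases hz : (z : ℕ) = 0
      · exact h0 _ (hS.tau.zero y z (Or.inl hz))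
      by_cases hk : kap y = 0
      · exact h0 _ (hS.tau.zero y z (Or.inr hk))
      by_cases hl : lam y = 0
      · exact hb y z hl
      obtain ⟨y1, ha1, hl1, hk1⟩ := hS.graded.kdown y (Nat.pos_of_ne_zero hk)
      obtain ⟨y2, ha2, hk2, hl2⟩ := hS.graded.down y (Nat.pos_of_ne_zero hl)
      have hzn := z.2
      have hz1 : (z : ℕ) - 1 < n := by omega
      have c1 : (y, (⟨(z : ℕ) - 1, hz1⟩ : Fin n)) ∈ C :=
        ih (lam y + kap y + ((z : ℕ) - 1)) (by omega) y _ rfl
      have c2 : (y1, z) ∈ C := ih (lam y1 + kap y1 + (z : ℕ)) (by omega) y1 z rfl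
      have c3 : (y2, z) ∈ C := ih (lam y2 + kap y2 + (z : ℕ)) (by omega) y2 z rfl
      have hzne : (⟨(z : ℕ) - 1, hz1⟩ : Fin n) ≠ z := by
        intro h
        have := congrArg Fin.val h
        simp only at this
        omega
      have n1 : (Y □ pathGraph n).Adj (y, z) (y, ⟨(z : ℕ) - 1, hz1⟩) := by
        rw [boxProd_adj]
        refine Or.inr ⟨?_, rfl⟩
        rw [pathGraph_adj]
        right
        simp only
        omega
      have n2 : (Y □ pathGraph n).Adj (y, z) (y1, z) := by
        rw [boxProd_adj]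
        exact Or.inl ⟨ha1, rfl⟩
      have n3 : (Y □ pathGraph n).Adj (y, z) (y2, z) := by
        rw [boxProd_adj]
        exact Or.inl ⟨ha2, rfl⟩
      have hy12 : y1 ≠ y2 := by
        rintro rfl
        omega
      apply hC
      have h3 : ({(y, (⟨(z : ℕ) - 1, hz1⟩ : Fin n)), (y1, z), (y2, z)} : Set (V × Fin n)).ncard
          = 3 := by
        rw [Set.ncard_eq_three]
        refine ⟨_, _, _, ?_, ?_, ?_, rfl⟩
        · intro h
          exact hzne (congrArg Prod.snd h)
        · intro h
          exact hzne (congrArg Prod.snd h)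
        · intro h
          exact hy12 (congrArg Prod.fst h)
      rw [← h3]
      refine Set.ncard_le_ncard ?_ (Set.toFinite _)
      rintro u hu
      rcases hu with rfl | rfl | rfl
      · exact ⟨n1, c1⟩
      · exact ⟨n2, c2⟩
      · exact ⟨n3, c3⟩
  exact Set.eq_univ_of_forall (fun v => key _ v.1 v.2 rfl)

end Pool.Agent.H132R3.BP
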