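import Pool.Agent.H132R3.BP.Stmts

set_option autoImplicit false

namespace Pool.Agent.H132R3.BP

open SimpleGraph

theorem tTIso : TIso := by
  intro m n
  let e : (Fin (m + 1) → Fin n) ≃ Fin n × (Fin m → Fin n) :=
    { toFun := fun x => (x 0, fun j => x j.succ)
      invFun := fun p => Fin.cons p.1 p.2
      left_inv := by
        intro x
        funext j
        refine Fin.cases ?_ (fun k => ?_) j
        · simp
        · simp
      right_inv := by
        rintro ⟨a, b⟩
        simp }
  refine ⟨⟨e, ?_⟩⟩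
  intro x y
  rw [SimpleGraph.boxProd_adj]
  show ((pathGraph n).Adj (x 0) (y 0) ∧ (fun j : Fin m => x j.succ) = (fun j => y j.succ) ∨
    (Grid m n).Adj (fun j => x j.succ) (fun j => y j.succ) ∧ x 0 = y 0) ↔
      (Grid (m + 1) n).Adj x y
  rw [pathGraph_adj]
  constructor
  · rintro (⟨h, h'⟩ | ⟨⟨i, h, hj⟩, h'⟩)
    · refine ⟨0, h, fun j hj => ?_⟩
      rcases Fin.eq_zero_or_eq_succ j with rfl | ⟨k, rfl⟩
      · exact absurd rfl hj
      · exact congrFun h' k
    · refine ⟨i.succ, h, fun j hj' => ?_⟩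
      rcases Fin.eq_zero_or_eq_succ j with rfl | ⟨k, rfl⟩
      · exact h'
      · exact hj k (fun e => hj' (by rw [e]))
  · rintro ⟨i, h, hj⟩
    rcases Fin.eq_zero_or_eq_succ i with rfl | ⟨k, rfl⟩
    · left
      exact ⟨h, funext fun j => hj j.succ (Fin.succ_ne_zero j)⟩
    · right
      exact ⟨⟨k, h, fun j hne => hj j.succ (fun e => hne (Fin.succ_injective _ e))⟩,
        hj 0 (Fin.succ_ne_zero k).symm⟩

end Pool.Agent.H132R3.BP
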