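import Pool.Agent.H132R3.BP.Stmts

set_option autoImplicit false

namespace Pool.Agent.H132R3.BP

open SimpleGraph

theorem TPathC_three {α : Type*} {S : Set α} (hS : S.Finite) {a b c : α} (ha : a ∈ S)
    (hb : b ∈ S) (hc : c ∈ S) (hab : a ≠ b) (hac : a ≠ c) (hbc : b ≠ c) : 3 ≤ S.ncard := by
  have h : ({a, b, c} : Set α) ⊆ S := by
    rintro x (rfl | rfl | rfl) <;> assumption
  have h1 := Set.ncard_le_ncard h hS
  have e : ({a, b, c} : Set α).ncard = 3 := by
    rw [Set.ncard_insert_of_notMem (by simp [hab, hac]), Set.ncard_pair hbc]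
  omega

theorem tTPathC : TArith2 → TPathC := by
  intro hA V _ Y n L J lam kap q φ τ hS C hC h0
  have hJ := hS.hJ
  have hL := hS.hL
  have hJ1 := hS.hJ1
  have main : ∀ N : ℕ, ∀ (i : Fin L) (z : Fin n), 1 ≤ (i : ℕ) → t2 L J i z ≤ N →
      t2 L J i z < big L J → (φ i, z) ∈ C := by
    intro N
    induction N with
    | zero =>
      intro i z hi hN _
      apply h0
      by_cases hz : (z : ℕ) = 0
      · exact hS.tau.zero _ _ (Or.inl hz)
      · rw [hS.tau.line i z hz hi]
        omega
    | succ N ih =>
      intro i z hi hN hbig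
      by_cases hz : (z : ℕ) = 0
      · exact h0 _ (hS.tau.zero _ _ (Or.inl hz))
      by_cases ht : t2 L J i z = 0
      · apply h0
        rw [hS.tau.line i z hz hi, ht]
      obtain ⟨-, -, hcnt⟩ := hA L J i z hL hJ1 hi (by omega) hbig
      have hcnt := hcnt (by omega)
      have hfin : ((Y □ pathGraph n).neighborSet (φ i, z) ∩ C).Finite := Set.toFinite _
      -- the four neighbours
      have P1 : t2 L J ((i : ℕ) - 1) z < t2 L J i z → ∃ j : Fin L, (j : ℕ) + 1 = i ∧
          (φ j, z) ∈ (Y □ pathGraph n).neighborSet (φ i, z) ∩ C := by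
        intro h
        refine ⟨⟨(i : ℕ) - 1, by omega⟩, by simp only; omega, ?_, ?_⟩
        · rw [mem_neighborSet, boxProd_adj]
          left
          refine ⟨(hS.thin.adj _ _).2 ?_, rfl⟩
          rw [pathGraph_adj]
          simp only
          omega
        · by_cases hi1 : (i : ℕ) = 1
          · apply h0
            have hl := hS.lead ⟨(i : ℕ) - 1, by omega⟩ (by simp only; omega)
            have hlam : lam (φ ⟨(i : ℕ) - 1, by omega⟩) = 0 := by
              rw [hl.1]; simp only; omega
            have hkap := hl.2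
            rw [hS.tau.bottom _ z hz (by rw [hkap]; norm_num) hlam, hkap]
            have h1 : t2 L J 0 z < big L J := by
              have : (i : ℕ) - 1 = 0 := by omega
              rw [this] at h
              omega
            unfold t2 at h1
            rw [if_neg hz, if_pos rfl] at h1
            have h2 : ¬ ((z : ℕ) = 1 ∨ (z : ℕ) = 4) := by
              intro h3
              rw [if_pos h3] at h1
              omega
            rw [if_neg]
            unfold U0
            omega
          · refine ih ⟨(i : ℕ) - 1, by omega⟩ z (by simp only; omega) ?_ ?_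
            · simp only; omega
            · simp only; omega
      have P2 : t2 L J ((i : ℕ) + 1) z < t2 L J i z → ∃ j : Fin L, (j : ℕ) = i + 1 ∧
          (φ j, z) ∈ (Y □ pathGraph n).neighborSet (φ i, z) ∩ C := by
        clear P1
        intro h
        obtain ⟨h1, -, -⟩ := hA L J (i + 1) z hL hJ1 (by omega) (by omega) (by omega)
        refine ⟨⟨(i : ℕ) + 1, h1⟩, rfl, ?_, ?_⟩
        · rw [mem_neighborSet, boxProd_adj]
          left
          refine ⟨(hS.thin.adj _ _).2 ?_, rfl⟩
          rw [pathGraph_adj]
          simp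
        · refine ih ⟨(i : ℕ) + 1, h1⟩ z (by simp only; omega) ?_ ?_
          · simp only; omega
          · simp only; omega
      have P3 : t2 L J i ((z : ℕ) - 1) < t2 L J i z → ∃ w : Fin n, (w : ℕ) + 1 = z ∧
          (φ i, w) ∈ (Y □ pathGraph n).neighborSet (φ i, z) ∩ C := by
        clear P1 P2
        intro h
        refine ⟨⟨(z : ℕ) - 1, by omega⟩, by simp only; omega, ?_, ?_⟩
        · rw [mem_neighborSet, boxProd_adj]
          right
          refine ⟨?_, rfl⟩
          rw [pathGraph_adj]
          simp only
          omega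
        · refine ih i ⟨(z : ℕ) - 1, by omega⟩ hi ?_ ?_
          · simp only; omega
          · simp only; omega
      have P4 : t2 L J i ((z : ℕ) + 1) < t2 L J i z → ∃ w : Fin n, (w : ℕ) = z + 1 ∧
          (φ i, w) ∈ (Y □ pathGraph n).neighborSet (φ i, z) ∩ C := by
        clear P1 P2 P3
        intro h
        obtain ⟨-, h1, -⟩ := hA L J i (z + 1) hL hJ1 hi (by omega) (by omega)
        refine ⟨⟨(z : ℕ) + 1, by omega⟩, rfl, ?_, ?_⟩
        · rw [mem_neighborSet, boxProd_adj]
          right
          refine ⟨?_, rfl⟩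
          rw [pathGraph_adj]
          simp
        · refine ih i ⟨(z : ℕ) + 1, by omega⟩ hi ?_ ?_
          · simp only; omega
          · simp only; omega
      have hinj := hS.thin.inj
      apply hC
      have D12 : ∀ j j' : Fin L, (j : ℕ) + 1 = i → (j' : ℕ) = i + 1 → (φ j, z) ≠ (φ j', z) := by
        intro j j' h1 h2 h
        have := hinj (Prod.mk.inj h).1
        rw [this] at h1
        omega
      have D3 : ∀ (j : Fin L) (w : Fin n), (w : ℕ) ≠ z → (φ j, z) ≠ (φ i, w) := by
        intro j w h1 h
        exact h1 (by rw [(Prod.mk.inj h).2])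
      have D34 : ∀ w w' : Fin n, (w : ℕ) + 1 = z → (w' : ℕ) = z + 1 → (φ i, w) ≠ (φ i, w') := by
        intro w w' h1 h2 h
        have := (Prod.mk.inj h).2
        rw [this] at h1
        omega
      by_cases q1 : t2 L J ((i : ℕ) - 1) z < t2 L J i z
      · obtain ⟨j1, e1, m1⟩ := P1 q1
        by_cases q2 : t2 L J ((i : ℕ) + 1) z < t2 L J i z
        · obtain ⟨j2, e2, m2⟩ := P2 q2
          by_cases q3 : t2 L J i ((z : ℕ) - 1) < t2 L J i z
          · obtain ⟨w3, e3, m3⟩ := P3 q3
            exact TPathC_three hfin m1 m2 m3 (D12 _ _ e1 e2) (D3 _ _ (by omega)) (D3 _ _ (by omega))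
          · by_cases q4 : t2 L J i ((z : ℕ) + 1) < t2 L J i z
            · obtain ⟨w4, e4, m4⟩ := P4 q4
              exact TPathC_three hfin m1 m2 m4 (D12 _ _ e1 e2) (D3 _ _ (by omega))
                (D3 _ _ (by omega))
            · rw [if_pos q1, if_pos q2, if_neg q3, if_neg q4] at hcnt
              omega
        · by_cases q3 : t2 L J i ((z : ℕ) - 1) < t2 L J i z
          · by_cases q4 : t2 L J i ((z : ℕ) + 1) < t2 L J i z
            · obtain ⟨w3, e3, m3⟩ := P3 q3
              obtain ⟨w4, e4, m4⟩ := P4 q4
              exact TPathC_three hfin m1 m3 m4 (D3 _ _ (by omega)) (D3 _ _ (by omega))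
                (D34 _ _ e3 e4)
            · rw [if_pos q1, if_neg q2, if_pos q3, if_neg q4] at hcnt
              omega
          · rw [if_pos q1, if_neg q2, if_neg q3] at hcnt
            split_ifs at hcnt <;> omega
      · by_cases q2 : t2 L J ((i : ℕ) + 1) z < t2 L J i z
        · by_cases q3 : t2 L J i ((z : ℕ) - 1) < t2 L J i z
          · by_cases q4 : t2 L J i ((z : ℕ) + 1) < t2 L J i z
            · obtain ⟨j2, e2, m2⟩ := P2 q2
              obtain ⟨w3, e3, m3⟩ := P3 q3
              obtain ⟨w4, e4, m4⟩ := P4 q4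
              exact TPathC_three hfin m2 m3 m4 (D3 _ _ (by omega)) (D3 _ _ (by omega))
                (D34 _ _ e3 e4)
            · rw [if_neg q1, if_pos q2, if_pos q3, if_neg q4] at hcnt
              omega
          · rw [if_neg q1, if_pos q2, if_neg q3] at hcnt
            split_ifs at hcnt <;> omega
        · rw [if_neg q1, if_neg q2] at hcnt
          split_ifs at hcnt <;> omega
  intro i z hi h
  exact main _ i z hi le_rfl h

end Pool.Agent.H132R3.BP
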