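import Pool.Agent.H132R3.BP.MaxTime
import Pool.Agent.H132R3.BP.TArith1
import Pool.Agent.H132R3.BP.TArith2
import Pool.Agent.H132R3.BP.TBottom
import Pool.Agent.H132R3.BP.TCount1
import Pool.Agent.H132R3.BP.TCount2
import Pool.Agent.H132R3.BP.TCount3
import Pool.Agent.H132R3.BP.TDense
import Pool.Agent.H132R3.BP.TFold
import Pool.Agent.H132R3.BP.TGraded
import Pool.Agent.H132R3.BP.TGrow
import Pool.Agent.H132R3.BP.TIso
import Pool.Agent.H132R3.BP.TIso2
import Pool.Agent.H132R3.BP.TIso3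
import Pool.Agent.H132R3.BP.TLead
import Pool.Agent.H132R3.BP.TPathC
import Pool.Agent.H132R3.BP.TStrip
import Pool.Agent.H132R3.BP.TThin2

set_option autoImplicit false

namespace Pool.Agent.H132R3.BP

theorem pr_odd (d r : ℕ) (hr : 3 ≤ r) (hrd : r ≤ 2 * d + 1) (hor : Odd r ∨ r = 2 * d) : Pr r d :=
  main_pr tTFold tTDense (tTLead tTThin2) tTGraded (tTCount1 tTArith1) tTCount2 tTCount3
    (tTPathC tTArith2) tTBottom tTGrow tTStrip tTIso tTIso2 tTIso3 d r hr hrd hor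

/-- the order of magnitude for all odd `r` and for `r = 2 d - 2` -/
theorem theta_odd (d r : ℕ) (hd : 2 ≤ d) (hr : 3 ≤ r) (hrd : r ≤ 2 * d - 1)
    (hor : Odd r ∨ r = 2 * d - 2) :
    (fun n : ℕ => (maxTime r d n : ℝ)) =Θ[Filter.atTop] fun n : ℕ => (n : ℝ) ^ d := by
  obtain ⟨m, rfl⟩ : ∃ m, d = m + 1 := ⟨d - 1, by omega⟩
  exact theta_of_pr tTIso tTIso3 (pr_odd m r hr (by omega) (by
    rcases hor with h | h
    · exact Or.inl h
    · right; omega))

end Pool.Agent.H132R3.BP
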