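import Pool.Agent.H132R3.BP.Stmts

set_option autoImplicit false

namespace Pool.Agent.H132R3.BP

open SimpleGraph

/-! ### General lemmas on the process -/

theorem inf_subset_succ {V : Type} (G : SimpleGraph V) (r : ℕ) (A : Set V) (t : ℕ) :
    inf G r A t ⊆ inf G r A (t + 1) := fun _ hv => Or.inl hv

theorem inf_mono {V : Type} (G : SimpleGraph V) (r : ℕ) (A : Set V) {s t : ℕ} (h : s ≤ t) :
    inf G r A s ⊆ inf G r A t := by
  induction h with
  | refl => exact subset_rfl
  | step _ ih => exact ih.trans (inf_subset_succ G r A _)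

/-- the lower bound lemma -/
theorem inf_subset_tau {V : Type} [Finite V] (G : SimpleGraph V) (r : ℕ) (A : Set V) (τ : V → ℕ)
    (hA : ∀ v ∈ A, τ v = 0)
    (hc : ∀ v, (G.neighborSet v ∩ {u | τ u + 2 ≤ τ v}).ncard < r) (t : ℕ) :
    inf G r A t ⊆ {v | τ v ≤ t} := by
  induction t with
  | zero =>
    intro v hv
    have := hA v hv
    simp [this]
  | succ t ih =>
    rintro v (hv | hv)
    · exact (ih hv).trans (Nat.le_succ t)
    · by_contra hcon
      simp only [Set.mem_setOf_eq, not_le] at hcon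
      have h1 : (G.neighborSet v ∩ inf G r A t).ncard ≤
          (G.neighborSet v ∩ {u | τ u + 2 ≤ τ v}).ncard := by
        apply Set.ncard_le_ncard _ (Set.toFinite _)
        rintro u ⟨hu1, hu2⟩
        refine ⟨hu1, ?_⟩
        have := ih hu2
        simp only [Set.mem_setOf_eq] at this ⊢
        omega
      have h2 := hc v
      have h3 : r ≤ (G.neighborSet v ∩ inf G r A t).ncard := hv
      omega

/-- a finite process becomes stationary -/
theorem exists_stationary {V : Type} [Finite V] (G : SimpleGraph V) (r : ℕ) (A : Set V) :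
    ∃ t, inf G r A (t + 1) = inf G r A t := by
  by_contra hcon
  push Not at hcon
  have h : ∀ t, t ≤ (inf G r A t).ncard := by
    intro t
    induction t with
    | zero => exact Nat.zero_le _
    | succ t ih =>
      have h1 : inf G r A t ⊂ inf G r A (t + 1) :=
        (inf_subset_succ G r A t).ssubset_of_ne (hcon t).symm
      have h2 := Set.ncard_lt_ncard h1 (Set.toFinite _)
      omega
  have h3 := h (Nat.card V + 1)
  have h4 : (inf G r A (Nat.card V + 1)).ncard ≤ Nat.card V := by
    rw [← Set.ncard_univ]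
    exact Set.ncard_le_ncard (Set.subset_univ _) (Set.toFinite _)
  omega

theorem perc_of_closed {V : Type} [Finite V] (G : SimpleGraph V) (r : ℕ) (A : Set V)
    (h : ∀ C : Set V, (∀ v, r ≤ (G.neighborSet v ∩ C).ncard → v ∈ C) → A ⊆ C → C = Set.univ) :
    ∃ t, inf G r A t = Set.univ := by
  obtain ⟨t, ht⟩ := exists_stationary G r A
  refine ⟨t, h _ ?_ (inf_mono G r A (Nat.zero_le t))⟩
  intro v hv
  rw [← ht]
  exact Or.inr hv

theorem Slow.mono {V : Type} {G : SimpleGraph V} {r S T : ℕ} (h : Slow G r T) (hST : S ≤ T) :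
    Slow G r S := by
  obtain ⟨A, h1, h2⟩ := h
  exact ⟨A, h1, fun t ht => h2 t (ht.trans_le hST)⟩

/-! ### The construction for r = 3 -/

open Classical in
theorem exists_tau {V : Type} [Finite V] {Y : SimpleGraph V} {n L J : ℕ} {lam kap : V → ℕ}
    {q : ℕ → V} {φ : Fin L → V} (hg : Graded Y n lam kap q) (ht : Thin (pathGraph L) Y φ)
    (hlead : ∀ i : Fin L, (i : ℕ) ≤ 3 → lam (φ i) = i ∧ kap (φ i) = 5)
    (hfar : ∀ i : Fin L, 3 ≤ (i : ℕ) → 3 ≤ lam (φ i)) (hhigh : ∀ i : Fin L, 5 ≤ kap (φ i)) :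
    ∃ τ : V × Fin n → ℕ, TauSpec L J lam kap φ τ := by
  have hlam : ∀ i : Fin L, 1 ≤ (i : ℕ) → lam (φ i) ≠ 0 := by
    intro i hi
    by_cases h3 : (i : ℕ) ≤ 3
    · rw [(hlead i h3).1]; omega
    · have := hfar i (by omega); omega
  refine ⟨fun v => if (v.2 : ℕ) = 0 ∨ kap v.1 = 0 then 0 else
    if lam v.1 = 0 then (if U0 (kap v.1) v.2 then big L J else 0) else
    if h : ∃ i : Fin L, φ i = v.1 then t2 L J ((Classical.choose h : Fin L) : ℕ) v.2 else big L J, ?_, ?_, ?_, ?_⟩
  · intro y z h
    simp only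
    rw [if_pos h]
  · intro y z h1 h2 h3
    simp only
    rw [if_neg (by tauto), if_pos h3]
  · intro i z hz hi
    have h5 := hhigh i
    have h0 := hlam i hi
    have hex : ∃ j : Fin L, φ j = φ i := ⟨i, rfl⟩
    have hch : Classical.choose hex = i := ht.inj (Classical.choose_spec hex)
    simp only
    rw [if_neg (by omega), if_neg h0, dif_pos hex, hch]
  · intro y z h1 h2 h3 h4
    have hex : ¬ ∃ i : Fin L, φ i = y := fun ⟨i, hi⟩ => h4 ⟨i, hi⟩
    simp only
    rw [if_neg (by tauto), if_neg h3, dif_neg hex]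

theorem slow_of_setup (c1 : TCount1) (c2 : TCount2) (c3 : TCount3) (pc : TPathC) (bt : TBottom)
    (gr : TGrow) {V : Type} [Finite V] {Y : SimpleGraph V} {n L J : ℕ} {lam kap : V → ℕ}
    {q : ℕ → V} {φ : Fin L → V} {τ : V × Fin n → ℕ} (S : Setup Y n L J lam kap q φ τ) :
    Slow (Y □ pathGraph n) 3 (big L J) := by
  have hn := S.hn
  have hL := S.hL
  have hcount : ∀ v : V × Fin n,
      ((Y □ pathGraph n).neighborSet v ∩ {u | τ u + 2 ≤ τ v}).ncard < 3 := by
    rintro ⟨y, z⟩
    by_cases h0 : lam y = 0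
    · have := c2 V Y n L J lam kap q φ τ S y z h0; omega
    · by_cases hr : y ∈ Set.range φ
      · obtain ⟨i, rfl⟩ := hr
        have hi : 1 ≤ (i : ℕ) := by
          by_contra hcon
          apply h0
          rw [(S.lead i (by omega)).1]; omega
        have := c1 V Y n L J lam kap q φ τ S i z hi; omega
      · have := c3 V Y n L J lam kap q φ τ S y z h0 hr; omega
  refine ⟨{v | τ v = 0}, ?_, ?_⟩
  · apply perc_of_closed
    intro C hC hA
    have hC' : Closed3 (Y □ pathGraph n) C := hC
    have hA' : ∀ v, τ v = 0 → v ∈ C := fun v hv => hA hv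
    have h1 := pc V Y n L J lam kap q φ τ S C hC' hA'
    have h2 := bt V Y n L J lam kap q φ τ S C hC' hA' (by
      intro i z hi hz
      apply h1 i z (by omega)
      have hbig : big L J = J * (L - 4) + L - 1 := rfl
      have ht : t2 L J i z = J * (L - 4) + L - 1 - i := by
        unfold t2
        rw [if_neg (by omega), if_neg (by omega), if_pos (by omega)]
      rw [ht, hbig]
      omega)
    exact gr V Y n L J lam kap q φ τ S C hC' hA' h2
  · intro t ht huniv
    have h1 := inf_subset_tau (Y □ pathGraph n) 3 {v | τ v = 0} τ (fun v hv => hv) hcount t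
    have hi0 : 0 < L := by omega
    have hz4 : 4 < n := by omega
    have hl := S.lead ⟨0, hi0⟩ (by simp)
    have h2 : τ (φ ⟨0, hi0⟩, ⟨4, hz4⟩) = big L J := by
      rw [S.tau.bottom _ _ (by simp) (by rw [hl.2]; norm_num) (by rw [hl.1])]
      rw [if_pos]
      left
      refine ⟨rfl, ?_⟩
      rw [hl.2]; norm_num
    have h3 : (φ ⟨0, hi0⟩, (⟨4, hz4⟩ : Fin n)) ∈ inf (Y □ pathGraph n) 3 {v | τ v = 0} t := by
      rw [huniv]; trivial
    have h4 := h1 h3
    simp only [Set.mem_setOf_eq] at h4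
    omega

end Pool.Agent.H132R3.BP
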