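import Pool.Agent.H132R3.BP.MaxTime

/-!
# Leading asymptotics in the plane (project H132-BP2, problem MP_fc3ed9_co)
-/

set_option autoImplicit false

namespace Pool.Agent.H132R3.BP

open SimpleGraph

/-- position constants of the staircases -/
def aa (k : ℕ) : ℕ := k * (3 * k - 1) + 1

/-- position along the snake in the lower triangle (`0` on the walls) -/
def lowIx (x y : ℕ) : ℕ :=
  if (x + y) % 3 = 0 then
    (if (((x + y) / 3 - 1) % 2 = 0 ∧ y = 1) ∨ (((x + y) / 3 - 1) % 2 = 1 ∧ x = 1) then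
      aa ((x + y) / 3 - 1) + 3 * ((x + y) / 3 - 1) + 1 else 0)
  else if 1 ≤ (x + y - 1) / 3 ∧
      ((((x + y - 1) / 3) % 2 = 1 ∧ ((y = 1 ∧ 3 * ((x + y - 1) / 3) ≤ x) ∨
        (y = 2 ∧ x = 3 * ((x + y - 1) / 3)))) ∨
      (((x + y - 1) / 3) % 2 = 0 ∧ ((x = 1 ∧ 3 * ((x + y - 1) / 3) ≤ y) ∨
        (x = 2 ∧ y = 3 * ((x + y - 1) / 3))))) then 0
  else if ((x + y - 1) / 3) % 2 = 0 then aa ((x + y - 1) / 3) + x - y
  else aa ((x + y - 1) / 3) + y - x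

/-- infection times in the plane: `0` on the walls -/
def t3 (m x y : ℕ) : ℕ :=
  if x = 0 ∨ y = 0 ∨ 3 * m ≤ x ∨ 3 * m ≤ y then
    (if x = 0 ∧ y = 1 then 6 * m * m + 6 - 8 * m else 0)
  else if x + y ≤ 3 * m then
    (if lowIx x y = 0 then 0 else 6 * m * m + 6 - 8 * m - lowIx x y)
  else lowIx (3 * m - y) (3 * m - x)

/-- W1 -/
def W1 : Prop := ∀ m x y : ℕ, 3 ≤ m → 1 ≤ x → 1 ≤ y →
  (if t3 m (x - 1) y + 2 ≤ t3 m x y then 1 else 0) +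
  (if t3 m (x + 1) y + 2 ≤ t3 m x y then 1 else 0) +
  (if t3 m x (y - 1) + 2 ≤ t3 m x y then 1 else 0) +
  (if t3 m x (y + 1) + 2 ≤ t3 m x y then 1 else 0) ≤ 2

/-- W2 -/
def W2 : Prop := ∀ m x y : ℕ, 3 ≤ m → 1 ≤ x → 1 ≤ y → 1 ≤ t3 m x y → 3 ≤
  (if t3 m (x - 1) y < t3 m x y then 1 else 0) +
  (if t3 m (x + 1) y < t3 m x y then 1 else 0) +
  (if t3 m x (y - 1) < t3 m x y then 1 else 0) +
  (if t3 m x (y + 1) < t3 m x y then 1 else 0)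

/-- W3: from the arithmetic to percolation in `[n]^2` -/
def W3 : Prop := W1 → W2 → ∀ m n : ℕ, 3 ≤ m → 3 * m + 1 ≤ n →
  Slow (pathGraph n □ pathGraph n) 3 (6 * m * m + 6 - 8 * m)

/-- W4: the upper bound -/
def W4 : Prop := ∀ n : ℕ, 3 * maxTime 3 2 n ≤ 2 * n ^ 2 + 2 * n

end Pool.Agent.H132R3.BP
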