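import Pool.Agent.H132R3.BP.Stmts4

/-!
# UBase4 (project H132-BP4, helper489)

The line in `((P_M □ P_n) □ P_n) □ Grid 0 n` with its companion set.
-/

set_option autoImplicit false

namespace Pool.Agent.H132R3.BP

open SimpleGraph

namespace UBase4Aux

/-- the host -/
abbrev YY (M n : ℕ) : SimpleGraph (((Fin M × Fin n) × Fin n) × (Fin 0 → Fin n)) :=
  ((pathGraph M □ pathGraph n) □ pathGraph n) □ Grid 0 n

theorem yadj {M n : ℕ} (u v : Fin M × Fin n) (s t : Fin n) (g g' : Fin 0 → Fin n) :
    (YY M n).Adj ((u, s), g) ((v, t), g') ↔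
      ((pathGraph M □ pathGraph n).Adj u v ∧ s = t) ∨ (u = v ∧ ((s : ℕ) + 1 = t ∨ (t : ℕ) + 1 = s)) := by
  have hg : g = g' := funext fun j => j.elim0
  subst hg
  have h0 : ¬ (Grid 0 n).Adj g g := by
    rintro ⟨i, -⟩
    exact i.elim0
  rw [boxProd_adj]
  simp only [h0, false_and, or_false, and_true]
  rw [boxProd_adj]
  simp only [pathGraph_adj]
  tauto

/-- the map of the plane over the path `p0` into the host -/
def psi {M n L0 : ℕ} (p0 : Fin L0 → Fin M × Fin n) (z : Fin L0 × Fin (n - 2)) :
    ((Fin M × Fin n) × Fin n) × (Fin 0 → Fin n) :=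
  ((p0 z.1, (⟨z.2 + 2, by have := z.2.2; omega⟩ : Fin n)), fun j => j.elim0)

theorem psi_inj {M n L0 : ℕ} {p0 : Fin L0 → Fin M × Fin n} (h : Function.Injective p0) :
    Function.Injective (psi p0) := by
  rintro ⟨x, s⟩ ⟨y, t⟩ e
  simp only [psi, Prod.mk.injEq, Fin.mk.injEq, and_true] at e
  obtain ⟨e1, e2⟩ := e
  exact Prod.ext (h e1) (Fin.ext (by simp only at e2 ⊢; omega))

theorem psi_adj {M n L0 : ℕ} {p0 : Fin L0 → Fin M × Fin n} (h : Function.Injective p0)
    (ha : ∀ i j, (pathGraph M □ pathGraph n).Adj (p0 i) (p0 j) ↔ (pathGraph L0).Adj i j)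
    (z z' : Fin L0 × Fin (n - 2)) :
    (YY M n).Adj (psi p0 z) (psi p0 z') ↔ (pathGraph L0 □ pathGraph (n - 2)).Adj z z' := by
  rw [psi, psi, yadj, ha, h.eq_iff, boxProd_adj]
  simp only [pathGraph_adj, Fin.ext_iff]
  constructor
  · rintro (⟨h1, h2⟩ | ⟨h1, h2⟩)
    · exact Or.inl ⟨h1, by omega⟩
    · exact Or.inr ⟨by omega, h1⟩
  · rintro (⟨h1, h2⟩ | ⟨h1, h2⟩)
    · exact Or.inl ⟨h1, by omega⟩
    · exact Or.inr ⟨h2, by omega⟩

end UBase4Aux

open UBase4Aux in
theorem tUBase4 : UBase4 := by
  intro hC2 hT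
  refine ⟨1024, by norm_num, ?_⟩
  intro M n hM hn
  obtain ⟨L0, p0, W0, hL0, hsz0, hinj0, hadj0, hpW, hW1, hW0, hout0, hlead0, hfar0, hhigh0, hWhigh⟩ :=
    hC2 M n hM hn
  obtain ⟨L1, p1, hL1, hth, hlead1, hfar1⟩ := hT L0 (n - 2) (by omega) (by omega)
  -- small first coordinates
  have low : ∀ i : Fin L1, ((p1 i).1 : ℕ) < 4 → ((p1 i).1 : ℕ) = i ∧ ((p1 i).2 : ℕ) = 0 := by
    intro i hi
    have : (i : ℕ) ≤ 4 := by
      by_contra hc
      have := hfar1 i (by omega)
      omega
    exact hlead1 i this
  have hsize : 30 * 28 ≤ L0 * (n - 2) := Nat.mul_le_mul hL0 (by omega)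
  have hL1' : 30 ≤ L1 := by omega
  have h1M : 1 < M := by omega
  have h5n : 5 < n := by omega
  have h3n : 3 < n := by omega
  -- the extra point
  set c : ((Fin M × Fin n) × Fin n) × (Fin 0 → Fin n) :=
    ((((⟨1, h1M⟩ : Fin M), (⟨5, h5n⟩ : Fin n)), (⟨3, h3n⟩ : Fin n)), fun j => j.elim0) with hc
  set W' : Set (((Fin M × Fin n) × Fin n) × (Fin 0 → Fin n)) :=
    {y | y.1.1 ∈ W0 ∧ 2 ≤ (y.1.2 : ℕ)} with hW'
  set φ : Fin L1 → ((Fin M × Fin n) × Fin n) × (Fin 0 → Fin n) := fun j => psi p0 (p1 j) with hφ
  -- p0 1 = (1,5)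
  have h1L0 : 1 < L0 := by omega
  have hp01 : p0 ⟨1, h1L0⟩ = ((⟨1, h1M⟩ : Fin M), (⟨5, h5n⟩ : Fin n)) := by
    obtain ⟨h1, h2⟩ := hlead0 ⟨1, h1L0⟩ (by simp)
    exact Prod.ext (Fin.ext h1) (Fin.ext h2)
  have sub0 : ∀ g g' : Fin 0 → Fin n, g = g' := fun g g' => funext fun j => j.elim0
  -- membership of c in psi-image
  have hφc : ∀ i, φ i ≠ c := by
    intro i hi
    rw [hφ, hc] at hi
    simp only [psi, Prod.mk.injEq, and_true] at hi
    obtain ⟨hi1, hi2⟩ := hi
    rw [← hp01] at hi1
    have h3 := hinj0 hi1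
    have h4 := low i (by rw [h3]; norm_num)
    have h5 : ((p1 i).2 : ℕ) + 2 = 3 := congrArg Fin.val hi2
    omega
  have hadjφ : ∀ i j, (YY M n).Adj (φ i) (φ j) ↔ (pathGraph L1).Adj i j := by
    intro i j
    rw [hφ]
    simp only
    rw [psi_adj hinj0 hadj0]
    exact hth.adj i j
  -- neighbours of psi z in W'
  have hnbW : ∀ z : Fin L0 × Fin (n - 2), (YY M n).neighborSet (psi p0 z) ∩ W' =
      (fun w => ((w, (psi p0 z).1.2), (psi p0 z).2)) ''
        ((pathGraph M □ pathGraph n).neighborSet (p0 z.1) ∩ W0) := by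
    intro z
    ext y
    obtain ⟨⟨v, t⟩, g⟩ := y
    constructor
    · rintro ⟨hy, hyW⟩
      rw [mem_neighborSet, psi, yadj] at hy
      rcases hy with ⟨h1, h2⟩ | ⟨h1, h2⟩
      · exact ⟨v, ⟨h1, hyW.1⟩, Prod.ext (Prod.ext rfl h2) (sub0 _ _)⟩
      · exfalso
        apply hpW z.1
        rw [h1]
        exact hyW.1
    · rintro ⟨w, ⟨hw1, hw2⟩, he⟩
      simp only [Prod.mk.injEq] at he
      obtain ⟨⟨rfl, rfl⟩, rfl⟩ := he
      refine ⟨?_, hw2, ?_⟩
      · rw [mem_neighborSet, psi, yadj]
        exact Or.inl ⟨hw1, rfl⟩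
      · simp only [psi]
        omega
  have hinjW : ∀ z : Fin L0 × Fin (n - 2), Function.Injective
      (fun w : Fin M × Fin n => ((w, (psi p0 z).1.2), (psi p0 z).2)) := by
    intro z a b e
    exact (Prod.mk.inj (Prod.mk.inj e).1).1
  have hnbW_card : ∀ z : Fin L0 × Fin (n - 2), ((YY M n).neighborSet (psi p0 z) ∩ W').ncard =
      ((pathGraph M □ pathGraph n).neighborSet (p0 z.1) ∩ W0).ncard := by
    intro z
    rw [hnbW, Set.ncard_image_of_injective _ (hinjW z)]
  -- adjacency of psi z and c
  have hadjc : ∀ z : Fin L0 × Fin (n - 2), (YY M n).Adj (psi p0 z) c ↔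
      (((z.1 : ℕ) = 0 ∨ (z.1 : ℕ) = 2) ∧ (z.2 : ℕ) = 1) ∨
      ((z.1 : ℕ) = 1 ∧ ((z.2 : ℕ) = 0 ∨ (z.2 : ℕ) = 2)) := by
    intro z
    rw [psi, hc, yadj, ← hp01, hadj0, hinj0.eq_iff]
    simp only [pathGraph_adj, Fin.ext_iff]
    omega
  have hφhigh : ∀ i, 2 ≤ ((φ i).1.2 : ℕ) := by
    intro i
    simp only [hφ, psi]
    omega
  have hφlead : ∀ i : Fin L1, (i : ℕ) ≤ 4 → ((φ i).1.1.1 : ℕ) = i ∧ ((φ i).1.1.2 : ℕ) = 5 ∧
      ((φ i).1.2 : ℕ) = 2 := by
    intro i hi
    obtain ⟨h1, h2⟩ := hlead1 i hi
    obtain ⟨h3, h4⟩ := hlead0 (p1 i).1 (by omega)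
    refine ⟨?_, ?_, ?_⟩
    · simp only [hφ, psi]; omega
    · simp only [hφ, psi]; omega
    · simp only [hφ, psi]; omega
  have hφfar : ∀ i : Fin L1, 4 ≤ (i : ℕ) → 4 ≤ ((φ i).1.1.1 : ℕ) := by
    intro i hi
    have h1 := hfar1 i hi
    exact hfar0 _ h1
  refine ⟨L1, φ, W' ∪ {c}, hL1', ?_, ?_, ?_, ?_, ?_⟩
  · -- size
    obtain ⟨b, rfl⟩ : ∃ b, n = b + 2 := ⟨n - 2, by omega⟩
    simp only [Nat.add_sub_cancel] at hL1
    calc M * (b + 2) ^ (0 + 2) = (M * (b + 2)) * (b + 2) := by ring
      _ ≤ (32 * L0) * (b + 2) := Nat.mul_le_mul_right _ hsz0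
      _ ≤ (32 * L0) * (2 * b) := Nat.mul_le_mul_left _ (by omega)
      _ = 64 * (L0 * b) := by ring
      _ ≤ 64 * (16 * L1) := Nat.mul_le_mul_left _ hL1
      _ = 1024 * L1 := by ring
  · constructor
    · exact (psi_inj hinj0).comp hth.inj
    · exact hadjφ
    · rintro i (h | h)
      · exact hpW _ h.1
      · exact hφc i h
    · -- comp
      intro i hi
      by_cases hi1 : (i : ℕ) = 1
      · obtain ⟨h1, h2⟩ := hlead1 i (by omega)
        have : (YY M n).neighborSet (φ i) ∩ (W' ∪ {c}) = {c} := by
          rw [Set.inter_union_distrib_left]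
          have e1 : (YY M n).neighborSet (φ i) ∩ W' = ∅ := by
            rw [hφ]
            simp only
            rw [hnbW, hW0 (p1 i).1 (by omega), Set.image_empty]
          rw [e1, Set.empty_union]
          ext y
          simp only [Set.mem_inter_iff, Set.mem_singleton_iff, mem_neighborSet]
          constructor
          · exact fun h => h.2
          · rintro rfl
            refine ⟨(hadjc (p1 i)).2 (Or.inr ⟨by omega, Or.inl h2⟩), rfl⟩
        rw [this, Set.ncard_singleton]
      · have hx : 2 ≤ ((p1 i).1 : ℕ) := by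
          by_contra hcon
          have := (low i (by omega)).1
          omega
        have : (YY M n).neighborSet (φ i) ∩ (W' ∪ {c}) = (YY M n).neighborSet (φ i) ∩ W' := by
          rw [Set.inter_union_distrib_left]
          have e1 : (YY M n).neighborSet (φ i) ∩ {c} = ∅ := by
            ext y
            simp only [Set.mem_inter_iff, Set.mem_singleton_iff, mem_neighborSet,
              Set.mem_empty_iff_false, iff_false, not_and]
            rintro h rfl
            have h' := (hadjc (p1 i)).1 h
            have hlt : ((p1 i).1 : ℕ) < 4 := by omega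
            have := (low i hlt).2
            omega
          rw [e1, Set.union_empty]
        rw [this, hφ]
        simp only
        rw [hnbW_card]
        exact hW1 _ hx
    · -- out
      rintro ⟨⟨v, t⟩, g⟩ hy1 hy2
      have hfin : ∀ S : Set (((Fin M × Fin n) × Fin n) × (Fin 0 → Fin n)), S.Finite :=
        fun S => Set.toFinite S
      by_cases hvr : v ∈ Set.range p0
      · obtain ⟨x, rfl⟩ := hvr
        by_cases ht : 2 ≤ (t : ℕ)
        · -- main case
          have ht' : (t : ℕ) - 2 < n - 2 := by have := t.2; omega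
          have hyz : (((p0 x, t), g) : ((Fin M × Fin n) × Fin n) × (Fin 0 → Fin n)) =
              psi p0 (x, ⟨(t : ℕ) - 2, ht'⟩) := by
            refine Prod.ext (Prod.ext rfl (Fin.ext ?_)) (sub0 _ _)
            simp only [psi]
            omega
          set z : Fin L0 × Fin (n - 2) := (x, ⟨(t : ℕ) - 2, ht'⟩) with hz
          rw [hyz] at hy1 hy2 ⊢
          have hzr : z ∉ Set.range p1 := by
            rintro ⟨i, hi⟩
            exact hy1 ⟨i, by rw [hφ]; simp only; rw [hi]⟩
          have hA : (YY M n).neighborSet (psi p0 z) ∩ Set.range φ =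
              psi p0 '' ((pathGraph L0 □ pathGraph (n - 2)).neighborSet z ∩ Set.range p1) := by
            ext y
            constructor
            · rintro ⟨h1, i, rfl⟩
              refine ⟨p1 i, ⟨?_, i, rfl⟩, rfl⟩
              rw [mem_neighborSet]
              exact (psi_adj hinj0 hadj0 _ _).1 h1
            · rintro ⟨y', ⟨h1, i, rfl⟩, rfl⟩
              exact ⟨(psi_adj hinj0 hadj0 _ _).2 h1, i, rfl⟩
          have hA2 : ((YY M n).neighborSet (psi p0 z) ∩ Set.range φ).ncard ≤ 2 := by
            rw [hA, Set.ncard_image_of_injective _ (psi_inj hinj0)]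
            exact hth.out z hzr
          have hsplit : (YY M n).neighborSet (psi p0 z) ∩ (Set.range φ ∪ (W' ∪ {c})) =
              ((YY M n).neighborSet (psi p0 z) ∩ Set.range φ) ∪
              (((YY M n).neighborSet (psi p0 z) ∩ W') ∪
                ((YY M n).neighborSet (psi p0 z) ∩ {c})) := by
            rw [Set.inter_union_distrib_left, Set.inter_union_distrib_left]
          have hle : ((YY M n).neighborSet (psi p0 z) ∩ (Set.range φ ∪ (W' ∪ {c}))).ncard ≤
              ((YY M n).neighborSet (psi p0 z) ∩ Set.range φ).ncard +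
              (((YY M n).neighborSet (psi p0 z) ∩ W').ncard +
                ((YY M n).neighborSet (psi p0 z) ∩ {c}).ncard) := by
            rw [hsplit]
            exact (Set.ncard_union_le _ _).trans
              (Nat.add_le_add_left (Set.ncard_union_le _ _) _)
          have hCle : ((YY M n).neighborSet (psi p0 z) ∩ {c}).ncard ≤ 1 := by
            refine (Set.ncard_le_ncard Set.inter_subset_right (hfin _)).trans ?_
            rw [Set.ncard_singleton]
          rcases Nat.lt_or_ge (x : ℕ) 2 with hx | hx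
          · have hB : ((YY M n).neighborSet (psi p0 z) ∩ W').ncard = 0 := by
              rw [hnbW_card, hW0 _ (by show (x : ℕ) ≤ 1; omega), Set.ncard_empty]
            refine hle.trans ?_
            omega
          · have hB : ((YY M n).neighborSet (psi p0 z) ∩ W').ncard = 1 := by
              rw [hnbW_card]
              exact hW1 _ hx
            rcases Nat.eq_or_lt_of_le hx with hx2 | hx3
            · -- x = 2
              have hA1 : ((YY M n).neighborSet (psi p0 z) ∩ Set.range φ).ncard ≤ 1 := by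
                rw [hA, Set.ncard_image_of_injective _ (psi_inj hinj0)]
                rw [Set.ncard_le_one (Set.toFinite _)]
                rintro a ⟨ha1, i, rfl⟩ b ⟨hb1, j, rfl⟩
                rw [mem_neighborSet, boxProd_adj] at ha1 hb1
                simp only [pathGraph_adj, hz, Fin.ext_iff] at ha1 hb1
                have ha4 : ((p1 i).1 : ℕ) < 4 := by omega
                have hb4 : ((p1 j).1 : ℕ) < 4 := by omega
                have ha5 := low i ha4
                have hb5 := low j hb4
                -- z.2 ≠ 0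
                have hz0 : (t : ℕ) - 2 ≠ 0 := by
                  intro h0
                  apply hzr
                  have h2L1 : 2 < L1 := by omega
                  refine ⟨⟨2, h2L1⟩, ?_⟩
                  obtain ⟨g1, g2⟩ := hlead1 ⟨2, h2L1⟩ (by simp)
                  refine Prod.ext (Fin.ext ?_) (Fin.ext ?_)
                  · rw [g1, hz]
                    simp only
                    omega
                  · rw [g2, hz]
                    simp only
                    omega
                refine Prod.ext (Fin.ext ?_) (Fin.ext ?_) <;> omega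
              refine hle.trans ?_
              omega
            · have hC0 : ((YY M n).neighborSet (psi p0 z) ∩ {c}).ncard = 0 := by
                rw [Set.ncard_eq_zero (hfin _)]
                ext y
                simp only [Set.mem_inter_iff, Set.mem_singleton_iff, mem_neighborSet,
                  Set.mem_empty_iff_false, iff_false, not_and]
                rintro h rfl
                have h' := (hadjc z).1 h
                simp only [hz] at h'
                omega
              refine hle.trans ?_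
              omega
        · -- t < 2
          have hsub : (YY M n).neighborSet ((p0 x, t), g) ∩ (Set.range φ ∪ (W' ∪ {c})) ⊆
              {((p0 x, (⟨2, by omega⟩ : Fin n)), g)} := by
            rintro ⟨⟨v', t'⟩, g'⟩ ⟨h1, h2⟩
            have ht2 : 2 ≤ (t' : ℕ) := by
              rcases h2 with ⟨i, hi⟩ | h2 | h2
              · have := hφhigh i
                rw [hi] at this
                exact this
              · exact h2.2
              · rw [Set.mem_singleton_iff] at h2
                rw [hc] at h2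
                have := congrArg (fun y => (y.1.2 : ℕ)) h2
                simp only at this
                omega
            rw [mem_neighborSet, yadj] at h1
            rcases h1 with ⟨-, h1⟩ | ⟨h1, h3⟩
            · rw [h1] at ht
              omega
            · rw [Set.mem_singleton_iff]
              refine Prod.ext (Prod.ext h1.symm (Fin.ext ?_)) (sub0 _ _)
              simp only
              omega
          refine (Set.ncard_le_ncard hsub (hfin _)).trans ?_
          rw [Set.ncard_singleton]
          norm_num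
      · by_cases hvW : v ∈ W0
        · have ht : ¬ 2 ≤ (t : ℕ) := fun h => hy2 (Or.inl ⟨hvW, h⟩)
          have hsub : (YY M n).neighborSet ((v, t), g) ∩ (Set.range φ ∪ (W' ∪ {c})) ⊆
              {((v, (⟨2, by omega⟩ : Fin n)), g)} := by
            rintro ⟨⟨v', t'⟩, g'⟩ ⟨h1, h2⟩
            have ht2 : 2 ≤ (t' : ℕ) := by
              rcases h2 with ⟨i, hi⟩ | h2 | h2
              · have := hφhigh i
                rw [hi] at this
                exact this
              · exact h2.2
              · rw [Set.mem_singleton_iff] at h2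
                rw [hc] at h2
                have := congrArg (fun y => (y.1.2 : ℕ)) h2
                simp only at this
                omega
            rw [mem_neighborSet, yadj] at h1
            rcases h1 with ⟨-, h1⟩ | ⟨h1, h3⟩
            · rw [h1] at ht
              omega
            · rw [Set.mem_singleton_iff]
              refine Prod.ext (Prod.ext h1.symm (Fin.ext ?_)) (sub0 _ _)
              simp only
              omega
          refine (Set.ncard_le_ncard hsub (hfin _)).trans ?_
          rw [Set.ncard_singleton]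
          norm_num
        · have hsub : (YY M n).neighborSet ((v, t), g) ∩ (Set.range φ ∪ (W' ∪ {c})) ⊆
              (fun u => ((u, t), g)) ''
                ((pathGraph M □ pathGraph n).neighborSet v ∩ (Set.range p0 ∪ W0)) := by
            rintro ⟨⟨v', t'⟩, g'⟩ ⟨h1, h2⟩
            have hv' : v' ∈ Set.range p0 ∪ W0 := by
              rcases h2 with ⟨i, hi⟩ | h2 | h2
              · left
                rw [hφ] at hi
                have := congrArg (fun y => y.1.1) hi
                exact ⟨_, this⟩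
              · exact Or.inr h2.1
              · left
                rw [Set.mem_singleton_iff, hc] at h2
                have := congrArg (fun y => y.1.1) h2
                simp only at this
                exact ⟨_, hp01.trans this.symm⟩
            rw [mem_neighborSet, yadj] at h1
            rcases h1 with ⟨h3, h1⟩ | ⟨h1, h3⟩
            · exact ⟨v', ⟨h3, hv'⟩, Prod.ext (Prod.ext rfl h1) (sub0 _ _)⟩
            · rw [← h1] at hv'
              rcases hv' with h | h
              · exact absurd h hvr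
              · exact absurd h hvW
          refine (Set.ncard_le_ncard hsub (hfin _)).trans ?_
          refine (Set.ncard_image_le (Set.toFinite _)).trans ?_
          refine hout0 v hvr hvW
    · -- out1
      rintro ⟨⟨⟨a, k⟩, t⟩, g⟩ hy1 hy2 hlam hk
      have hfin : ∀ S : Set (((Fin M × Fin n) × Fin n) × (Fin 0 → Fin n)), S.Finite :=
        fun S => Set.toFinite S
      have ha1 : (a : ℕ) = 1 := by simpa using hlam
      simp only at hk
      -- description of the low part
      have hlow : ∀ z ∈ Set.range φ ∪ (W' ∪ {c}), (z.1.1.1 : ℕ) ≤ 2 →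
          ((z.1.1.2 : ℕ) = 5 ∧ (z.1.2 : ℕ) = 2) ∨ ((z.1.1.1 : ℕ) = 2 ∧ (z.1.1.2 : ℕ) = 4) ∨
          ((z.1.1.1 : ℕ) = 1 ∧ (z.1.1.2 : ℕ) = 5 ∧ (z.1.2 : ℕ) = 3) := by
        rintro z (⟨i, rfl⟩ | hz | hz) hz2
        · left
          have hi : (i : ℕ) ≤ 4 := by
            by_contra hcon
            have := hφfar i (by omega)
            omega
          exact ⟨(hφlead i hi).2.1, (hφlead i hi).2.2⟩
        · right; left
          obtain ⟨g1, g2, g3⟩ := hWhigh _ hz.1
          have : (z.1.1.1 : ℕ) = 2 := by omega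
          exact ⟨this, g3 this⟩
        · right; right
          rw [Set.mem_singleton_iff] at hz
          subst hz
          exact ⟨rfl, rfl, rfl⟩
      have hc1 : ¬ ((k : ℕ) = 5 ∧ (t : ℕ) = 3) := by
        rintro ⟨h1, h2⟩
        apply hy2
        right
        rw [Set.mem_singleton_iff, hc]
        exact Prod.ext (Prod.ext (Prod.ext (Fin.ext ha1) (Fin.ext h1)) (Fin.ext h2)) (sub0 _ _)
      have hsub : (YY M n).neighborSet (((a, k), t), g) ∩ (Set.range φ ∪ (W' ∪ {c})) ⊆
          {z | ((k : ℕ) ≠ 5 ∧ (((z.1.1.1 : ℕ) = 2 ∧ (z.1.1.2 : ℕ) = 4 ∧ z.1.2 = t) ∨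
              ((z.1.1.1 : ℕ) = 1 ∧ (z.1.1.2 : ℕ) = 5 ∧ z.1.2 = t))) ∨
            ((k : ℕ) = 5 ∧ (((z.1.1.1 : ℕ) = 1 ∧ (z.1.1.2 : ℕ) = 5 ∧ (z.1.2 : ℕ) = 2) ∨
              ((z.1.1.1 : ℕ) = 1 ∧ (z.1.1.2 : ℕ) = 5 ∧ (z.1.2 : ℕ) = 3)))} := by
        rintro ⟨⟨⟨a', k'⟩, t'⟩, g'⟩ ⟨h1, h2⟩
        rw [mem_neighborSet, yadj, boxProd_adj] at h1
        simp only [pathGraph_adj, Prod.mk.injEq, Fin.ext_iff] at h1
        have h3 := hlow _ h2 (by simp only; omega)
        simp only at h3
        simp only [Set.mem_ofPred_eq, Fin.ext_iff]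
        omega
      have hcard : ∀ (x1 x2 x3 y1 y2 y3 : ℕ),
          {z : ((Fin M × Fin n) × Fin n) × (Fin 0 → Fin n) |
            ((z.1.1.1 : ℕ) = x1 ∧ (z.1.1.2 : ℕ) = x2 ∧ (z.1.2 : ℕ) = x3) ∨
            ((z.1.1.1 : ℕ) = y1 ∧ (z.1.1.2 : ℕ) = y2 ∧ (z.1.2 : ℕ) = y3)}.ncard ≤ 2 := by
        intro x1 x2 x3 y1 y2 y3
        have hone : ∀ (x1 x2 x3 : ℕ), {z : ((Fin M × Fin n) × Fin n) × (Fin 0 → Fin n) |
            (z.1.1.1 : ℕ) = x1 ∧ (z.1.1.2 : ℕ) = x2 ∧ (z.1.2 : ℕ) = x3}.ncard ≤ 1 := by
          intro x1 x2 x3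
          rw [Set.ncard_le_one (hfin _)]
          rintro z ⟨h1, h2, h3⟩ z' ⟨h1', h2', h3'⟩
          exact Prod.ext (Prod.ext (Prod.ext (Fin.ext (h1.trans h1'.symm))
            (Fin.ext (h2.trans h2'.symm))) (Fin.ext (h3.trans h3'.symm))) (sub0 _ _)
        rw [Set.ofPred_or]
        refine (Set.ncard_union_le _ _).trans ?_
        have := hone x1 x2 x3
        have := hone y1 y2 y3
        omega
      rcases eq_or_ne (k : ℕ) 5 with hk5 | hk5
      · refine (Set.ncard_le_ncard ?_ (hfin _)).trans (hcard 1 5 2 1 5 3)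
        intro z hz
        rcases hsub hz with ⟨h, -⟩ | ⟨-, h⟩
        · exact absurd hk5 h
        · exact h
      · refine (Set.ncard_le_ncard ?_ (hfin _)).trans (hcard 2 4 t 1 5 t)
        intro z hz
        rcases hsub hz with ⟨-, h⟩ | ⟨h, -⟩
        · simp only [Fin.ext_iff] at h
          exact h
        · exact absurd h hk5
    · -- lead
      intro i hi
      obtain ⟨h1, h2, h3⟩ := hφlead i (by omega)
      refine ⟨?_, h2, h3⟩
      simpa using h1
    · -- far
      intro i hi
      simp only [Finset.univ_eq_empty, Finset.sum_empty, add_zero]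
      rcases Nat.eq_or_lt_of_le hi with h | h
      · have := (hφlead i (by omega)).1
        omega
      · have := hφfar i (by omega)
        omega
    · -- high
      intro i
      exact ⟨hhigh0 _, hφhigh i⟩
    · -- whigh
      rintro w (hw | hw)
      · obtain ⟨g1, g2, g3⟩ := hWhigh _ hw.1
        refine ⟨g1, hw.2, ?_⟩
        simp only [Finset.univ_eq_empty, Finset.sum_empty, add_zero]
        omega
      · rw [Set.mem_singleton_iff] at hw
        subst hw
        refine ⟨?_, ?_, ?_⟩ <;> simp [hc]
    · -- wlow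
      rintro w (hw | hw) hl
      · obtain ⟨g1, g2, g3⟩ := hWhigh _ hw.1
        simp only [Finset.univ_eq_empty, Finset.sum_empty, add_zero] at hl
        omega
      · rw [Set.mem_singleton_iff] at hw
        subst hw
        exact ⟨rfl, rfl⟩
  · intro i hi
    obtain ⟨h1, h2, h3⟩ := hφlead i hi
    exact ⟨h1, h2, h3, fun j => j.elim0⟩
  · exact hφfar
  · rintro w (hw | hw)
    · obtain ⟨g1, g2, g3⟩ := hWhigh _ hw.1
      exact ⟨by omega, fun h => by omega, g3⟩
    · rw [Set.mem_singleton_iff] at hw
      subst hw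
      refine ⟨le_refl _, fun _ => ⟨rfl, rfl⟩, fun h => ?_⟩
      simp [hc] at h

end Pool.Agent.H132R3.BP
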