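import Pool.Agent.H132R3.BP.Stmts4
import Pool.Agent.H132R3.BP.TThin2

set_option autoImplicit false

/-! # Task UComp2 of project H132-BP4: a snake with a companion set in a two-dimensional grid -/

namespace Pool.Agent.H132R3.BP

open SimpleGraph

namespace C2

open T2

/-- the companion set -/
def WW (a B x y : ℕ) : Prop :=
  (y = 4 ∧ 2 ≤ x ∧ x ≤ a - 2) ∨
  (5 ≤ y ∧ y - 5 ≤ 3 * ((B - 1) / 3) ∧
    (((y - 5) % 3 = 2 ∧ 4 ≤ x ∧ x ≤ a - 2 ∧
        ((((y - 5 + 2) / 3) % 2 = 1 ∧ x ≠ a - 2) ∨ (((y - 5 + 2) / 3) % 2 = 0 ∧ x ≠ 4))) ∨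
      ((y - 5) % 3 ≠ 2 ∧ y ≠ 5 ∧
        ((((y - 5 + 2) / 3) % 2 = 1 ∧ x = a - 1) ∨ (((y - 5 + 2) / 3) % 2 = 0 ∧ x = 3)))))

lemma notW {a B x t : ℕ} (ha : 30 ≤ a) (h : SS (a - 1) B x t) : ¬ WW a B x (t + 5) := by
  intro hW
  obtain ⟨h1, h2, h3⟩ := h
  unfold WW at hW
  rw [Nat.add_sub_cancel] at hW
  omega

/-- the lower end of the occupied interval of the row `y` -/
def lo (a y : ℕ) : ℕ :=
  if y = 4 then 2 else if y = 5 then 0 else if (y - 5) % 3 = 2 then 4 else
    if ((y - 5 + 2) / 3) % 2 = 1 then (if (y - 5) % 3 = 0 then 4 else a - 2) else 3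

/-- the upper end of the occupied interval of the row `y` -/
def hi (a y : ℕ) : ℕ :=
  if y = 4 then a - 2 else if y = 5 then a - 2 else if (y - 5) % 3 = 2 then a - 2 else
    if ((y - 5 + 2) / 3) % 2 = 1 then a - 1 else (if (y - 5) % 3 = 0 then a - 2 else 4)

/-- the occupied points -/
def QQ (a B x y : ℕ) : Prop := (5 ≤ y ∧ SS (a - 1) B x (y - 5)) ∨ WW a B x y

lemma QQ_lo {a B x y : ℕ} (ha : 30 ≤ a) (h : QQ a B x y) :
    lo a y ≤ x ∧ x ≤ hi a y ∧ 4 ≤ y ∧ y ≤ 5 + 3 * ((B - 1) / 3) := by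
  unfold QQ SS WW at h
  unfold lo hi
  split_ifs <;> omega

lemma QQ_of {a B x y : ℕ} (ha : 30 ≤ a) (h1 : lo a y ≤ x) (h2 : x ≤ hi a y) (h3 : 4 ≤ y)
    (h4 : y ≤ 5 + 3 * ((B - 1) / 3)) : QQ a B x y := by
  unfold lo at h1
  unfold hi at h2
  unfold QQ SS WW
  split_ifs at h1 h2 <;> omega

lemma outC {a B x y x' y' : ℕ} (ha : 30 ≤ a) (h : ¬ QQ a B x y) (h' : QQ a B x' y')
    (hn : Nb x y x' y') :
    (x' = (if x < lo a y then x + 1 else x - 1) ∧ y' = y) ∨ (x' = x ∧ y' = y - 1) ∨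
      (x' = x ∧ y' = y + 1) := by
  rcases hn with ⟨rfl, hx⟩ | ⟨rfl, hy⟩
  · left
    have h1 := QQ_lo ha h'
    refine ⟨?_, rfl⟩
    split_ifs with hlt
    · omega
    · by_contra hcon
      exact h (QQ_of (B := B) ha (by omega) (by omega) h1.2.2.1 h1.2.2.2)
  · right
    omega

/-- the turning column -/
def wx (a x t : ℕ) : ℕ :=
  if t % 3 = 0 then
    (if t ≠ 0 ∧ ((((t + 2) / 3) % 2 = 1 ∧ x = a - 2) ∨ (((t + 2) / 3) % 2 = 0 ∧ x = 4)) then
      (if ((t + 2) / 3) % 2 = 1 then a - 1 else 3) else x)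
  else if t % 3 = 1 then (if ((t + 2) / 3) % 2 = 1 then a - 1 else 3)
  else (if ((t + 2) / 3) % 2 = 1 then a - 3 else 5)

def wy (a x t : ℕ) : ℕ :=
  if t % 3 = 0 ∧ ¬ (t ≠ 0 ∧ ((((t + 2) / 3) % 2 = 1 ∧ x = a - 2) ∨
    (((t + 2) / 3) % 2 = 0 ∧ x = 4))) then t + 4 else t + 5

lemma w_mem {a B x t : ℕ} (ha : 30 ≤ a) (h : SS (a - 1) B x t) (h2 : t = 0 → 2 ≤ x) :
    WW a B (wx a x t) (wy a x t) ∧ Nb x (t + 5) (wx a x t) (wy a x t) ∧ wx a x t < a ∧
      wy a x t ≤ t + 5 := by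
  obtain ⟨h1, h3, h4⟩ := h
  rcases (show t % 3 = 0 ∨ t % 3 = 1 ∨ t % 3 = 2 by omega) with e | e | e
  · by_cases hc : t ≠ 0 ∧ ((((t + 2) / 3) % 2 = 1 ∧ x = a - 2) ∨ (((t + 2) / 3) % 2 = 0 ∧ x = 4))
    · have hx : wx a x t = if ((t + 2) / 3) % 2 = 1 then a - 1 else 3 := by
        unfold wx
        rw [if_pos e, if_pos hc]
      have hy : wy a x t = t + 5 := by
        unfold wy
        rw [if_neg (fun h => h.2 hc)]
      rw [hx, hy]
      unfold WW Nb
      rw [Nat.add_sub_cancel]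
      split_ifs <;> omega
    · have hx : wx a x t = x := by
        unfold wx
        rw [if_pos e, if_neg hc]
      have hy : wy a x t = t + 4 := by
        unfold wy
        rw [if_pos ⟨e, hc⟩]
      rw [hx, hy]
      unfold WW Nb
      rw [show t + 4 - 5 = t - 1 by omega]
      rcases Nat.eq_zero_or_pos t with ht | ht
      · omega
      · have e2 : t - 1 + 2 = t + 1 := by omega
        have e3 : (t + 1) / 3 = (t + 2) / 3 := by omega
        rw [e2, e3]
        omega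
  · have hx : wx a x t = if ((t + 2) / 3) % 2 = 1 then a - 1 else 3 := by
      unfold wx
      rw [if_neg (by omega), if_pos e]
    have hy : wy a x t = t + 5 := by
      unfold wy
      rw [if_neg (fun h => by omega)]
    rw [hx, hy]
    unfold WW Nb
    rw [Nat.add_sub_cancel]
    split_ifs <;> omega
  · have hx : wx a x t = if ((t + 2) / 3) % 2 = 1 then a - 3 else 5 := by
      unfold wx
      rw [if_neg (by omega), if_neg (by omega)]
    have hy : wy a x t = t + 5 := by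
      unfold wy
      rw [if_neg (fun h => by omega)]
    rw [hx, hy]
    unfold WW Nb
    rw [Nat.add_sub_cancel]
    split_ifs <;> omega

lemma w_uniq {a B x t x' y' : ℕ} (ha : 30 ≤ a) (h : SS (a - 1) B x t) (h2 : t = 0 → 2 ≤ x)
    (hW : WW a B x' y') (hn : Nb x (t + 5) x' y') : x' = wx a x t ∧ y' = wy a x t := by
  obtain ⟨h1, h3, h4⟩ := h
  unfold WW at hW
  unfold wx wy
  rcases hn with ⟨rfl, rfl | rfl⟩ | ⟨rfl, rfl | hy⟩
  · rw [Nat.add_sub_cancel] at hW
    split_ifs <;> omega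
  · rw [Nat.add_sub_cancel] at hW
    split_ifs <;> omega
  · have e : t + 5 + 1 - 5 = t + 1 := by omega
    rw [e] at hW
    split_ifs <;> omega
  · have e : y' - 5 = t - 1 := by omega
    rw [e] at hW
    split_ifs <;> omega

end C2

open T2 C2

theorem tUComp2 : UComp2 := by
  intro a b ha hb
  have haA : 20 ≤ a - 1 := by omega
  set B := b - 5 with hB
  have hS : ∀ i : Fin (len (a - 1) B), ∃ x y, SS (a - 1) B x y ∧ ix (a - 1) x y = i :=
    fun i => ix_surj haA i.2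
  choose X T hXT hI using hS
  have hXa : ∀ i, X i < a := fun i => by
    have := (hXT i).1
    omega
  have hTb : ∀ i, T i + 5 < b := fun i => by
    have := (hXT i).2.1
    omega
  have hadj : ∀ (u v : Fin a × Fin b), (pathGraph a □ pathGraph b).Adj u v ↔
      Nb u.1 u.2 v.1 v.2 := by
    intro u v
    rw [boxProd_adj, pathGraph_adj, pathGraph_adj]
    unfold Nb
    simp only [Fin.ext_iff]
    tauto
  -- the index `i ≤ 4`
  have hsmall : ∀ i : Fin (len (a - 1) B), (i : ℕ) ≤ 4 → X i = i ∧ T i = 0 := by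
    intro i hi
    have h0 : SS (a - 1) B i 0 := ⟨by omega, by omega, Or.inl rfl⟩
    exact ix_inj haA (hXT i) h0 (by rw [hI i]; simp [ix, gg])
  have hrow0 : ∀ i : Fin (len (a - 1) B), T i = 0 → X i = i := by
    intro i hi
    have h2 := hI i
    rw [hi] at h2
    simp [ix, gg] at h2
    exact h2
  set W : Set (Fin a × Fin b) := {w | WW a B w.1 w.2} with hW
  set p : Fin (len (a - 1) B) → Fin a × Fin b := fun i => (⟨X i, hXa i⟩, ⟨T i + 5, hTb i⟩) with hp
  refine ⟨len (a - 1) B, p, W, ?_, ?_, ?_, ?_, ?_, ?_, ?_, ?_, ?_, ?_, ?_, ?_⟩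
  · unfold len
    have h1 : 1 ≤ (B - 1) / 3 + 1 := by omega
    have h2 := Nat.mul_le_mul_right (a - 1 - 2) (show 2 ≤ (B - 1) / 3 + 1 by omega)
    omega
  · have h1 : b ≤ 5 * ((B - 1) / 3 + 1) := by omega
    have h2 : a ≤ 2 * (a - 1 - 2) := by omega
    have h3 := Nat.mul_le_mul h2 h1
    unfold len
    nlinarith
  · intro i j hij
    simp only [hp, Prod.mk.injEq, Fin.mk.injEq] at hij
    apply Fin.ext
    rw [← hI i, ← hI j, hij.1, show T i = T j by omega]
  · intro i j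
    rw [hadj, pathGraph_adj]
    simp only [hp]
    have hsh : Nb (X i) (T i + 5) (X j) (T j + 5) ↔ Nb (X i) (T i) (X j) (T j) := by
      unfold Nb
      omega
    rw [hsh]
    constructor
    · intro h
      have := nb_ix haA (hXT i) (hXT j) h
      rw [hI i, hI j] at this
      exact this
    · have key : ∀ i j : Fin (len (a - 1) B), (i : ℕ) + 1 = j → Nb (X i) (T i) (X j) (T j) := by
        intro i j hij
        obtain ⟨x', y', h1, h2, h3⟩ := next haA (hXT i) (by rw [hI i, hij]; exact j.2)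
        have h4 := ix_inj haA h1 (hXT j) (by rw [h2, hI i, hI j, hij])
        rw [← h4.1, ← h4.2]
        exact h3
      rintro (h | h)
      · exact key i j h
      · have := key j i h
        unfold Nb at this ⊢
        omega
  · intro i hi
    exact notW ha (hXT i) hi
  · intro i hi
    have h2 : T i = 0 → 2 ≤ X i := by
      intro h0
      rw [hrow0 i h0]
      exact hi
    obtain ⟨m1, m2, m3, m4⟩ := w_mem ha (hXT i) h2
    rw [Set.ncard_eq_one]
    refine ⟨(⟨wx a (X i) (T i), m3⟩, ⟨wy a (X i) (T i), lt_of_le_of_lt m4 (hTb i)⟩), ?_⟩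
    ext ⟨u, v⟩
    rw [Set.mem_inter_iff, mem_neighborSet, hadj, Set.mem_singleton_iff]
    constructor
    · rintro ⟨h1, h3⟩
      have h4 := w_uniq ha (hXT i) h2 h3 h1
      exact Prod.ext (Fin.ext h4.1) (Fin.ext h4.2)
    · intro h
      rw [Prod.mk.injEq] at h
      rw [h.1, h.2]
      exact ⟨m2, m1⟩
  · intro i hi
    obtain ⟨h1, h2⟩ := hsmall i (by omega)
    ext ⟨u, v⟩
    rw [Set.mem_inter_iff, mem_neighborSet, hadj]
    simp only [hp, hW, Set.mem_setOf_eq, Set.mem_empty_iff_false, iff_false, not_and]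
    intro h3 h4
    rw [h1, h2] at h3
    unfold Nb at h3
    unfold WW at h4
    omega
  · rintro ⟨x, y⟩ hy1 hy2
    have hQ : ∀ u : Fin a × Fin b, u ∈ Set.range p ∪ W ↔ QQ a B u.1 u.2 := by
      rintro ⟨u, v⟩
      unfold QQ
      rw [Set.mem_union]
      refine or_congr ?_ Iff.rfl
      constructor
      · rintro ⟨i, hi⟩
        simp only [hp, Prod.mk.injEq] at hi
        rw [← hi.1, ← hi.2]
        refine ⟨by simp, ?_⟩
        simpa using hXT i
      · rintro ⟨h5, hs⟩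
        refine ⟨⟨ix (a - 1) u (v - 5), ix_lt_len haA hs⟩, ?_⟩
        have h6 := ix_inj haA (hXT ⟨ix (a - 1) u (v - 5), ix_lt_len haA hs⟩) hs (hI _)
        simp only [hp, Prod.mk.injEq]
        refine ⟨Fin.ext h6.1, Fin.ext ?_⟩
        have h7 : T ⟨ix (a - 1) u (v - 5), ix_lt_len haA hs⟩ = (v : ℕ) - 5 := h6.2
        have h8 : 5 ≤ (v : ℕ) := h5
        show T ⟨ix (a - 1) u (v - 5), ix_lt_len haA hs⟩ + 5 = (v : ℕ)
        rw [h7]
        omega
    have hns : ¬ QQ a B x y := by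
      intro h
      rcases (hQ (x, y)).2 h with h | h
      · exact hy1 h
      · exact hy2 h
    set f : Fin a × Fin b → ℕ × ℕ := fun u => ((u.1 : ℕ), (u.2 : ℕ)) with hf
    have hfi : Function.Injective f := by
      rintro ⟨u1, u2⟩ ⟨v1, v2⟩ h
      simp only [hf, Prod.mk.injEq] at h
      exact Prod.ext (Fin.ext h.1) (Fin.ext h.2)
    rw [← Set.ncard_image_of_injective _ hfi]
    refine (Set.ncard_le_ncard (t := {((if (x : ℕ) < lo a y then (x : ℕ) + 1 else (x : ℕ) - 1),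
      (y : ℕ)), ((x : ℕ), (y : ℕ) - 1), ((x : ℕ), (y : ℕ) + 1)}) ?_ (Set.toFinite _)).trans ?_
    · rintro _ ⟨w, ⟨hw1, hw2⟩, rfl⟩
      rw [mem_neighborSet, hadj] at hw1
      rw [hQ] at hw2
      have h := outC ha hns hw2 hw1
      simp only [hf, Set.mem_insert_iff, Set.mem_singleton_iff, Prod.mk.injEq]
      exact h
    · refine (Set.ncard_insert_le _ _).trans ?_
      have := Set.ncard_insert_le ((x : ℕ), (y : ℕ) - 1) {((x : ℕ), (y : ℕ) + 1)}
      rw [Set.ncard_singleton] at this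
      omega
  · intro i hi
    obtain ⟨h1, h2⟩ := hsmall i hi
    simp only [hp]
    exact ⟨h1, by omega⟩
  · intro i hi
    show 4 ≤ X i
    by_contra hcon
    push Not at hcon
    have hT0 : T i = 0 := by
      obtain ⟨h2, h3, h4⟩ := hXT i
      omega
    have := hrow0 i hT0
    omega
  · intro i
    simp only [hp]
    omega
  · rintro ⟨u, v⟩ hw
    have hw' : WW a B u v := hw
    unfold WW at hw'
    simp only
    omega

end Pool.Agent.H132R3.BP
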