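import Pool.Agent.H132R3.BP.Stmts4

set_option autoImplicit false

namespace Pool.Agent.H132R3.BP

open SimpleGraph

theorem u3a_triple {α : Type} (S : Set α) (a b c : α) (h : ∀ u ∈ S, u = a ∨ u = b ∨ u = c) :
    S.ncard ≤ 3 := by
  have hsub : S ⊆ ({a, b, c} : Set α) := by
    intro u hu
    rcases h u hu with h | h | h
    · exact Or.inl h
    · exact Or.inr (Or.inl h)
    · exact Or.inr (Or.inr h)
  calc S.ncard ≤ ({a, b, c} : Set α).ncard := Set.ncard_le_ncard hsub (Set.toFinite _)
    _ ≤ ({b, c} : Set α).ncard + 1 := Set.ncard_insert_le a {b, c}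
    _ ≤ (({c} : Set α).ncard + 1) + 1 := by
      have := Set.ncard_insert_le b ({c} : Set α)
      omega
    _ = 3 := by rw [Set.ncard_singleton]

theorem u3a_range {V : Type} {n : ℕ} [Finite V] (S : Set (V × Fin n)) (T : Set V) (z : Fin n)
    (hT : T.ncard ≤ 3) (h : ∀ u ∈ S, u.1 ∈ T ∧ u.2 = z) : S.ncard ≤ 3 := by
  have hsub : S ⊆ (fun y => (y, z)) '' T := by
    rintro ⟨a, b⟩ hu
    obtain ⟨h1, h2⟩ := h _ hu
    exact ⟨a, h1, by simp only at h2; rw [h2]⟩
  calc S.ncard ≤ ((fun y => (y, z)) '' T).ncard := Set.ncard_le_ncard hsub (Set.toFinite _)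
    _ ≤ T.ncard := Set.ncard_image_le (Set.toFinite _)
    _ ≤ 3 := hT

theorem u3a_t2_low (L J i z : ℕ) (hi : 1 ≤ i) (hz : 1 ≤ z) (hz' : z ≤ 2) :
    t2 L J i z = big L J := by
  unfold t2
  rw [if_neg (by omega), if_neg (by omega), if_neg (by omega), if_neg (by omega),
    if_neg (by omega)]

theorem tUCount3a : UCount3a := by
  intro V _ Y n L J lam kap tht q φ Wc τ hS y z hl hy hyW
  have hstep := hS.graded.step
  by_cases hz : (z : ℕ) = 0
  · have h0 : τ (y, z) = 0 := hS.tau.zero y z (Or.inl hz)
    refine u3a_triple _ (y, z) (y, z) (y, z) fun u hu => ?_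
    have := hu.2
    simp only [Set.mem_setOf_eq] at this
    omega
  by_cases hk : kap y = 0
  · have h0 : τ (y, z) = 0 := hS.tau.zero y z (Or.inr (Or.inl hk))
    refine u3a_triple _ (y, z) (y, z) (y, z) fun u hu => ?_
    have := hu.2
    simp only [Set.mem_setOf_eq] at this
    omega
  by_cases ht : tht y = 0
  · have h0 : τ (y, z) = 0 := hS.tau.zero y z (Or.inr (Or.inr ht))
    refine u3a_triple _ (y, z) (y, z) (y, z) fun u hu => ?_
    have := hu.2
    simp only [Set.mem_setOf_eq] at this
    omega
  have hB : τ (y, z) = big L J := hS.tau.outer y z hz hk ht (by omega) hy hyW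
  -- description of the counted neighbours
  have key : ∀ u ∈ ((Y □ pathGraph n).neighborSet (y, z) ∩ {u | τ u + 2 ≤ τ (y, z)}),
      (u.1 = y ∧ (u.2 : ℕ) = 0 ∧ (z : ℕ) = 1) ∨
      (Y.Adj y u.1 ∧ u.2 = z ∧ ((u.1 ∈ Set.range φ ∪ Wc ∧ 3 ≤ (z : ℕ)) ∨ kap u.1 = 0 ∨
        tht u.1 = 0)) := by
    rintro ⟨y', z'⟩ ⟨hadj, hτ⟩
    simp only [Set.mem_setOf_eq] at hτ
    rw [hB] at hτ
    rw [mem_neighborSet, boxProd_adj] at hadj
    simp only at hadj
    rcases hadj with ⟨ha, hzz⟩ | ⟨ha, hyy⟩
    · subst hzz
      right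
      refine ⟨ha, rfl, ?_⟩
      by_cases hk' : kap y' = 0
      · exact Or.inr (Or.inl hk')
      by_cases ht' : tht y' = 0
      · exact Or.inr (Or.inr ht')
      left
      have hl' : lam y' ≠ 0 := by
        rcases hstep _ _ ha with h | h | h <;> omega
      by_cases hr : y' ∈ Set.range φ
      · refine ⟨Or.inl hr, ?_⟩
        obtain ⟨i, rfl⟩ := hr
        have hi : 1 ≤ (i : ℕ) := by
          by_contra hi
          have h3 := (hS.line.lead i (by omega)).1
          omega
        have hb := hS.tau.line i z hz hi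
        by_contra hz3
        rw [u3a_t2_low L J i z hi (by omega) (by omega)] at hb
        omega
      · by_cases hw : y' ∈ Wc
        · refine ⟨Or.inr hw, ?_⟩
          by_contra hz3
          have hb := hS.tau.wbig y' z hw (by omega) (by omega)
          omega
        · have hb := hS.tau.outer y' z hz hk' ht' hl' hr hw
          omega
    · subst hyy
      left
      refine ⟨rfl, ?_⟩
      rw [pathGraph_adj] at ha
      by_cases hz' : (z' : ℕ) = 0
      · refine ⟨hz', ?_⟩
        omega
      · exfalso
        have hb := hS.tau.outer y z' hz' hk ht (by omega) hy hyW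
        omega
  obtain ⟨d, hd1, -, -, hd4⟩ := hS.graded.kdown y (by omega)
  obtain ⟨e, he1, -, -, he4⟩ := hS.graded.tdown y (by omega)
  have hdown : ∀ y', Y.Adj y y' → kap y' = 0 → y' = d := by
    intro y' ha h0
    have h1 : kap y' + 1 = kap y := by
      rcases hstep _ _ ha with h | h | h <;> omega
    exact hS.graded.kdown_uniq y y' d ha hd1 h1 hd4
  have htdown : ∀ y', Y.Adj y y' → tht y' = 0 → y' = e := by
    intro y' ha h0
    have h1 : tht y' + 1 = tht y := by
      rcases hstep _ _ ha with h | h | h <;> omega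
    exact hS.graded.tdown_uniq y y' e ha he1 h1 he4
  by_cases hz3 : 3 ≤ (z : ℕ)
  · by_cases hk1 : kap y = 1
    · -- no neighbour in the line or in the companion set
      have hno : ∀ y', Y.Adj y y' → y' ∉ Set.range φ ∪ Wc := by
        rintro y' ha (⟨i, rfl⟩ | hw)
        · have h5 := (hS.line.high i).1
          rcases hstep _ _ ha with h | h | h <;> omega
        · have h5 := (hS.line.whigh y' hw).1
          rcases hstep _ _ ha with h | h | h <;> omega
      refine u3a_triple _ (d, z) (e, z) (e, z) fun u hu => ?_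
      obtain ⟨u1, u2⟩ := u
      rcases key _ hu with ⟨h1, h2, h3⟩ | ⟨h1, h2, h3⟩
      · omega
      · simp only at h1 h2 h3
        rcases h3 with h3 | h3 | h3
        · exact absurd h3.1 (hno _ h1)
        · left
          rw [hdown _ h1 h3, h2]
        · right; left
          rw [htdown _ h1 h3, h2]
    · have hkap : ∀ y', Y.Adj y y' → kap y' ≠ 0 := by
        intro y' ha h0
        rcases hstep _ _ ha with h | h | h <;> omega
      by_cases ht1 : tht y = 1
      · -- the line and the companion set are met in the neighbour above only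
        have hup : ∀ y', Y.Adj y y' → y' ∈ Set.range φ ∪ Wc → tht y' = tht y + 1 := by
          rintro y' ha (⟨i, rfl⟩ | hw)
          · have h5 := (hS.line.high i).2
            rcases hstep _ _ ha with h | h | h <;> omega
          · have h5 := (hS.line.whigh y' hw).2.1
            rcases hstep _ _ ha with h | h | h <;> omega
        by_cases hex : ∃ f, Y.Adj y f ∧ tht f = tht y + 1
        · obtain ⟨f, hf1, hf2⟩ := hex
          refine u3a_triple _ (e, z) (f, z) (f, z) fun u hu => ?_
          obtain ⟨u1, u2⟩ := u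
          rcases key _ hu with ⟨h1, h2, h3⟩ | ⟨h1, h2, h3⟩
          · omega
          · simp only at h1 h2 h3
            rcases h3 with h3 | h3 | h3
            · right; left
              rw [hS.graded.tup_uniq y u1 f h1 hf1 (hup _ h1 h3.1) hf2, h2]
            · exact absurd h3 (hkap _ h1)
            · left
              rw [htdown _ h1 h3, h2]
        · refine u3a_triple _ (e, z) (e, z) (e, z) fun u hu => ?_
          obtain ⟨u1, u2⟩ := u
          rcases key _ hu with ⟨h1, h2, h3⟩ | ⟨h1, h2, h3⟩
          · omega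
          · simp only at h1 h2 h3
            rcases h3 with h3 | h3 | h3
            · exact absurd ⟨u1, h1, hup _ h1 h3.1⟩ hex
            · exact absurd h3 (hkap _ h1)
            · left
              rw [htdown _ h1 h3, h2]
      · have htht : ∀ y', Y.Adj y y' → tht y' ≠ 0 := by
          intro y' ha h0
          rcases hstep _ _ ha with h | h | h <;> omega
        refine u3a_range _ _ z (hS.line.out y hy hyW) fun u hu => ?_
        obtain ⟨u1, u2⟩ := u
        rcases key _ hu with ⟨h1, h2, h3⟩ | ⟨h1, h2, h3⟩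
        · omega
        · simp only at h1 h2 h3
          rcases h3 with h3 | h3 | h3
          · exact ⟨⟨h1, h3.1⟩, h2⟩
          · exact absurd h3 (hkap _ h1)
          · exact absurd h3 (htht _ h1)
  · refine u3a_triple _ (y, ⟨0, by have := hS.hn; omega⟩) (d, z) (e, z) fun u hu => ?_
    obtain ⟨u1, u2⟩ := u
    rcases key _ hu with ⟨h1, h2, h3⟩ | ⟨h1, h2, h3⟩
    · left
      simp only at h1 h2
      rw [h1]
      congr 1
      exact Fin.ext h2
    · simp only at h1 h2 h3
      rcases h3 with h3 | h3 | h3
      · exact absurd h3.2 hz3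
      · right; left
        rw [hdown _ h1 h3, h2]
      · right; right
        rw [htdown _ h1 h3, h2]

end Pool.Agent.H132R3.BP
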