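import Pool.Agent.H132R3.BP.Stmts4

set_option autoImplicit false

namespace Pool.Agent.H132R3.BP

open SimpleGraph

theorem uc3c_pair {α : Type} (S : Set α) (a b : α) (h : ∀ u ∈ S, u = a ∨ u = b) :
    S.ncard ≤ 3 := by
  have hsub : S ⊆ ({a, b} : Set α) := by
    intro u hu
    rcases h u hu with h | h
    · exact Or.inl h
    · exact Or.inr h
  calc S.ncard ≤ ({a, b} : Set α).ncard := Set.ncard_le_ncard hsub (Set.toFinite _)
    _ ≤ ({b} : Set α).ncard + 1 := Set.ncard_insert_le a {b}
    _ ≤ 3 := by rw [Set.ncard_singleton]; omega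

theorem uc3c_t2 (L J i z : ℕ) (hi : 1 ≤ i) (hz : z = 1 ∨ z = 2) : t2 L J i z = big L J := by
  unfold t2
  rw [if_neg (by omega), if_neg (by omega), if_neg (by omega), if_neg (by omega),
    if_neg (by omega)]

theorem tUCount3c : UCount3c := by
  intro V _ Y n L J lam kap tht q φ Wc τ hS y z hy
  have hn := hS.hn
  have hstep := hS.graded.step
  obtain ⟨hw1, hw2, hw3⟩ := hS.line.whigh y hy
  by_cases hz : (z : ℕ) = 0 ∨ 3 ≤ (z : ℕ)
  · have h0 : τ (y, z) = 0 := by
      rcases hz with h | h
      · exact hS.tau.zero y z (Or.inl h)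
      · exact hS.tau.wzero y z hy h
    refine uc3c_pair _ (y, z) (y, z) fun u hu => ?_
    have := hu.2
    simp only [Set.mem_setOf_eq] at this
    omega
  push Not at hz
  obtain ⟨hz0, hz3⟩ := hz
  have hz12 : (z : ℕ) = 1 ∨ (z : ℕ) = 2 := by omega
  have hB : τ (y, z) = big L J := hS.tau.wbig y z hy (by omega) (by omega)
  let z' : Fin n := ⟨if (z : ℕ) = 1 then 0 else 3, by split_ifs <;> omega⟩
  refine uc3c_pair _ (y, z') (q 5 3, z) fun u hu => ?_
  obtain ⟨y1, z1⟩ := u
  obtain ⟨hadj, hτ⟩ := hu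
  simp only [Set.mem_setOf_eq] at hτ
  rw [hB] at hτ
  rw [mem_neighborSet, boxProd_adj] at hadj
  simp only at hadj
  rcases hadj with ⟨ha, hzz⟩ | ⟨ha, hyy⟩
  · subst hzz
    right
    by_cases hWc : y1 ∈ Wc
    · have := hS.tau.wbig y1 z hWc (by omega) (by omega)
      omega
    by_cases hr : y1 ∈ Set.range φ
    · exfalso
      obtain ⟨i, rfl⟩ := hr
      by_cases hi : 1 ≤ (i : ℕ)
      · have hb := hS.tau.line i z hz0 hi
        rw [uc3c_t2 L J i z hi hz12] at hb
        omega
      · obtain ⟨e1, e2, e3⟩ := hS.line.lead i (by omega)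
        have hi0 : (i : ℕ) = 0 := by omega
        rw [hi0] at e1
        rcases hstep _ _ ha with h | h | h
        · have hl1 : lam y = 1 := by omega
          have := hS.line.wlow y hy hl1
          omega
        · omega
        · omega
    have hk1 : kap y1 ≠ 0 := by
      rcases hstep _ _ ha with h | h | h <;> omega
    have ht1 : tht y1 ≠ 0 := by
      rcases hstep _ _ ha with h | h | h <;> omega
    by_cases hl1 : lam y1 = 0
    · have hly : lam y = 1 ∧ kap y = kap y1 ∧ tht y = tht y1 := by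
        rcases hstep _ _ ha with h | h | h
        · exact ⟨by omega, h.1, h.2.1⟩
        · omega
        · omega
      have hlow := hS.line.wlow y hy hly.1
      have hq := hS.graded.q_uniq y1 hl1
      rw [← hly.2.1, ← hly.2.2, hlow.1, hlow.2] at hq
      rw [hq]
    · have hb := hS.tau.outer y1 z hz0 hk1 ht1 hl1 hr hWc
      omega
  · subst hyy
    left
    rw [pathGraph_adj] at ha
    have hz1 : (z1 : ℕ) = (z' : ℕ) := by
      show (z1 : ℕ) = if (z : ℕ) = 1 then 0 else 3
      by_cases hz1b : 1 ≤ (z1 : ℕ) ∧ (z1 : ℕ) ≤ 2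
      · exfalso
        have := hS.tau.wbig y z1 hy hz1b.1 hz1b.2
        omega
      · split_ifs with h1
        · omega
        · omega
    rw [Fin.ext hz1]

end Pool.Agent.H132R3.BP
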