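import Pool.Agent.H132R3.BP.Stmts4

/-!
# GRADED4 task of project H132-BP4 (helper142)
-/

set_option autoImplicit false

namespace Pool.Agent.H132R3.BP

open SimpleGraph

theorem tUGraded4 : UGraded4 := by
  intro m M n hM hn
  -- the point with first coordinates `(0, k, t)`
  have hq : ∃ q : ℕ → ℕ → ((Fin M × Fin n) × Fin n) × (Fin m → Fin n), ∀ k t, k < n → t < n →
      ((q k t).1.1.1 : ℕ) = 0 ∧ ((q k t).1.1.2 : ℕ) = k ∧ ((q k t).1.2 : ℕ) = t ∧
        ∀ j, ((q k t).2 j : ℕ) = 0 := by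
    refine ⟨fun k t => (((⟨0, hM⟩, if h : k < n then ⟨k, h⟩ else ⟨0, hn⟩),
      if h : t < n then ⟨t, h⟩ else ⟨0, hn⟩), fun _ => ⟨0, hn⟩), ?_⟩
    intro k t hk ht
    refine ⟨rfl, ?_, ?_, fun _ => rfl⟩
    · simp [hk]
    · simp [ht]
  obtain ⟨q, hq⟩ := hq
  refine ⟨q, ?_⟩
  have hadj : ∀ y y' : ((Fin M × Fin n) × Fin n) × (Fin m → Fin n),
      (((pathGraph M □ pathGraph n) □ pathGraph n) □ Grid m n).Adj y y' ↔
        ((((y.1.1.1 : ℕ) + 1 = y'.1.1.1 ∨ (y'.1.1.1 : ℕ) + 1 = y.1.1.1) ∧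
            y.1.1.2 = y'.1.1.2 ∧ y.1.2 = y'.1.2 ∧ y.2 = y'.2) ∨
          (((y.1.1.2 : ℕ) + 1 = y'.1.1.2 ∨ (y'.1.1.2 : ℕ) + 1 = y.1.1.2) ∧
            y.1.1.1 = y'.1.1.1 ∧ y.1.2 = y'.1.2 ∧ y.2 = y'.2) ∨
          (((y.1.2 : ℕ) + 1 = y'.1.2 ∨ (y'.1.2 : ℕ) + 1 = y.1.2) ∧
            y.1.1.1 = y'.1.1.1 ∧ y.1.1.2 = y'.1.1.2 ∧ y.2 = y'.2) ∨
          ((Grid m n).Adj y.2 y'.2 ∧ y.1.1.1 = y'.1.1.1 ∧ y.1.1.2 = y'.1.1.2 ∧
            y.1.2 = y'.1.2)) := by
    intro y y'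
    rw [boxProd_adj, boxProd_adj, boxProd_adj, pathGraph_adj, pathGraph_adj, pathGraph_adj]
    have e1 : y.1.1 = y'.1.1 ↔ y.1.1.1 = y'.1.1.1 ∧ y.1.1.2 = y'.1.1.2 := Prod.ext_iff
    have e2 : y.1 = y'.1 ↔ y.1.1 = y'.1.1 ∧ y.1.2 = y'.1.2 := Prod.ext_iff
    rw [e2, e1]
    tauto
  have hgrid : ∀ w w' : Fin m → Fin n, (Grid m n).Adj w w' →
      (∑ j, (w j : ℕ)) + 1 = ∑ j, (w' j : ℕ) ∨ (∑ j, (w' j : ℕ)) + 1 = ∑ j, (w j : ℕ) := by
    intro w w' h
    obtain ⟨i, h, hj⟩ := h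
    have e1 : ∑ j, (w j : ℕ) = (w i : ℕ) + ∑ j ∈ Finset.univ.erase i, (w j : ℕ) :=
      (Finset.add_sum_erase _ _ (Finset.mem_univ i)).symm
    have e2 : ∑ j, (w' j : ℕ) = (w' i : ℕ) + ∑ j ∈ Finset.univ.erase i, (w' j : ℕ) :=
      (Finset.add_sum_erase _ _ (Finset.mem_univ i)).symm
    have e3 : ∑ j ∈ Finset.univ.erase i, (w j : ℕ) = ∑ j ∈ Finset.univ.erase i, (w' j : ℕ) := by
      apply Finset.sum_congr rfl
      intro j hj'
      rw [hj j (Finset.ne_of_mem_erase hj')]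
    rw [e1, e2, e3]
    omega
  have key : ∀ y z : ((Fin M × Fin n) × Fin n) × (Fin m → Fin n),
      (((pathGraph M □ pathGraph n) □ pathGraph n) □ Grid m n).Adj y z →
      ((z.1.1.2 : ℕ) ≠ y.1.1.2 → y.1.1.1 = z.1.1.1 ∧ y.1.2 = z.1.2 ∧ y.2 = z.2) ∧
      ((z.1.2 : ℕ) ≠ y.1.2 → y.1.1.1 = z.1.1.1 ∧ y.1.1.2 = z.1.1.2 ∧ y.2 = z.2) := by
    intro y z h
    rw [hadj] at h
    rcases h with ⟨h, h1, h2, h3⟩ | ⟨h, h1, h2, h3⟩ | ⟨h, h1, h2, h3⟩ | ⟨h, h1, h2, h3⟩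
    · exact ⟨fun hne => absurd (by rw [h1]) hne, fun hne => absurd (by rw [h2]) hne⟩
    · exact ⟨fun hne => ⟨h1, h2, h3⟩, fun hne => absurd (by rw [h2]) hne⟩
    · exact ⟨fun hne => absurd (by rw [h2]) hne, fun hne => ⟨h1, h2, h3⟩⟩
    · exact ⟨fun hne => absurd (by rw [h2]) hne, fun hne => absurd (by rw [h3]) hne⟩
  refine
    { kap_lt := fun y => y.1.1.2.isLt
      tht_lt := fun y => y.1.2.isLt
      step := ?_
      q_lam := ?_
      q_kap := fun k t hk ht => (hq k t hk ht).2.1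
      q_tht := fun k t hk ht => (hq k t hk ht).2.2.1
      q_uniq := ?_
      q_adjk := ?_
      q_adjt := ?_
      down := ?_
      kdown := ?_
      tdown := ?_
      kdown_uniq := ?_
      tdown_uniq := ?_
      tup_uniq := ?_ }
  · intro y y' h
    rw [hadj] at h
    try simp only
    rcases h with ⟨h, h1, h2, h3⟩ | ⟨h, h1, h2, h3⟩ | ⟨h, h1, h2, h3⟩ | ⟨h, h1, h2, h3⟩
    · left
      refine ⟨by rw [h1], by rw [h2], ?_⟩
      rw [h3]
      omega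
    · right; left
      exact ⟨by rw [h1, h3], by rw [h2], h⟩
    · right; right
      exact ⟨by rw [h1, h3], by rw [h2], h⟩
    · left
      refine ⟨by rw [h2], by rw [h3], ?_⟩
      have := hgrid _ _ h
      rw [h1]
      omega
  · intro k t hk ht
    obtain ⟨h1, h2, h3, h4⟩ := hq k t hk ht
    try simp only
    rw [h1]
    simp [h4]
  · intro y hy
    try simp only at hy ⊢
    obtain ⟨h1, h2, h3, h4⟩ := hq (y.1.1.2 : ℕ) (y.1.2 : ℕ) y.1.1.2.isLt y.1.2.isLt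
    have hy1 : (y.1.1.1 : ℕ) = 0 := by omega
    have hy2 : ∑ j, (y.2 j : ℕ) = 0 := by omega
    have hy3 : ∀ j, (y.2 j : ℕ) = 0 := by
      intro j
      have := Finset.sum_eq_zero_iff.1 hy2 j (Finset.mem_univ j)
      exact this
    refine Prod.ext (Prod.ext (Prod.ext (Fin.ext ?_) (Fin.ext ?_)) (Fin.ext ?_))
      (funext fun j => Fin.ext ?_)
    · rw [hy1, h1]
    · rw [h2]
    · rw [h3]
    · rw [hy3, h4]
  · intro k t hk ht
    obtain ⟨h1, h2, h3, h4⟩ := hq k t (by omega) ht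
    obtain ⟨h1', h2', h3', h4'⟩ := hq (k + 1) t hk ht
    rw [hadj]
    right; left
    refine ⟨Or.inl (by rw [h2, h2']), Fin.ext (by rw [h1, h1']), Fin.ext (by rw [h3, h3']), ?_⟩
    funext j
    exact Fin.ext (by rw [h4, h4'])
  · intro k t hk ht
    obtain ⟨h1, h2, h3, h4⟩ := hq k t hk (by omega)
    obtain ⟨h1', h2', h3', h4'⟩ := hq k (t + 1) hk ht
    rw [hadj]
    right; right; left
    refine ⟨Or.inl (by rw [h3, h3']), Fin.ext (by rw [h1, h1']), Fin.ext (by rw [h2, h2']), ?_⟩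
    funext j
    exact Fin.ext (by rw [h4, h4'])
  · intro y hy
    try simp only at hy ⊢
    by_cases hx : 0 < (y.1.1.1 : ℕ)
    · refine ⟨(((⟨(y.1.1.1 : ℕ) - 1, by omega⟩, y.1.1.2), y.1.2), y.2), ?_, rfl, rfl, ?_⟩
      · rw [hadj]
        left
        refine ⟨Or.inr ?_, rfl, rfl, rfl⟩
        simp only
        omega
      · simp only
        omega
    · have hs : 0 < ∑ j, (y.2 j : ℕ) := by omega
      obtain ⟨i, -, hi⟩ : ∃ i ∈ Finset.univ, 0 < (y.2 i : ℕ) := by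
        by_contra hcon
        push Not at hcon
        have : ∑ j, (y.2 j : ℕ) = 0 := Finset.sum_eq_zero fun j hj => Nat.le_zero.1 (hcon j hj)
        omega
      have hlt : (y.2 i : ℕ) - 1 < n := by
        have := (y.2 i).isLt
        omega
      have hA : (Grid m n).Adj y.2 (Function.update y.2 i ⟨(y.2 i : ℕ) - 1, hlt⟩) := by
        refine ⟨i, Or.inr ?_, ?_⟩
        · rw [Function.update_self]
          simp only
          omega
        · intro j hj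
          rw [Function.update_of_ne hj]
      have e1 : ∑ j, (y.2 j : ℕ) = (y.2 i : ℕ) + ∑ j ∈ Finset.univ.erase i, (y.2 j : ℕ) :=
        (Finset.add_sum_erase _ _ (Finset.mem_univ i)).symm
      have e2 : ∑ j, (Function.update y.2 i ⟨(y.2 i : ℕ) - 1, hlt⟩ j : ℕ) =
          (Function.update y.2 i ⟨(y.2 i : ℕ) - 1, hlt⟩ i : ℕ) +
            ∑ j ∈ Finset.univ.erase i, (Function.update y.2 i ⟨(y.2 i : ℕ) - 1, hlt⟩ j : ℕ) :=
        (Finset.add_sum_erase _ _ (Finset.mem_univ i)).symm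
      have e3 : ∑ j ∈ Finset.univ.erase i, (Function.update y.2 i ⟨(y.2 i : ℕ) - 1, hlt⟩ j : ℕ) =
          ∑ j ∈ Finset.univ.erase i, (y.2 j : ℕ) := by
        apply Finset.sum_congr rfl
        intro j hj'
        rw [Function.update_of_ne (Finset.ne_of_mem_erase hj')]
      rw [Function.update_self] at e2
      simp only at e2
      refine ⟨(y.1, Function.update y.2 i ⟨(y.2 i : ℕ) - 1, hlt⟩), ?_, rfl, rfl, ?_⟩
      · rw [hadj]
        right; right; right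
        exact ⟨hA, rfl, rfl, rfl⟩
      · simp only
        omega
  · intro y hy
    try simp only at hy ⊢
    have hlt : (y.1.1.2 : ℕ) - 1 < n := by
      have := y.1.1.2.isLt
      omega
    refine ⟨(((y.1.1.1, ⟨(y.1.1.2 : ℕ) - 1, hlt⟩), y.1.2), y.2), ?_, rfl, rfl, ?_⟩
    · rw [hadj]
      right; left
      refine ⟨Or.inr ?_, rfl, rfl, rfl⟩
      simp only
      omega
    · simp only
      omega
  · intro y hy
    try simp only at hy ⊢
    have hlt : (y.1.2 : ℕ) - 1 < n := by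
      have := y.1.2.isLt
      omega
    refine ⟨((y.1.1, ⟨(y.1.2 : ℕ) - 1, hlt⟩), y.2), ?_, rfl, rfl, ?_⟩
    · rw [hadj]
      right; right; left
      refine ⟨Or.inr ?_, rfl, rfl, rfl⟩
      simp only
      omega
    · simp only
      omega
  · intro y y' y'' h1 h2 k1 k2
    try simp only at k1 k2
    obtain ⟨a1, a2, a3⟩ := (key y y' h1).1 (by omega)
    obtain ⟨b1, b2, b3⟩ := (key y y'' h2).1 (by omega)
    refine Prod.ext (Prod.ext (Prod.ext ?_ (Fin.ext ?_)) ?_) ?_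
    · rw [← a1, b1]
    · omega
    · rw [← a2, b2]
    · rw [← a3, b3]
  · intro y y' y'' h1 h2 k1 k2
    try simp only at k1 k2
    obtain ⟨a1, a2, a3⟩ := (key y y' h1).2 (by omega)
    obtain ⟨b1, b2, b3⟩ := (key y y'' h2).2 (by omega)
    refine Prod.ext (Prod.ext (Prod.ext ?_ ?_) (Fin.ext ?_)) ?_
    · rw [← a1, b1]
    · rw [← a2, b2]
    · omega
    · rw [← a3, b3]
  · intro y y' y'' h1 h2 k1 k2
    try simp only at k1 k2
    obtain ⟨a1, a2, a3⟩ := (key y y' h1).2 (by omega)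
    obtain ⟨b1, b2, b3⟩ := (key y y'' h2).2 (by omega)
    refine Prod.ext (Prod.ext (Prod.ext ?_ ?_) (Fin.ext ?_)) ?_
    · rw [← a1, b1]
    · rw [← a2, b2]
    · omega
    · rw [← a3, b3]

end Pool.Agent.H132R3.BP
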