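import Pool.Agent.H132R3.BP.Stmts4

set_option autoImplicit false

namespace Pool.Agent.H132R3.BP

open SimpleGraph

theorem UPathC_four {α : Type*} {S : Set α} (hS : S.Finite) {a b c d : α} (ha : a ∈ S)
    (hb : b ∈ S) (hc : c ∈ S) (hd : d ∈ S) (hab : a ≠ b) (hac : a ≠ c) (hbc : b ≠ c)
    (had : a ≠ d) (hbd : b ≠ d) (hcd : c ≠ d) : 4 ≤ S.ncard := by
  have h : ({a, b, c, d} : Set α) ⊆ S := by
    rintro x (rfl | rfl | rfl | rfl) <;> assumption
  have h1 := Set.ncard_le_ncard h hS
  have e : ({a, b, c, d} : Set α).ncard = 4 := by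
    rw [Set.ncard_insert_of_notMem (by simp [hab, hac, had]),
      Set.ncard_insert_of_notMem (by simp [hbc, hbd]), Set.ncard_pair hcd]
  omega

theorem UPathC_z {L J i z : ℕ} (h1 : 1 ≤ t2 L J i z) (h2 : t2 L J i z < big L J) : 4 ≤ z := by
  by_contra hz
  have h3 : z = 0 ∨ z = 1 ∨ z = 2 ∨ z = 3 := by omega
  have key : t2 L J i z = 0 ∨ t2 L J i z = big L J := by
    unfold t2
    rcases h3 with rfl | rfl | rfl | rfl
    · left
      rw [if_pos rfl]
    · right
      rw [if_neg (by omega)]
      by_cases hi : i = 0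
      · rw [if_pos hi, if_pos (by omega)]
      · rw [if_neg hi, if_neg (by omega), if_neg (by omega), if_neg (by omega)]
    · rw [if_neg (by omega)]
      by_cases hi : i = 0
      · left
        rw [if_pos hi, if_neg (by omega)]
      · right
        rw [if_neg hi, if_neg (by omega), if_neg (by omega), if_neg (by omega)]
    · rw [if_neg (by omega)]
      by_cases hi : i = 0
      · left
        rw [if_pos hi, if_neg (by omega)]
      · rw [if_neg hi, if_neg (by omega)]
        by_cases h4 : i < 4
        · left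
          rw [if_pos ⟨h4, Or.inl rfl⟩]
        · rw [if_neg (fun h => h4 h.1)]
          by_cases h5 : 3 ≤ i ∧ i < L ∧ 3 ≤ 3 ∧ 3 ≤ 2 * J + 5
          · left
            rw [if_pos h5, if_neg (by omega), if_neg (by omega), if_neg (by omega)]
          · right
            rw [if_neg h5]
  rcases key with h | h <;> omega

theorem tUPathC : TArith2 → UPathC := by
  intro hA V _ Y n L J lam kap tht q φ Wc τ hS C hC h0
  have hJ := hS.hJ
  have hL := hS.hL
  have hJ1 := hS.hJ1
  have main : ∀ N : ℕ, ∀ (i : Fin L) (z : Fin n), 1 ≤ (i : ℕ) → t2 L J i z ≤ N →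
      t2 L J i z < big L J → (φ i, z) ∈ C := by
    intro N
    induction N with
    | zero =>
      intro i z hi hN _
      apply h0
      by_cases hz : (z : ℕ) = 0
      · exact hS.tau.zero _ _ (Or.inl hz)
      · rw [hS.tau.line i z hz hi]
        omega
    | succ N ih =>
      intro i z hi hN hbig
      by_cases hz : (z : ℕ) = 0
      · exact h0 _ (hS.tau.zero _ _ (Or.inl hz))
      by_cases ht : t2 L J i z = 0
      · apply h0
        rw [hS.tau.line i z hz hi, ht]
      obtain ⟨-, -, hcnt⟩ := hA L J i z hL hJ1 hi (by omega) hbig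
      have hcnt := hcnt (by omega)
      have hfin : ((Y □ pathGraph n).neighborSet (φ i, z) ∩ C).Finite := Set.toFinite _
      -- the four neighbours
      have P1 : t2 L J ((i : ℕ) - 1) z < t2 L J i z → ∃ j : Fin L, (j : ℕ) + 1 = i ∧
          (φ j, z) ∈ (Y □ pathGraph n).neighborSet (φ i, z) ∩ C := by
        intro h
        refine ⟨⟨(i : ℕ) - 1, by omega⟩, by simp only; omega, ?_, ?_⟩
        · rw [mem_neighborSet, boxProd_adj]
          left
          refine ⟨(hS.line.adj _ _).2 ?_, rfl⟩
          rw [pathGraph_adj]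
          simp only
          omega
        · by_cases hi1 : (i : ℕ) = 1
          · apply h0
            have hl := hS.line.lead ⟨(i : ℕ) - 1, by omega⟩ (by simp only; omega)
            have hlam : lam (φ ⟨(i : ℕ) - 1, by omega⟩) = 0 := by
              rw [hl.1]; simp only; omega
            have hkap := hl.2.1
            have htht := hl.2.2
            rw [hS.tau.bottom _ z hz (by rw [hkap]; norm_num) (by rw [htht]; norm_num) hlam, hkap]
            have h1 : t2 L J 0 z < big L J := by
              have : (i : ℕ) - 1 = 0 := by omega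
              rw [this] at h
              omega
            unfold t2 at h1
            rw [if_neg hz, if_pos rfl] at h1
            have h2 : ¬ ((z : ℕ) = 1 ∨ (z : ℕ) = 4) := by
              intro h3
              rw [if_pos h3] at h1
              omega
            rw [if_neg]
            rintro ⟨h3, -⟩
            unfold U0 at h3
            omega
          · refine ih ⟨(i : ℕ) - 1, by omega⟩ z (by simp only; omega) ?_ ?_
            · simp only; omega
            · simp only; omega
      have P2 : t2 L J ((i : ℕ) + 1) z < t2 L J i z → ∃ j : Fin L, (j : ℕ) = i + 1 ∧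
          (φ j, z) ∈ (Y □ pathGraph n).neighborSet (φ i, z) ∩ C := by
        clear P1
        intro h
        obtain ⟨h1, -, -⟩ := hA L J (i + 1) z hL hJ1 (by omega) (by omega) (by omega)
        refine ⟨⟨(i : ℕ) + 1, h1⟩, rfl, ?_, ?_⟩
        · rw [mem_neighborSet, boxProd_adj]
          left
          refine ⟨(hS.line.adj _ _).2 ?_, rfl⟩
          rw [pathGraph_adj]
          simp
        · refine ih ⟨(i : ℕ) + 1, h1⟩ z (by simp only; omega) ?_ ?_
          · simp only; omega
          · simp only; omega
      have P3 : t2 L J i ((z : ℕ) - 1) < t2 L J i z → ∃ w : Fin n, (w : ℕ) + 1 = z ∧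
          (φ i, w) ∈ (Y □ pathGraph n).neighborSet (φ i, z) ∩ C := by
        clear P1 P2
        intro h
        refine ⟨⟨(z : ℕ) - 1, by omega⟩, by simp only; omega, ?_, ?_⟩
        · rw [mem_neighborSet, boxProd_adj]
          right
          refine ⟨?_, rfl⟩
          rw [pathGraph_adj]
          simp only
          omega
        · refine ih i ⟨(z : ℕ) - 1, by omega⟩ hi ?_ ?_
          · simp only; omega
          · simp only; omega
      have P4 : t2 L J i ((z : ℕ) + 1) < t2 L J i z → ∃ w : Fin n, (w : ℕ) = z + 1 ∧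
          (φ i, w) ∈ (Y □ pathGraph n).neighborSet (φ i, z) ∩ C := by
        clear P1 P2 P3
        intro h
        obtain ⟨-, h1, -⟩ := hA L J i (z + 1) hL hJ1 hi (by omega) (by omega)
        refine ⟨⟨(z : ℕ) + 1, by omega⟩, rfl, ?_, ?_⟩
        · rw [mem_neighborSet, boxProd_adj]
          right
          refine ⟨?_, rfl⟩
          rw [pathGraph_adj]
          simp
        · refine ih i ⟨(z : ℕ) + 1, by omega⟩ hi ?_ ?_
          · simp only; omega
          · simp only; omega
      have hinj := hS.line.inj
      -- the companion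
      have hz4 : 4 ≤ (z : ℕ) := UPathC_z (Nat.one_le_iff_ne_zero.2 ht) hbig
      obtain ⟨w0, hw0⟩ : (Y.neighborSet (φ i) ∩ Wc).Nonempty := by
        rw [← Set.ncard_pos (Set.toFinite _), hS.line.comp i hi]
        norm_num
      have mw : (w0, z) ∈ (Y □ pathGraph n).neighborSet (φ i, z) ∩ C := by
        refine ⟨?_, h0 _ (hS.tau.wzero w0 z hw0.2 (by omega))⟩
        rw [mem_neighborSet, boxProd_adj]
        left
        exact ⟨hw0.1, rfl⟩
      have Dw : ∀ (j : Fin L) (w : Fin n), (φ j, w) ≠ (w0, z) := by
        intro j w h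
        have h1 := (Prod.mk.inj h).1
        exact hS.line.notMem j (h1 ▸ hw0.2)
      have ufour : ∀ {j1 j2 j3 : Fin L} {w1 w2 w3 : Fin n},
          (φ j1, w1) ∈ (Y □ pathGraph n).neighborSet (φ i, z) ∩ C →
          (φ j2, w2) ∈ (Y □ pathGraph n).neighborSet (φ i, z) ∩ C →
          (φ j3, w3) ∈ (Y □ pathGraph n).neighborSet (φ i, z) ∩ C →
          (φ j1, w1) ≠ (φ j2, w2) → (φ j1, w1) ≠ (φ j3, w3) → (φ j2, w2) ≠ (φ j3, w3) →
          4 ≤ ((Y □ pathGraph n).neighborSet (φ i, z) ∩ C).ncard :=
        fun h1 h2 h3 h12 h13 h23 => UPathC_four hfin h1 h2 h3 mw h12 h13 h23 (Dw _ _) (Dw _ _)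
          (Dw _ _)
      apply hC
      have D12 : ∀ j j' : Fin L, (j : ℕ) + 1 = i → (j' : ℕ) = i + 1 → (φ j, z) ≠ (φ j', z) := by
        intro j j' h1 h2 h
        have := hinj (Prod.mk.inj h).1
        rw [this] at h1
        omega
      have D3 : ∀ (j : Fin L) (w : Fin n), (w : ℕ) ≠ z → (φ j, z) ≠ (φ i, w) := by
        intro j w h1 h
        exact h1 (by rw [(Prod.mk.inj h).2])
      have D34 : ∀ w w' : Fin n, (w : ℕ) + 1 = z → (w' : ℕ) = z + 1 → (φ i, w) ≠ (φ i, w') := by
        intro w w' h1 h2 h
        have := (Prod.mk.inj h).2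
        rw [this] at h1
        omega
      by_cases q1 : t2 L J ((i : ℕ) - 1) z < t2 L J i z
      · obtain ⟨j1, e1, m1⟩ := P1 q1
        by_cases q2 : t2 L J ((i : ℕ) + 1) z < t2 L J i z
        · obtain ⟨j2, e2, m2⟩ := P2 q2
          by_cases q3 : t2 L J i ((z : ℕ) - 1) < t2 L J i z
          · obtain ⟨w3, e3, m3⟩ := P3 q3
            exact ufour m1 m2 m3 (D12 _ _ e1 e2) (D3 _ _ (by omega)) (D3 _ _ (by omega))
          · by_cases q4 : t2 L J i ((z : ℕ) + 1) < t2 L J i z
            · obtain ⟨w4, e4, m4⟩ := P4 q4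
              exact ufour m1 m2 m4 (D12 _ _ e1 e2) (D3 _ _ (by omega))
                (D3 _ _ (by omega))
            · rw [if_pos q1, if_pos q2, if_neg q3, if_neg q4] at hcnt
              omega
        · by_cases q3 : t2 L J i ((z : ℕ) - 1) < t2 L J i z
          · by_cases q4 : t2 L J i ((z : ℕ) + 1) < t2 L J i z
            · obtain ⟨w3, e3, m3⟩ := P3 q3
              obtain ⟨w4, e4, m4⟩ := P4 q4
              exact ufour m1 m3 m4 (D3 _ _ (by omega)) (D3 _ _ (by omega))
                (D34 _ _ e3 e4)
            · rw [if_pos q1, if_neg q2, if_pos q3, if_neg q4] at hcnt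
              omega
          · rw [if_pos q1, if_neg q2, if_neg q3] at hcnt
            split_ifs at hcnt <;> omega
      · by_cases q2 : t2 L J ((i : ℕ) + 1) z < t2 L J i z
        · by_cases q3 : t2 L J i ((z : ℕ) - 1) < t2 L J i z
          · by_cases q4 : t2 L J i ((z : ℕ) + 1) < t2 L J i z
            · obtain ⟨j2, e2, m2⟩ := P2 q2
              obtain ⟨w3, e3, m3⟩ := P3 q3
              obtain ⟨w4, e4, m4⟩ := P4 q4
              exact ufour m2 m3 m4 (D3 _ _ (by omega)) (D3 _ _ (by omega))
                (D34 _ _ e3 e4)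
            · rw [if_neg q1, if_pos q2, if_pos q3, if_neg q4] at hcnt
              omega
          · rw [if_neg q1, if_pos q2, if_neg q3] at hcnt
            split_ifs at hcnt <;> omega
        · rw [if_neg q1, if_neg q2] at hcnt
          split_ifs at hcnt <;> omega
  intro i z hi h
  exact main _ i z hi le_rfl h

end Pool.Agent.H132R3.BP
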