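import Pool.Agent.H132R3.BP.Stmts2

/-! Task W1 of project H132-BP2: the two neighbours on the snake. -/

set_option autoImplicit false

namespace Pool.Agent.H132R3.BP

namespace W1aux

lemma aa_succ (k : ℕ) : aa (k + 1) = aa k + 6 * k + 2 := by
  rcases k with _ | j
  · rfl
  · unfold aa
    have h1 : 3 * (j + 1 + 1) - 1 = 3 * j + 5 := by omega
    have h2 : 3 * (j + 1) - 1 = 3 * j + 2 := by omega
    rw [h1, h2]; ring

lemma aa_ge (k : ℕ) (hk : 1 ≤ k) : 3 * k ≤ aa k := by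
  obtain ⟨j, rfl⟩ : ∃ j, k = j + 1 := ⟨k - 1, by omega⟩
  unfold aa
  have h2 : 3 * (j + 1) - 1 = 3 * j + 2 := by omega
  rw [h2]; nlinarith

lemma aa_zero : aa 0 = 1 := rfl

lemma low_e {k x y : ℕ} (hk : k % 2 = 0) (h : x + y = 3 * k + 1 ∨ x + y = 3 * k + 2)
    (hne : ¬ (1 ≤ k ∧ ((x = 1 ∧ 3 * k ≤ y) ∨ (x = 2 ∧ y = 3 * k)))) :
    lowIx x y = aa k + x - y := by
  unfold lowIx
  have h1 : (x + y - 1) / 3 = k := by omega
  rw [if_neg (by omega), h1, if_neg (by omega), if_pos hk]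

lemma low_o {k x y : ℕ} (hk : k % 2 = 1) (h : x + y = 3 * k + 1 ∨ x + y = 3 * k + 2)
    (hne : ¬ (1 ≤ k ∧ ((y = 1 ∧ 3 * k ≤ x) ∨ (y = 2 ∧ x = 3 * k)))) :
    lowIx x y = aa k + y - x := by
  unfold lowIx
  have h1 : (x + y - 1) / 3 = k := by omega
  rw [if_neg (by omega), h1, if_neg (by omega), if_neg (by omega)]

lemma low_ce {k x y : ℕ} (hk : k % 2 = 0) (hx : x = 3 * k + 2) (hy : y = 1) :
    lowIx x y = aa k + 3 * k + 1 := by
  unfold lowIx
  have h1 : (x + y) / 3 - 1 = k := by omega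
  rw [if_pos (by omega), h1, if_pos (by omega)]

lemma low_co {k x y : ℕ} (hk : k % 2 = 1) (hx : x = 1) (hy : y = 3 * k + 2) :
    lowIx x y = aa k + 3 * k + 1 := by
  unfold lowIx
  have h1 : (x + y) / 3 - 1 = k := by omega
  rw [if_pos (by omega), h1, if_pos (by omega)]

lemma cases_low {x y : ℕ} (hx : 1 ≤ x) (hy : 1 ≤ y) (h : lowIx x y ≠ 0) : ∃ k : ℕ,
    (k % 2 = 0 ∧ (x + y = 3 * k + 1 ∨ x + y = 3 * k + 2) ∧
      ¬ (1 ≤ k ∧ ((x = 1 ∧ 3 * k ≤ y) ∨ (x = 2 ∧ y = 3 * k)))) ∨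
    (k % 2 = 1 ∧ (x + y = 3 * k + 1 ∨ x + y = 3 * k + 2) ∧
      ¬ (1 ≤ k ∧ ((y = 1 ∧ 3 * k ≤ x) ∨ (y = 2 ∧ x = 3 * k)))) ∨
    (k % 2 = 0 ∧ x = 3 * k + 2 ∧ y = 1) ∨ (k % 2 = 1 ∧ x = 1 ∧ y = 3 * k + 2) := by
  by_cases h3 : (x + y) % 3 = 0
  · obtain ⟨k, hk⟩ : ∃ k, k = (x + y) / 3 - 1 := ⟨_, rfl⟩
    have hs : x + y = 3 * k + 3 := by omega
    unfold lowIx at h
    rw [if_pos h3, ← hk] at h
    refine ⟨k, ?_⟩
    by_cases h4 : (k % 2 = 0 ∧ y = 1) ∨ (k % 2 = 1 ∧ x = 1)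
    · rcases h4 with ⟨h5, h6⟩ | ⟨h5, h6⟩
      · exact Or.inr (Or.inr (Or.inl ⟨h5, by omega, h6⟩))
      · exact Or.inr (Or.inr (Or.inr ⟨h5, h6, by omega⟩))
    · rw [if_neg h4] at h; exact absurd rfl h
  · obtain ⟨k, hk⟩ : ∃ k, k = (x + y - 1) / 3 := ⟨_, rfl⟩
    have hs : x + y = 3 * k + 1 ∨ x + y = 3 * k + 2 := by omega
    unfold lowIx at h
    rw [if_neg h3, ← hk] at h
    refine ⟨k, ?_⟩
    by_cases h4 : 1 ≤ k ∧
      ((k % 2 = 1 ∧ ((y = 1 ∧ 3 * k ≤ x) ∨ (y = 2 ∧ x = 3 * k))) ∨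
      (k % 2 = 0 ∧ ((x = 1 ∧ 3 * k ≤ y) ∨ (x = 2 ∧ y = 3 * k))))
    · rw [if_pos h4] at h; exact absurd rfl h
    · rcases Nat.mod_two_eq_zero_or_one k with h5 | h5
      · exact Or.inl ⟨h5, hs, fun h6 => h4 ⟨h6.1, Or.inr ⟨h5, h6.2⟩⟩⟩
      · exact Or.inr (Or.inl ⟨h5, hs, fun h6 => h4 ⟨h6.1, Or.inl ⟨h5, h6.2⟩⟩⟩)

/-- the two neighbours on the snake -/
def Two (x y : ℕ) : Prop :=
    (x = 1 ∧ y = 1 ∧ lowIx x y = 1 ∧ lowIx (x + 1) y = 2) ∨
    (2 ≤ lowIx x y ∧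
    ((lowIx (x + 1) y = lowIx x y + 1 ∧ lowIx x (y + 1) = lowIx x y - 1) ∨
     (lowIx (x + 1) y = lowIx x y + 1 ∧ 2 ≤ x ∧ lowIx (x - 1) y = lowIx x y - 1) ∨
     (2 ≤ x ∧ lowIx (x - 1) y = lowIx x y - 1 ∧ 2 ≤ y ∧ lowIx x (y - 1) = lowIx x y + 1) ∨
     (2 ≤ x ∧ lowIx (x - 1) y = lowIx x y - 1 ∧ lowIx x (y + 1) = lowIx x y + 1) ∨
     (lowIx x (y + 1) = lowIx x y + 1 ∧ lowIx (x + 1) y = lowIx x y - 1) ∨
     (lowIx x (y + 1) = lowIx x y + 1 ∧ 2 ≤ y ∧ lowIx x (y - 1) = lowIx x y - 1) ∨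
     (2 ≤ y ∧ lowIx x (y - 1) = lowIx x y - 1 ∧ 2 ≤ x ∧ lowIx (x - 1) y = lowIx x y + 1) ∨
     (2 ≤ y ∧ lowIx x (y - 1) = lowIx x y - 1 ∧ lowIx (x + 1) y = lowIx x y + 1)))

lemma nb1 {j x y : ℕ} (hy : 1 ≤ y) (hk : (j + 1) % 2 = 0) (h1 : x + y = 3 * (j + 1) + 1)
    (hx3 : 2 ≤ x) : Two x y := by
  have hv : lowIx x y = aa (j + 1) + x - y := low_e hk (by omega) (by omega)
  have hge := aa_ge (j + 1) (by omega)
  have hs := aa_succ j
  have hE : lowIx (x + 1) y = aa (j + 1) + (x + 1) - y := low_e hk (by omega) (by omega)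
  by_cases hx3 : 3 ≤ x
  · have hN : lowIx x (y + 1) = aa (j + 1) + x - (y + 1) := low_e hk (by omega) (by omega)
    refine Or.inr ⟨?_, Or.inl ⟨?_, ?_⟩⟩
    · omega
    · omega
    · omega
  · have hW : lowIx (x - 1) y = aa j + 3 * j + 1 := low_co (by omega) (by omega) (by omega)
    refine Or.inr ⟨?_, Or.inr (Or.inl ⟨?_, ?_, ?_⟩)⟩
    · omega
    · omega
    · omega
    · omega

lemma nb2 {j x y : ℕ} (hy : 1 ≤ y) (hk : (j + 1) % 2 = 0) (h1 : x + y = 3 * (j + 1) + 2)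
    (hx3 : 3 ≤ x) : Two x y := by
  have hv : lowIx x y = aa (j + 1) + x - y := low_e hk (by omega) (by omega)
  have hge := aa_ge (j + 1) (by omega)
  have hW : lowIx (x - 1) y = aa (j + 1) + (x - 1) - y := low_e hk (by omega) (by omega)
  by_cases hy2 : 2 ≤ y
  · have hS : lowIx x (y - 1) = aa (j + 1) + x - (y - 1) := low_e hk (by omega) (by omega)
    refine Or.inr ⟨?_, Or.inr (Or.inr (Or.inl ⟨?_, ?_, ?_, ?_⟩))⟩
    · omega
    · omega
    · omega
    · omega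
    · omega
  · have hE : lowIx (x + 1) y = aa (j + 1) + 3 * (j + 1) + 1 := low_ce hk (by omega) (by omega)
    refine Or.inr ⟨?_, Or.inr (Or.inl ⟨?_, ?_, ?_⟩)⟩
    · omega
    · omega
    · omega
    · omega

lemma nb3 {j x y : ℕ} (hx : 1 ≤ x) (hk : (j + 1) % 2 = 1) (h1 : x + y = 3 * (j + 1) + 1)
    (hy3 : 2 ≤ y) : Two x y := by
  have hv : lowIx x y = aa (j + 1) + y - x := low_o hk (by omega) (by omega)
  have hge := aa_ge (j + 1) (by omega)
  have hs := aa_succ j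
  have hN : lowIx x (y + 1) = aa (j + 1) + (y + 1) - x := low_o hk (by omega) (by omega)
  by_cases hy3 : 3 ≤ y
  · have hE : lowIx (x + 1) y = aa (j + 1) + y - (x + 1) := low_o hk (by omega) (by omega)
    refine Or.inr ⟨?_, Or.inr (Or.inr (Or.inr (Or.inr (Or.inl ⟨?_, ?_⟩))))⟩
    · omega
    · omega
    · omega
  · have hS : lowIx x (y - 1) = aa j + 3 * j + 1 := low_ce (by omega) (by omega) (by omega)
    refine Or.inr ⟨?_, Or.inr (Or.inr (Or.inr (Or.inr (Or.inr (Or.inl ⟨?_, ?_, ?_⟩)))))⟩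
    · omega
    · omega
    · omega
    · omega

lemma nb4 {j x y : ℕ} (hx : 1 ≤ x) (hk : (j + 1) % 2 = 1) (h1 : x + y = 3 * (j + 1) + 2)
    (hy3 : 3 ≤ y) : Two x y := by
  have hv : lowIx x y = aa (j + 1) + y - x := low_o hk (by omega) (by omega)
  have hge := aa_ge (j + 1) (by omega)
  have hS : lowIx x (y - 1) = aa (j + 1) + (y - 1) - x := low_o hk (by omega) (by omega)
  by_cases hx2 : 2 ≤ x
  · have hW : lowIx (x - 1) y = aa (j + 1) + y - (x - 1) := low_o hk (by omega) (by omega)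
    refine Or.inr ⟨?_, Or.inr (Or.inr (Or.inr (Or.inr (Or.inr (Or.inr (Or.inl
      ⟨?_, ?_, ?_, ?_⟩))))))⟩
    · omega
    · omega
    · omega
    · omega
    · omega
  · have hN : lowIx x (y + 1) = aa (j + 1) + 3 * (j + 1) + 1 := low_co hk (by omega) (by omega)
    refine Or.inr ⟨?_, Or.inr (Or.inr (Or.inr (Or.inr (Or.inr (Or.inl ⟨?_, ?_, ?_⟩)))))⟩
    · omega
    · omega
    · omega
    · omega

lemma nb5 {k x y : ℕ} (hk : k % 2 = 0) (h1 : x = 3 * k + 2) (h2 : y = 1) : Two x y := by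
  have hv := low_ce hk h1 h2
  have hs := aa_succ k
  have hN : lowIx x (y + 1) = aa (k + 1) + (y + 1) - x := low_o (by omega) (by omega) (by omega)
  have hW : lowIx (x - 1) y = aa k + (x - 1) - y := low_e hk (by omega) (by omega)
  have hp : 1 ≤ aa k := by unfold aa; omega
  refine Or.inr ⟨?_, Or.inr (Or.inr (Or.inr (Or.inl ⟨?_, ?_, ?_⟩)))⟩
  · omega
  · omega
  · omega
  · omega

lemma nb6 {k x y : ℕ} (hk : k % 2 = 1) (h1 : x = 1) (h2 : y = 3 * k + 2) : Two x y := by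
  have hv := low_co hk h1 h2
  have hs := aa_succ k
  have hge := aa_ge k (by omega)
  have hE : lowIx (x + 1) y = aa (k + 1) + (x + 1) - y := low_e (by omega) (by omega) (by omega)
  have hS : lowIx x (y - 1) = aa k + (y - 1) - x := low_o hk (by omega) (by omega)
  refine Or.inr ⟨?_, Or.inr (Or.inr (Or.inr (Or.inr (Or.inr (Or.inr (Or.inr
    ⟨?_, ?_, ?_⟩))))))⟩
  · omega
  · omega
  · omega
  · omega

lemma nbrs {x y : ℕ} (hx : 1 ≤ x) (hy : 1 ≤ y) (h : lowIx x y ≠ 0) : Two x y := by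
  obtain ⟨k, hk⟩ := cases_low hx hy h
  rcases hk with ⟨hk, h1, h2⟩ | ⟨hk, h1, h2⟩ | ⟨hk, h1, h2⟩ | ⟨hk, h1, h2⟩
  · by_cases hk0 : k = 0
    · subst hk0
      have hx1 : x = 1 := by omega
      have hy1 : y = 1 := by omega
      subst hx1; subst hy1
      exact Or.inl ⟨rfl, rfl, rfl, rfl⟩
    · obtain ⟨j, rfl⟩ : ∃ j, k = j + 1 := ⟨k - 1, by omega⟩
      rcases h1 with h1 | h1
      · exact nb1 hy hk h1 (by omega)
      · exact nb2 hy hk h1 (by omega)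
  · obtain ⟨j, rfl⟩ : ∃ j, k = j + 1 := ⟨k - 1, by omega⟩
    rcases h1 with h1 | h1
    · exact nb3 hx hk h1 (by omega)
    · exact nb4 hx hk h1 (by omega)
  · exact nb5 hk h1 h2
  · exact nb6 hk h1 h2

/-- the value on the diagonal -/
lemma diag {m x y : ℕ} (hx : 1 ≤ x) (hy : 1 ≤ y) (h : lowIx x y ≠ 0) (hs : x + y = 3 * m)
    (hm : 3 ≤ m) : 6 * m * m + 6 - 8 * m = 2 * lowIx x y ∧
      ((x = 3 * m - 1 ∧ y = 1) ∨ (x = 1 ∧ y = 3 * m - 1)) := by
  obtain ⟨k, hk⟩ := cases_low hx hy h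
  have key : ∀ k, 3 * k + 3 = 3 * m → 6 * m * m + 6 - 8 * m = 2 * (aa k + 3 * k + 1) := by
    intro k hk
    obtain rfl : m = k + 1 := by omega
    obtain ⟨j, rfl⟩ : ∃ j, k = j + 2 := ⟨k - 2, by omega⟩
    unfold aa
    have h1 : 3 * (j + 2) - 1 = 3 * j + 5 := by omega
    rw [h1]
    have h2 : 6 * (j + 2 + 1) * (j + 2 + 1) + 6 =
        2 * ((j + 2) * (3 * j + 5) + 1 + 3 * (j + 2) + 1) + 8 * (j + 2 + 1) := by ring
    omega
  rcases hk with ⟨hk, h1, h2⟩ | ⟨hk, h1, h2⟩ | ⟨hk, h1, h2⟩ | ⟨hk, h1, h2⟩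
  · omega
  · omega
  · rw [low_ce hk h1 h2]
    exact ⟨key k (by omega), Or.inl ⟨by omega, h2⟩⟩
  · rw [low_co hk h1 h2]
    exact ⟨key k (by omega), Or.inr ⟨h1, by omega⟩⟩

lemma t3_low {m x y : ℕ} (hx : 1 ≤ x) (hy : 1 ≤ y) (hs : x + y ≤ 3 * m) (h : lowIx x y ≠ 0) :
    t3 m x y = 6 * m * m + 6 - 8 * m - lowIx x y := by
  unfold t3
  rw [if_neg (by omega), if_pos hs, if_neg h]

lemma t3_up {m X Y : ℕ} (hm : 3 ≤ m) (hx : 1 ≤ X) (hy : 1 ≤ Y) (hs : X + Y ≤ 3 * m)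
    (h : lowIx X Y ≠ 0) : t3 m (3 * m - Y) (3 * m - X) = lowIx X Y := by
  by_cases h0 : X + Y = 3 * m
  · have h1 : 3 * m - Y = X := by omega
    have h2 : 3 * m - X = Y := by omega
    rw [h1, h2, t3_low hx hy hs h]
    have := (diag hx hy h h0 hm).1
    omega
  · unfold t3
    have h1 : 3 * m - (3 * m - X) = X := by omega
    have h2 : 3 * m - (3 * m - Y) = Y := by omega
    rw [if_neg (by omega), if_neg (by omega), h1, h2]

/-- four indicators, two of which vanish -/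
lemma count4 {a b c d t : ℕ}
    (h : (t ≤ a + 1 ∧ t ≤ b + 1) ∨ (t ≤ a + 1 ∧ t ≤ c + 1) ∨ (t ≤ a + 1 ∧ t ≤ d + 1) ∨
      (t ≤ b + 1 ∧ t ≤ c + 1) ∨ (t ≤ b + 1 ∧ t ≤ d + 1) ∨ (t ≤ c + 1 ∧ t ≤ d + 1)) :
    (if a + 2 ≤ t then 1 else 0) + (if b + 2 ≤ t then 1 else 0) +
      (if c + 2 ≤ t then 1 else 0) + (if d + 2 ≤ t then 1 else 0) ≤ 2 := by
  split_ifs <;> omega

lemma low_case {m x y : ℕ} (hm : 3 ≤ m) (hx : 1 ≤ x) (hy : 1 ≤ y) (hs : x + y < 3 * m)
    (hne : lowIx x y ≠ 0) :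
    (t3 m x y ≤ t3 m (x - 1) y + 1 ∧ t3 m x y ≤ t3 m (x + 1) y + 1) ∨
    (t3 m x y ≤ t3 m (x - 1) y + 1 ∧ t3 m x y ≤ t3 m x (y - 1) + 1) ∨
    (t3 m x y ≤ t3 m (x - 1) y + 1 ∧ t3 m x y ≤ t3 m x (y + 1) + 1) ∨
    (t3 m x y ≤ t3 m (x + 1) y + 1 ∧ t3 m x y ≤ t3 m x (y - 1) + 1) ∨
    (t3 m x y ≤ t3 m (x + 1) y + 1 ∧ t3 m x y ≤ t3 m x (y + 1) + 1) ∨
    (t3 m x y ≤ t3 m x (y - 1) + 1 ∧ t3 m x y ≤ t3 m x (y + 1) + 1) := by
  have hv := t3_low hx hy hs.le hne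
  have key : ∀ {x' y' : ℕ}, 1 ≤ x' → 1 ≤ y' → x' + y' ≤ 3 * m → lowIx x' y' ≠ 0 →
      lowIx x' y' ≤ lowIx x y + 1 → t3 m x y ≤ t3 m x' y' + 1 := by
    intro x' y' h1 h2 h3 h4 h5
    rw [hv, t3_low h1 h2 h3 h4]; omega
  rcases nbrs hx hy hne with ⟨h1, h2, h3, h4⟩ | ⟨hge, h⟩
  · left
    subst h1; subst h2
    refine ⟨?_, key (by omega) le_rfl (by omega) (by omega) (by omega)⟩
    have ha : t3 m (1 - 1) 1 = 6 * m * m + 6 - 8 * m := by unfold t3; simp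
    rw [ha, hv]; omega
  · rcases h with ⟨h1, h2⟩ | ⟨h1, h2, h3⟩ | ⟨h1, h2, h3, h4⟩ | ⟨h1, h2, h3⟩ | ⟨h1, h2⟩ |
      ⟨h1, h2, h3⟩ | ⟨h1, h2, h3, h4⟩ | ⟨h1, h2, h3⟩
    · exact Or.inr (Or.inr (Or.inr (Or.inr (Or.inl
        ⟨key (by omega) hy (by omega) (by omega) (by omega),
          key hx (by omega) (by omega) (by omega) (by omega)⟩))))
    · exact Or.inl ⟨key (by omega) hy (by omega) (by omega) (by omega),
          key (by omega) hy (by omega) (by omega) (by omega)⟩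
    · exact Or.inr (Or.inl ⟨key (by omega) hy (by omega) (by omega) (by omega),
          key hx (by omega) (by omega) (by omega) (by omega)⟩)
    · exact Or.inr (Or.inr (Or.inl ⟨key (by omega) hy (by omega) (by omega) (by omega),
          key hx (by omega) (by omega) (by omega) (by omega)⟩))
    · exact Or.inr (Or.inr (Or.inr (Or.inr (Or.inl
        ⟨key (by omega) hy (by omega) (by omega) (by omega),
          key hx (by omega) (by omega) (by omega) (by omega)⟩))))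
    · exact Or.inr (Or.inr (Or.inr (Or.inr (Or.inr
        ⟨key hx (by omega) (by omega) (by omega) (by omega),
          key hx (by omega) (by omega) (by omega) (by omega)⟩))))
    · exact Or.inr (Or.inl ⟨key (by omega) hy (by omega) (by omega) (by omega),
          key hx (by omega) (by omega) (by omega) (by omega)⟩)
    · exact Or.inr (Or.inr (Or.inr (Or.inl
        ⟨key (by omega) hy (by omega) (by omega) (by omega),
          key hx (by omega) (by omega) (by omega) (by omega)⟩)))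

lemma up_case {m x y : ℕ} (hm : 3 ≤ m) (hx : 1 ≤ x) (hy : 1 ≤ y) (hx3 : x < 3 * m)
    (hy3 : y < 3 * m) (hs : 3 * m < x + y) (ht : 2 ≤ t3 m x y) :
    (t3 m x y ≤ t3 m (x - 1) y + 1 ∧ t3 m x y ≤ t3 m (x + 1) y + 1) ∨
    (t3 m x y ≤ t3 m (x - 1) y + 1 ∧ t3 m x y ≤ t3 m x (y - 1) + 1) ∨
    (t3 m x y ≤ t3 m (x - 1) y + 1 ∧ t3 m x y ≤ t3 m x (y + 1) + 1) ∨
    (t3 m x y ≤ t3 m (x + 1) y + 1 ∧ t3 m x y ≤ t3 m x (y - 1) + 1) ∨
    (t3 m x y ≤ t3 m (x + 1) y + 1 ∧ t3 m x y ≤ t3 m x (y + 1) + 1) ∨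
    (t3 m x y ≤ t3 m x (y - 1) + 1 ∧ t3 m x y ≤ t3 m x (y + 1) + 1) := by
  have hv : t3 m x y = lowIx (3 * m - y) (3 * m - x) := by
    unfold t3
    rw [if_neg (by omega), if_neg (by omega)]
  obtain ⟨X, hX⟩ : ∃ X, X = 3 * m - y := ⟨_, rfl⟩
  obtain ⟨Y, hY⟩ : ∃ Y, Y = 3 * m - x := ⟨_, rfl⟩
  rw [← hX, ← hY] at hv
  have hX1 : 1 ≤ X := by omega
  have hY1 : 1 ≤ Y := by omega
  have key : ∀ {x' y' X' Y' : ℕ}, 1 ≤ X' → 1 ≤ Y' → X' + Y' ≤ 3 * m → lowIx X' Y' ≠ 0 →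
      3 * m - Y' = x' → 3 * m - X' = y' →
      lowIx X Y ≤ lowIx X' Y' + 1 → t3 m x y ≤ t3 m x' y' + 1 := by
    intro x' y' X' Y' h1 h2 h3 h4 h5 h6 h7
    have := t3_up hm h1 h2 h3 h4
    rw [h5, h6] at this
    rw [hv, this]; exact h7
  rcases nbrs hX1 hY1 (by omega) with ⟨h1, h2, h3, h4⟩ | ⟨hge, h⟩
  · omega
  · rcases h with ⟨h1, h2⟩ | ⟨h1, h2, h3⟩ | ⟨h1, h2, h3, h4⟩ | ⟨h1, h2, h3⟩ | ⟨h1, h2⟩ |
      ⟨h1, h2, h3⟩ | ⟨h1, h2, h3, h4⟩ | ⟨h1, h2, h3⟩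
    · -- E, N of the image: S and W of the point
      exact Or.inr (Or.inl
        ⟨key (X' := X) (Y' := Y + 1) hX1 (by omega) (by omega) (by omega) (by omega) (by omega)
            (by omega),
          key (X' := X + 1) (Y' := Y) (by omega) hY1 (by omega) (by omega) (by omega) (by omega)
            (by omega)⟩)
    · -- E, W of the image: S and N of the point
      exact Or.inr (Or.inr (Or.inr (Or.inr (Or.inr
        ⟨key (X' := X + 1) (Y' := Y) (by omega) hY1 (by omega) (by omega) (by omega) (by omega)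
            (by omega),
          key (X' := X - 1) (Y' := Y) (by omega) hY1 (by omega) (by omega) (by omega) (by omega)
            (by omega)⟩))))
    · -- W, S of the image: N and E of the point
      exact Or.inr (Or.inr (Or.inr (Or.inr (Or.inl
        ⟨key (X' := X) (Y' := Y - 1) hX1 (by omega) (by omega) (by omega) (by omega) (by omega)
            (by omega),
          key (X' := X - 1) (Y' := Y) (by omega) hY1 (by omega) (by omega) (by omega) (by omega)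
            (by omega)⟩))))
    · -- W, N of the image: N and W of the point
      exact Or.inr (Or.inr (Or.inl
        ⟨key (X' := X) (Y' := Y + 1) hX1 (by omega) (by omega) (by omega) (by omega) (by omega)
            (by omega),
          key (X' := X - 1) (Y' := Y) (by omega) hY1 (by omega) (by omega) (by omega) (by omega)
            (by omega)⟩))
    · exact Or.inr (Or.inl
        ⟨key (X' := X) (Y' := Y + 1) hX1 (by omega) (by omega) (by omega) (by omega) (by omega)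
            (by omega),
          key (X' := X + 1) (Y' := Y) (by omega) hY1 (by omega) (by omega) (by omega) (by omega)
            (by omega)⟩)
    · -- N, S of the image: W and E of the point
      exact Or.inl
        ⟨key (X' := X) (Y' := Y + 1) hX1 (by omega) (by omega) (by omega) (by omega) (by omega)
            (by omega),
          key (X' := X) (Y' := Y - 1) hX1 (by omega) (by omega) (by omega) (by omega) (by omega)
            (by omega)⟩
    · exact Or.inr (Or.inr (Or.inr (Or.inr (Or.inl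
        ⟨key (X' := X) (Y' := Y - 1) hX1 (by omega) (by omega) (by omega) (by omega) (by omega)
            (by omega),
          key (X' := X - 1) (Y' := Y) (by omega) hY1 (by omega) (by omega) (by omega) (by omega)
            (by omega)⟩))))
    · -- S, E of the image: E and S of the point
      exact Or.inr (Or.inr (Or.inr (Or.inl
        ⟨key (X' := X) (Y' := Y - 1) hX1 (by omega) (by omega) (by omega) (by omega) (by omega)
            (by omega),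
          key (X' := X + 1) (Y' := Y) (by omega) hY1 (by omega) (by omega) (by omega) (by omega)
            (by omega)⟩)))

lemma diag_case {m x y : ℕ} (hm : 3 ≤ m) (hx : 1 ≤ x) (hy : 1 ≤ y) (hs : x + y = 3 * m)
    (hne : lowIx x y ≠ 0) :
    (t3 m x y ≤ t3 m (x - 1) y + 1 ∧ t3 m x y ≤ t3 m (x + 1) y + 1) ∨
    (t3 m x y ≤ t3 m (x - 1) y + 1 ∧ t3 m x y ≤ t3 m x (y - 1) + 1) ∨
    (t3 m x y ≤ t3 m (x - 1) y + 1 ∧ t3 m x y ≤ t3 m x (y + 1) + 1) ∨
    (t3 m x y ≤ t3 m (x + 1) y + 1 ∧ t3 m x y ≤ t3 m x (y - 1) + 1) ∨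
    (t3 m x y ≤ t3 m (x + 1) y + 1 ∧ t3 m x y ≤ t3 m x (y + 1) + 1) ∨
    (t3 m x y ≤ t3 m x (y - 1) + 1 ∧ t3 m x y ≤ t3 m x (y + 1) + 1) := by
  have hv := t3_low hx hy hs.le hne
  have hd := (diag hx hy hne hs hm).1
  obtain ⟨k, hk⟩ := cases_low hx hy hne
  rcases hk with ⟨hk, h1, h2⟩ | ⟨hk, h1, h2⟩ | ⟨hk, h1, h2⟩ | ⟨hk, h1, h2⟩
  · omega
  · omega
  · have hc := low_ce hk h1 h2
    have hp : 1 ≤ aa k := by unfold aa; omega
    have hW : lowIx (x - 1) y = aa k + (x - 1) - y := low_e hk (by omega) (by omega)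
    have e1 : lowIx (x - 1) y = lowIx x y - 1 := by omega
    have e2 : t3 m (x - 1) y = 6 * m * m + 6 - 8 * m - lowIx (x - 1) y :=
      t3_low (by omega) hy (by omega) (by omega)
    have e3 := t3_up (X := x - 1) (Y := y) hm (by omega) hy (by omega) (by omega)
    have e4 : 3 * m - y = x := by omega
    have e5 : 3 * m - (x - 1) = y + 1 := by omega
    rw [e4, e5] at e3
    refine Or.inr (Or.inr (Or.inl ⟨?_, ?_⟩))
    · rw [hv, e2]; omega
    · rw [hv, e3]; omega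
  · have hc := low_co hk h1 h2
    have hge := aa_ge k (by omega)
    have hS : lowIx x (y - 1) = aa k + (y - 1) - x := low_o hk (by omega) (by omega)
    have e1 : lowIx x (y - 1) = lowIx x y - 1 := by omega
    have e2 : t3 m x (y - 1) = 6 * m * m + 6 - 8 * m - lowIx x (y - 1) :=
      t3_low hx (by omega) (by omega) (by omega)
    have e3 := t3_up (X := x) (Y := y - 1) hm hx (by omega) (by omega) (by omega)
    have e4 : 3 * m - (y - 1) = x + 1 := by omega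
    have e5 : 3 * m - x = y := by omega
    rw [e4, e5] at e3
    refine Or.inr (Or.inr (Or.inr (Or.inl ⟨?_, ?_⟩)))
    · rw [hv, e3]; omega
    · rw [hv, e2]; omega

end W1aux

open W1aux in
theorem tW1 : W1 := by
  intro m x y hm hx hy
  by_cases ht : t3 m x y ≤ 1
  · rw [if_neg (by omega), if_neg (by omega), if_neg (by omega), if_neg (by omega)]
    omega
  · apply count4
    by_cases hwall : 3 * m ≤ x ∨ 3 * m ≤ y
    · exfalso
      apply ht
      unfold t3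
      rw [if_pos (Or.inr (Or.inr hwall)), if_neg (by omega)]
      omega
    · by_cases hlow : x + y ≤ 3 * m
      · have hne : lowIx x y ≠ 0 := by
          intro h0
          apply ht
          unfold t3
          rw [if_neg (by omega), if_pos hlow, if_pos h0]
          omega
        by_cases hd : x + y = 3 * m
        · exact diag_case hm hx hy hd hne
        · exact low_case hm hx hy (by omega) hne
      · exact up_case hm hx hy (by omega) (by omega) (by omega) (by omega)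

end Pool.Agent.H132R3.BP
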