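import Pool.Agent.H132R3.BP.Stmts2

/-!
# Project H132-BP2, task W2
-/

set_option autoImplicit false

namespace Pool.Agent.H132R3.BP

namespace W2aux

theorem aa_succ' (k : ℕ) : aa (k + 1) = aa k + 6 * k + 2 := by
  unfold aa
  have h1 : 3 * (k + 1) - 1 = 3 * k + 2 := by omega
  rw [h1]
  rcases k with _ | j
  · rfl
  · have h2 : 3 * (j + 1) - 1 = 3 * j + 2 := by omega
    rw [h2]; ring

theorem aa_ge' (k : ℕ) : 3 * k ≤ aa k ∧ 1 ≤ aa k := by
  induction k with
  | zero => exact ⟨Nat.zero_le _, le_refl _⟩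
  | succ k ih => rw [aa_succ']; omega

theorem aa_mono' {k n : ℕ} (h : k ≤ n) : aa k + 3 * k + 1 ≤ aa n + 3 * n + 1 := by
  induction n, h using Nat.le_induction with
  | base => exact le_refl _
  | succ n _ ih => rw [aa_succ']; omega

theorem low1e {x y k : ℕ} (hx : 1 ≤ x) (hy : 1 ≤ y) (h : x + y = 3 * k + 1) (hk : k % 2 = 0) :
    (x = 1 ∧ lowIx x y = 0) ∨ (2 ≤ x ∧ lowIx x y + y = aa k + x) := by
  have h1 : (x + y - 1) / 3 = k := by omega
  have hg := aa_ge' k
  unfold lowIx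
  rw [if_neg (by omega), h1]
  split_ifs <;> omega

theorem low1o {x y k : ℕ} (hx : 1 ≤ x) (hy : 1 ≤ y) (h : x + y = 3 * k + 1) (hk : k % 2 = 1) :
    (y = 1 ∧ lowIx x y = 0) ∨ (2 ≤ y ∧ lowIx x y + x = aa k + y) := by
  have h1 : (x + y - 1) / 3 = k := by omega
  have hg := aa_ge' k
  unfold lowIx
  rw [if_neg (by omega), h1]
  split_ifs <;> omega

theorem low2e {x y k : ℕ} (hx : 1 ≤ x) (hy : 1 ≤ y) (h : x + y = 3 * k + 2) (hk : k % 2 = 0) :
    (1 ≤ k ∧ x ≤ 2 ∧ lowIx x y = 0) ∨ ((k = 0 ∨ 3 ≤ x) ∧ lowIx x y + y = aa k + x) := by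
  have h1 : (x + y - 1) / 3 = k := by omega
  have hg := aa_ge' k
  unfold lowIx
  rw [if_neg (by omega), h1]
  split_ifs <;> omega

theorem low2o {x y k : ℕ} (hx : 1 ≤ x) (hy : 1 ≤ y) (h : x + y = 3 * k + 2) (hk : k % 2 = 1) :
    (y ≤ 2 ∧ lowIx x y = 0) ∨ (3 ≤ y ∧ lowIx x y + x = aa k + y) := by
  have h1 : (x + y - 1) / 3 = k := by omega
  have hg := aa_ge' k
  unfold lowIx
  rw [if_neg (by omega), h1]
  split_ifs <;> omega

theorem low3e {x y k : ℕ} (hx : 1 ≤ x) (hy : 1 ≤ y) (h : x + y = 3 * k + 3) (hk : k % 2 = 0) :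
    (y = 1 ∧ lowIx x y = aa k + 3 * k + 1) ∨ (2 ≤ y ∧ lowIx x y = 0) := by
  have h1 : (x + y) / 3 - 1 = k := by omega
  unfold lowIx
  rw [if_pos (by omega), h1]
  split_ifs <;> omega

theorem low3o {x y k : ℕ} (hx : 1 ≤ x) (hy : 1 ≤ y) (h : x + y = 3 * k + 3) (hk : k % 2 = 1) :
    (x = 1 ∧ lowIx x y = aa k + 3 * k + 1) ∨ (2 ≤ x ∧ lowIx x y = 0) := by
  have h1 : (x + y) / 3 - 1 = k := by omega
  unfold lowIx
  rw [if_pos (by omega), h1]
  split_ifs <;> omega

theorem T_eq (m : ℕ) (hm : 1 ≤ m) :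
    6 * m * m + 6 - 8 * m = 2 * (aa (m - 1) + 3 * (m - 1) + 1) := by
  obtain ⟨n, rfl⟩ : ∃ n, m = n + 1 := ⟨m - 1, by omega⟩
  rw [Nat.add_sub_cancel]
  have h1 : aa n = 3 * (n * n) + 1 - n := by
    unfold aa
    rcases n with _ | j
    · rfl
    · have h2 : 3 * (j + 1) - 1 = 3 * j + 2 := by omega
      rw [h2]
      have h3 : 3 * ((j + 1) * (j + 1)) + 1 = (j + 1) * (3 * j + 2) + 1 + (j + 1) := by ring
      omega
  have h3 : 6 * (n + 1) * (n + 1) = 6 * (n * n) + 12 * n + 6 := by ring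
  have h4 : n ≤ n * n := Nat.le_mul_self n
  omega

theorem low_bound {m x y : ℕ} (hm : 1 ≤ m) (hx : 1 ≤ x) (hy : 1 ≤ y) (h : x + y ≤ 3 * m) :
    2 * lowIx x y ≤ 6 * m * m + 6 - 8 * m := by
  rw [T_eq m hm]
  obtain ⟨k, hk⟩ : ∃ k, x + y = 3 * k + 1 ∨ x + y = 3 * k + 2 ∨ x + y = 3 * k + 3 :=
    ⟨(x + y - 1) / 3, by omega⟩
  have hmono := aa_mono' (k := k) (n := m - 1) (by omega)
  rcases Nat.mod_two_eq_zero_or_one k with hp | hp
  · rcases hk with hk | hk | hk
    · have := low1e hx hy hk hp; omega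
    · have := low2e hx hy hk hp; omega
    · have := low3e hx hy hk hp; omega
  · rcases hk with hk | hk | hk
    · have := low1o hx hy hk hp; omega
    · have := low2o hx hy hk hp; omega
    · have := low3o hx hy hk hp; omega

theorem t3_lower {m x y : ℕ} (hm : 1 ≤ m) (hx : 1 ≤ x) (hy : 1 ≤ y) (h : x + y ≤ 3 * m) :
    (lowIx x y = 0 ∧ t3 m x y = 0) ∨
      (1 ≤ lowIx x y ∧ t3 m x y + lowIx x y = 6 * m * m + 6 - 8 * m) := by
  have hb := low_bound hm hx hy h
  unfold t3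
  rw [if_neg (by omega), if_pos h]
  split_ifs <;> omega

theorem t3_wall {m x y : ℕ} (h : x = 0 ∨ y = 0 ∨ 3 * m ≤ x ∨ 3 * m ≤ y)
    (h2 : ¬ (x = 0 ∧ y = 1)) : t3 m x y = 0 := by
  unfold t3
  rw [if_pos h, if_neg h2]

theorem t3_upper {m u v : ℕ} (hm : 1 ≤ m) (hu : 1 ≤ u) (hv : 1 ≤ v) (h : u + v ≤ 3 * m) :
    t3 m (3 * m - v) (3 * m - u) = lowIx u v := by
  rcases Nat.lt_or_ge (u + v) (3 * m) with h1 | h1
  · unfold t3
    rw [if_neg (by omega), if_neg (by omega)]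
    have e1 : 3 * m - (3 * m - u) = u := by omega
    have e2 : 3 * m - (3 * m - v) = v := by omega
    rw [e1, e2]
  · have e1 : 3 * m - v = u := by omega
    have e2 : 3 * m - u = v := by omega
    rw [e1, e2]
    have h3 := t3_lower hm hu hv h
    rw [T_eq m hm] at h3
    have hk : u + v = 3 * (m - 1) + 3 := by omega
    rcases Nat.mod_two_eq_zero_or_one (m - 1) with hp | hp
    · have := low3e hu hv hk hp; omega
    · have := low3o hu hv hk hp; omega

theorem count3 {a b c d e : ℕ} (h1 : a < e ∨ b < e) (h2 : a < e ∨ c < e) (h3 : a < e ∨ d < e)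
    (h4 : b < e ∨ c < e) (h5 : b < e ∨ d < e) (h6 : c < e ∨ d < e) :
    3 ≤ (if a < e then 1 else 0) + (if b < e then 1 else 0) + (if c < e then 1 else 0) +
      (if d < e then 1 else 0) := by
  split_ifs <;> omega

theorem n1e {m x y k : ℕ} (hm : 1 ≤ m) (hx : 1 ≤ x) (hy : 1 ≤ y) (hs : x + y ≤ 3 * m)
    (h : x + y = 3 * k + 1) (hk : k % 2 = 0) :
    (x = 1 ∧ t3 m x y = 0) ∨
      (2 ≤ x ∧ t3 m x y + aa k + x = 6 * m * m + 6 - 8 * m + y) := by
  have h1 := t3_lower hm hx hy hs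
  have h2 := low1e hx hy h hk
  have h3 := aa_ge' k
  omega

theorem n1o {m x y k : ℕ} (hm : 1 ≤ m) (hx : 1 ≤ x) (hy : 1 ≤ y) (hs : x + y ≤ 3 * m)
    (h : x + y = 3 * k + 1) (hk : k % 2 = 1) :
    (y = 1 ∧ t3 m x y = 0) ∨
      (2 ≤ y ∧ t3 m x y + aa k + y = 6 * m * m + 6 - 8 * m + x) := by
  have h1 := t3_lower hm hx hy hs
  have h2 := low1o hx hy h hk
  have h3 := aa_ge' k
  omega

theorem n2e {m x y k : ℕ} (hm : 1 ≤ m) (hx : 1 ≤ x) (hy : 1 ≤ y) (hs : x + y ≤ 3 * m)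
    (h : x + y = 3 * k + 2) (hk : k % 2 = 0) :
    (1 ≤ k ∧ x ≤ 2 ∧ t3 m x y = 0) ∨
      ((k = 0 ∨ 3 ≤ x) ∧ t3 m x y + aa k + x = 6 * m * m + 6 - 8 * m + y) := by
  have h1 := t3_lower hm hx hy hs
  have h2 := low2e hx hy h hk
  have h3 := aa_ge' k
  omega

theorem n2o {m x y k : ℕ} (hm : 1 ≤ m) (hx : 1 ≤ x) (hy : 1 ≤ y) (hs : x + y ≤ 3 * m)
    (h : x + y = 3 * k + 2) (hk : k % 2 = 1) :
    (y ≤ 2 ∧ t3 m x y = 0) ∨
      (3 ≤ y ∧ t3 m x y + aa k + y = 6 * m * m + 6 - 8 * m + x) := by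
  have h1 := t3_lower hm hx hy hs
  have h2 := low2o hx hy h hk
  have h3 := aa_ge' k
  omega

theorem n3e {m x y k : ℕ} (hm : 1 ≤ m) (hx : 1 ≤ x) (hy : 1 ≤ y) (hs : x + y ≤ 3 * m)
    (h : x + y = 3 * k + 3) (hk : k % 2 = 0) :
    (y = 1 ∧ t3 m x y + aa k + 3 * k + 1 = 6 * m * m + 6 - 8 * m) ∨ (2 ≤ y ∧ t3 m x y = 0) := by
  have h1 := t3_lower hm hx hy hs
  have h2 := low3e hx hy h hk
  have h3 := aa_ge' k
  omega

theorem n3o {m x y k : ℕ} (hm : 1 ≤ m) (hx : 1 ≤ x) (hy : 1 ≤ y) (hs : x + y ≤ 3 * m)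
    (h : x + y = 3 * k + 3) (hk : k % 2 = 1) :
    (x = 1 ∧ t3 m x y + aa k + 3 * k + 1 = 6 * m * m + 6 - 8 * m) ∨ (2 ≤ x ∧ t3 m x y = 0) := by
  have h1 := t3_lower hm hx hy hs
  have h2 := low3o hx hy h hk
  have h3 := aa_ge' k
  omega

theorem wLower {m x y : ℕ} (hm : 3 ≤ m) (hx : 1 ≤ x) (hy : 1 ≤ y) (hs : x + y < 3 * m)
    (h : 1 ≤ t3 m x y) : 3 ≤
    (if t3 m (x - 1) y < t3 m x y then 1 else 0) +
    (if t3 m (x + 1) y < t3 m x y then 1 else 0) +
    (if t3 m x (y - 1) < t3 m x y then 1 else 0) +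
    (if t3 m x (y + 1) < t3 m x y then 1 else 0) := by
  have hm1 : 1 ≤ m := by omega
  have hs0 : x + y ≤ 3 * m := hs.le
  have hsR : x + 1 + y ≤ 3 * m := by omega
  have hsU : x + (y + 1) ≤ 3 * m := by omega
  have hsL : x - 1 + y ≤ 3 * m := by omega
  have hsD : x + (y - 1) ≤ 3 * m := by omega
  have wL : x = 1 → y ≠ 1 → t3 m (x - 1) y = 0 := fun h1 h2 =>
    t3_wall (Or.inl (by omega)) (by omega)
  have wD : y = 1 → t3 m x (y - 1) = 0 := fun h1 =>
    t3_wall (Or.inr (Or.inl (by omega))) (by omega)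
  obtain ⟨k, hk⟩ : ∃ k, x + y = 3 * (k + 1) + 1 ∨ x + y = 3 * k + 2 ∨ x + y = 3 * k + 3 := by
    rcases (by omega : (x + y) % 3 = 1 ∨ (x + y) % 3 = 2 ∨ (x + y) % 3 = 0) with h1 | h1 | h1
    · exact ⟨(x + y) / 3 - 1, by omega⟩
    · exact ⟨(x + y) / 3, by omega⟩
    · exact ⟨(x + y) / 3 - 1, by omega⟩
  have ha := aa_succ' k
  have hg := aa_ge' k
  rcases hk with hk | hk | hk
  · rcases Nat.mod_two_eq_zero_or_one k with hp | hp
    · have f0 := n1o hm1 hx hy hs0 hk (by omega)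
      have fR := n2o (k := k + 1) hm1 (Nat.le_add_left 1 x) hy hsR (by omega) (by omega)
      have fU := n2o (k := k + 1) hm1 hx (Nat.le_add_left 1 y) hsU (by omega) (by omega)
      have fL := fun h1 : 1 ≤ x - 1 => n3e (k := k) hm1 h1 hy hsL (by omega) hp
      have fD := fun h1 : 1 ≤ y - 1 => n3e (k := k) hm1 hx h1 hsD (by omega) hp
      generalize 6 * m * m + 6 - 8 * m = T at *
      apply count3 <;> omega
    · have f0 := n1e hm1 hx hy hs0 hk (by omega)
      have fR := n2e (k := k + 1) hm1 (Nat.le_add_left 1 x) hy hsR (by omega) (by omega)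
      have fU := n2e (k := k + 1) hm1 hx (Nat.le_add_left 1 y) hsU (by omega) (by omega)
      have fL := fun h1 : 1 ≤ x - 1 => n3o (k := k) hm1 h1 hy hsL (by omega) hp
      have fD := fun h1 : 1 ≤ y - 1 => n3o (k := k) hm1 hx h1 hsD (by omega) hp
      generalize 6 * m * m + 6 - 8 * m = T at *
      apply count3 <;> omega
  · rcases Nat.mod_two_eq_zero_or_one k with hp | hp
    · have f0 := n2e hm1 hx hy hs0 hk hp
      have fR := n3e (k := k) hm1 (Nat.le_add_left 1 x) hy hsR (by omega) hp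
      have fU := n3e (k := k) hm1 hx (Nat.le_add_left 1 y) hsU (by omega) hp
      have fL := fun h1 : 1 ≤ x - 1 => n1e (k := k) hm1 h1 hy hsL (by omega) hp
      have fD := fun h1 : 1 ≤ y - 1 => n1e (k := k) hm1 hx h1 hsD (by omega) hp
      generalize 6 * m * m + 6 - 8 * m = T at *
      apply count3 <;> omega
    · have f0 := n2o hm1 hx hy hs0 hk hp
      have fR := n3o (k := k) hm1 (Nat.le_add_left 1 x) hy hsR (by omega) hp
      have fU := n3o (k := k) hm1 hx (Nat.le_add_left 1 y) hsU (by omega) hp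
      have fL := fun h1 : 1 ≤ x - 1 => n1o (k := k) hm1 h1 hy hsL (by omega) hp
      have fD := fun h1 : 1 ≤ y - 1 => n1o (k := k) hm1 hx h1 hsD (by omega) hp
      generalize 6 * m * m + 6 - 8 * m = T at *
      apply count3 <;> omega
  · rcases Nat.mod_two_eq_zero_or_one k with hp | hp
    · have f0 := n3e hm1 hx hy hs0 hk hp
      have fR := n1o (k := k + 1) hm1 (Nat.le_add_left 1 x) hy hsR (by omega) (by omega)
      have fU := n1o (k := k + 1) hm1 hx (Nat.le_add_left 1 y) hsU (by omega) (by omega)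
      have fL := fun h1 : 1 ≤ x - 1 => n2e (k := k) hm1 h1 hy hsL (by omega) hp
      have fD := fun h1 : 1 ≤ y - 1 => n2e (k := k) hm1 hx h1 hsD (by omega) hp
      generalize 6 * m * m + 6 - 8 * m = T at *
      apply count3 <;> omega
    · have f0 := n3o hm1 hx hy hs0 hk hp
      have fR := n1e (k := k + 1) hm1 (Nat.le_add_left 1 x) hy hsR (by omega) (by omega)
      have fU := n1e (k := k + 1) hm1 hx (Nat.le_add_left 1 y) hsU (by omega) (by omega)
      have fL := fun h1 : 1 ≤ x - 1 => n2o (k := k) hm1 h1 hy hsL (by omega) hp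
      have fD := fun h1 : 1 ≤ y - 1 => n2o (k := k) hm1 hx h1 hsD (by omega) hp
      generalize 6 * m * m + 6 - 8 * m = T at *
      apply count3 <;> omega

theorem wUpper {m u v : ℕ} (hm : 3 ≤ m) (hu : 1 ≤ u) (hv : 1 ≤ v) (hs : u + v < 3 * m)
    (h : 1 ≤ t3 m (3 * m - v) (3 * m - u)) : 3 ≤
    (if t3 m (3 * m - v - 1) (3 * m - u) < t3 m (3 * m - v) (3 * m - u) then 1 else 0) +
    (if t3 m (3 * m - v + 1) (3 * m - u) < t3 m (3 * m - v) (3 * m - u) then 1 else 0) +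
    (if t3 m (3 * m - v) (3 * m - u - 1) < t3 m (3 * m - v) (3 * m - u) then 1 else 0) +
    (if t3 m (3 * m - v) (3 * m - u + 1) < t3 m (3 * m - v) (3 * m - u) then 1 else 0) := by
  have hm1 : 1 ≤ m := by omega
  have g0 := t3_upper hm1 hu hv hs.le
  have gL : t3 m (3 * m - v - 1) (3 * m - u) = lowIx u (v + 1) :=
    t3_upper hm1 hu (Nat.le_add_left 1 v) (by omega)
  have gD : t3 m (3 * m - v) (3 * m - u - 1) = lowIx (u + 1) v :=
    t3_upper hm1 (Nat.le_add_left 1 u) hv (by omega)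
  have gR1 : v = 1 → t3 m (3 * m - v + 1) (3 * m - u) = 0 := fun h1 =>
    t3_wall (Or.inr (Or.inr (Or.inl (by omega)))) (by omega)
  have gU1 : u = 1 → t3 m (3 * m - v) (3 * m - u + 1) = 0 := fun h1 =>
    t3_wall (Or.inr (Or.inr (Or.inr (by omega)))) (by omega)
  have gR2 : 1 ≤ v - 1 → t3 m (3 * m - v + 1) (3 * m - u) = lowIx u (v - 1) := fun h1 => by
    have h2 := t3_upper hm1 hu h1 (by omega)
    have h3 : 3 * m - (v - 1) = 3 * m - v + 1 := by omega
    rwa [h3] at h2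
  have gU2 : 1 ≤ u - 1 → t3 m (3 * m - v) (3 * m - u + 1) = lowIx (u - 1) v := fun h1 => by
    have h2 := t3_upper hm1 h1 hv (by omega)
    have h3 : 3 * m - (u - 1) = 3 * m - u + 1 := by omega
    rwa [h3] at h2
  rw [g0] at h ⊢
  rw [gL, gD]
  generalize t3 m (3 * m - v + 1) (3 * m - u) = R at *
  generalize t3 m (3 * m - v) (3 * m - u + 1) = W at *
  obtain ⟨k, hk⟩ : ∃ k, u + v = 3 * (k + 1) + 1 ∨ u + v = 3 * k + 2 ∨ u + v = 3 * k + 3 := by
    rcases (by omega : (u + v) % 3 = 1 ∨ (u + v) % 3 = 2 ∨ (u + v) % 3 = 0) with h1 | h1 | h1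
    · exact ⟨(u + v) / 3 - 1, by omega⟩
    · exact ⟨(u + v) / 3, by omega⟩
    · exact ⟨(u + v) / 3 - 1, by omega⟩
  have ha := aa_succ' k
  have hg := aa_ge' k
  clear g0 gL gD hm hm1 hs
  rcases hk with hk | hk | hk
  · rcases Nat.mod_two_eq_zero_or_one k with hp | hp
    · have f0 := low1o hu hv hk (by omega)
      have fR := low2o (k := k + 1) (Nat.le_add_left 1 u) hv (by omega) (by omega)
      have fU := low2o (k := k + 1) hu (Nat.le_add_left 1 v) (by omega) (by omega)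
      have fL := fun h1 : 1 ≤ u - 1 => low3e (k := k) h1 hv (by omega) hp
      have fD := fun h1 : 1 ≤ v - 1 => low3e (k := k) hu h1 (by omega) hp
      apply count3 <;> omega
    · have f0 := low1e hu hv hk (by omega)
      have fR := low2e (k := k + 1) (Nat.le_add_left 1 u) hv (by omega) (by omega)
      have fU := low2e (k := k + 1) hu (Nat.le_add_left 1 v) (by omega) (by omega)
      have fL := fun h1 : 1 ≤ u - 1 => low3o (k := k) h1 hv (by omega) hp
      have fD := fun h1 : 1 ≤ v - 1 => low3o (k := k) hu h1 (by omega) hp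
      apply count3 <;> omega
  · rcases Nat.mod_two_eq_zero_or_one k with hp | hp
    · have f0 := low2e hu hv hk hp
      have fR := low3e (k := k) (Nat.le_add_left 1 u) hv (by omega) hp
      have fU := low3e (k := k) hu (Nat.le_add_left 1 v) (by omega) hp
      have fL := fun h1 : 1 ≤ u - 1 => low1e (k := k) h1 hv (by omega) hp
      have fD := fun h1 : 1 ≤ v - 1 => low1e (k := k) hu h1 (by omega) hp
      apply count3 <;> omega
    · have f0 := low2o hu hv hk hp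
      have fR := low3o (k := k) (Nat.le_add_left 1 u) hv (by omega) hp
      have fU := low3o (k := k) hu (Nat.le_add_left 1 v) (by omega) hp
      have fL := fun h1 : 1 ≤ u - 1 => low1o (k := k) h1 hv (by omega) hp
      have fD := fun h1 : 1 ≤ v - 1 => low1o (k := k) hu h1 (by omega) hp
      apply count3 <;> omega
  · rcases Nat.mod_two_eq_zero_or_one k with hp | hp
    · have f0 := low3e hu hv hk hp
      have fR := low1o (k := k + 1) (Nat.le_add_left 1 u) hv (by omega) (by omega)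
      have fU := low1o (k := k + 1) hu (Nat.le_add_left 1 v) (by omega) (by omega)
      have fL := fun h1 : 1 ≤ u - 1 => low2e (k := k) h1 hv (by omega) hp
      have fD := fun h1 : 1 ≤ v - 1 => low2e (k := k) hu h1 (by omega) hp
      apply count3 <;> omega
    · have f0 := low3o hu hv hk hp
      have fR := low1e (k := k + 1) (Nat.le_add_left 1 u) hv (by omega) (by omega)
      have fU := low1e (k := k + 1) hu (Nat.le_add_left 1 v) (by omega) (by omega)
      have fL := fun h1 : 1 ≤ u - 1 => low2o (k := k) h1 hv (by omega) hp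
      have fD := fun h1 : 1 ≤ v - 1 => low2o (k := k) hu h1 (by omega) hp
      apply count3 <;> omega

theorem wDiag {m x y : ℕ} (hm : 3 ≤ m) (hx : 1 ≤ x) (hy : 1 ≤ y) (hs : x + y = 3 * m)
    (h : 1 ≤ t3 m x y) : 3 ≤
    (if t3 m (x - 1) y < t3 m x y then 1 else 0) +
    (if t3 m (x + 1) y < t3 m x y then 1 else 0) +
    (if t3 m x (y - 1) < t3 m x y then 1 else 0) +
    (if t3 m x (y + 1) < t3 m x y then 1 else 0) := by
  have hm1 : 1 ≤ m := by omega
  have hT := T_eq m hm1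
  have wL : x = 1 → t3 m (x - 1) y = 0 := fun h1 =>
    t3_wall (Or.inl (by omega)) (by omega)
  have wD : y = 1 → t3 m x (y - 1) = 0 := fun h1 =>
    t3_wall (Or.inr (Or.inl (by omega))) (by omega)
  have wR : y = 1 → t3 m (x + 1) y = 0 := fun h1 =>
    t3_wall (Or.inr (Or.inr (Or.inl (by omega)))) (by omega)
  have wU : x = 1 → t3 m x (y + 1) = 0 := fun h1 =>
    t3_wall (Or.inr (Or.inr (Or.inr (by omega)))) (by omega)
  have gR : 1 ≤ y - 1 → t3 m (x + 1) y = lowIx x (y - 1) := fun h1 => by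
    have h2 := t3_upper hm1 hx h1 (by omega)
    have h3 : 3 * m - (y - 1) = x + 1 := by omega
    have h4 : 3 * m - x = y := by omega
    rwa [h3, h4] at h2
  have gU : 1 ≤ x - 1 → t3 m x (y + 1) = lowIx (x - 1) y := fun h1 => by
    have h2 := t3_upper hm1 h1 hy (by omega)
    have h3 : 3 * m - (x - 1) = y + 1 := by omega
    have h4 : 3 * m - y = x := by omega
    rwa [h3, h4] at h2
  obtain ⟨k, hk⟩ : ∃ k, m = k + 1 := ⟨m - 1, by omega⟩
  have hk1 : m - 1 = k := by omega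
  rw [hk1] at hT
  have hg := aa_ge' k
  rcases Nat.mod_two_eq_zero_or_one k with hp | hp
  · have f0 := n3e (k := k) hm1 hx hy hs.le (by omega) hp
    have fL := fun h1 : 1 ≤ x - 1 => n2e (k := k) hm1 h1 hy (by omega) (by omega) hp
    have fD := fun h1 : 1 ≤ y - 1 => n2e (k := k) hm1 hx h1 (by omega) (by omega) hp
    have fR := fun h1 : 1 ≤ y - 1 => low2e (k := k) hx h1 (by omega) hp
    have fU := fun h1 : 1 ≤ x - 1 => low2e (k := k) h1 hy (by omega) hp
    generalize 6 * m * m + 6 - 8 * m = T at *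
    apply count3 <;> omega
  · have f0 := n3o (k := k) hm1 hx hy hs.le (by omega) hp
    have fL := fun h1 : 1 ≤ x - 1 => n2o (k := k) hm1 h1 hy (by omega) (by omega) hp
    have fD := fun h1 : 1 ≤ y - 1 => n2o (k := k) hm1 hx h1 (by omega) (by omega) hp
    have fR := fun h1 : 1 ≤ y - 1 => low2o (k := k) hx h1 (by omega) hp
    have fU := fun h1 : 1 ≤ x - 1 => low2o (k := k) h1 hy (by omega) hp
    generalize 6 * m * m + 6 - 8 * m = T at *
    apply count3 <;> omega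

end W2aux

open W2aux in
theorem tW2 : W2 := by
  intro m x y hm hx hy h
  rcases Nat.lt_or_ge (x + y) (3 * m) with h1 | h1
  · exact wLower hm hx hy h1 h
  rcases Nat.eq_or_lt_of_le h1 with h2 | h2
  · exact wDiag hm hx hy h2.symm h
  have hx3 : x < 3 * m := by
    by_contra hc
    rw [t3_wall (Or.inr (Or.inr (Or.inl (by omega)))) (by omega)] at h
    omega
  have hy3 : y < 3 * m := by
    by_contra hc
    rw [t3_wall (Or.inr (Or.inr (Or.inr (by omega)))) (by omega)] at h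
    omega
  obtain ⟨u, hu, hu1⟩ : ∃ u, y = 3 * m - u ∧ 1 ≤ u := ⟨3 * m - y, by omega, by omega⟩
  obtain ⟨v, hv, hv1⟩ : ∃ v, x = 3 * m - v ∧ 1 ≤ v := ⟨3 * m - x, by omega, by omega⟩
  subst hu
  subst hv
  exact wUpper hm hu1 hv1 (by omega) h

end Pool.Agent.H132R3.BP
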