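import Pool.Agent.H132R3.BP.Stmts2

set_option autoImplicit false

namespace Pool.Agent.H132R3.BP

open SimpleGraph

namespace W3aux

theorem card_four_le {α : Type} [DecidableEq α] (a b c d : α) (P : α → Prop) [DecidablePred P] :
    (({a, b, c, d} : Finset α).filter P).card ≤
      (if P a then 1 else 0) + (if P b then 1 else 0) + (if P c then 1 else 0) +
        (if P d then 1 else 0) := by
  have h : (({a, b, c, d} : Finset α).filter P) ⊆
      (([a, b, c, d] : List α).filter (fun u => decide (P u))).toFinset := by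
    intro u hu
    simp only [Finset.mem_filter, Finset.mem_insert, Finset.mem_singleton] at hu
    rw [List.mem_toFinset, List.mem_filter]
    refine ⟨?_, by simpa using hu.2⟩
    simpa using hu.1
  refine (Finset.card_le_card h).trans ((List.toFinset_card_le _).trans ?_)
  by_cases h1 : P a <;> by_cases h2 : P b <;> by_cases h3 : P c <;> by_cases h4 : P d <;>
    simp [h1, h2, h3, h4]

theorem card_four_eq {α : Type} [DecidableEq α] (a b c d : α) (hab : a ≠ b) (hac : a ≠ c)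
    (had : a ≠ d) (hbc : b ≠ c) (hbd : b ≠ d) (hcd : c ≠ d) (P : α → Prop) [DecidablePred P] :
    (({a, b, c, d} : Finset α).filter P).card =
      (if P a then 1 else 0) + (if P b then 1 else 0) + (if P c then 1 else 0) +
        (if P d then 1 else 0) := by
  rw [Finset.card_filter, Finset.sum_insert, Finset.sum_insert, Finset.sum_insert,
    Finset.sum_singleton]
  · ring
  · simpa using hcd
  · simp [hbc, hbd]
  · simp [hab, hac, had]

theorem adj_iff {n : ℕ} (v u : Fin n × Fin n) :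
    (pathGraph n □ pathGraph n).Adj v u ↔
      ((((v.1 : ℕ) + 1 = u.1 ∨ (u.1 : ℕ) + 1 = v.1) ∧ (v.2 : ℕ) = u.2) ∨
      (((v.2 : ℕ) + 1 = u.2 ∨ (u.2 : ℕ) + 1 = v.2) ∧ (v.1 : ℕ) = u.1)) := by
  rw [boxProd_adj, pathGraph_adj, pathGraph_adj, Fin.ext_iff, Fin.ext_iff]

theorem count_le {n : ℕ} (m : ℕ) (v : Fin n × Fin n) (F : Finset (ℕ × ℕ))
    (hF : ∀ u : Fin n × Fin n, (pathGraph n □ pathGraph n).Adj v u →
      t3 m u.1 u.2 + 2 ≤ t3 m v.1 v.2 → ((u.1 : ℕ), (u.2 : ℕ)) ∈ F) :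
    ((pathGraph n □ pathGraph n).neighborSet v ∩
      {u | t3 m u.1 u.2 + 2 ≤ t3 m v.1 v.2}).ncard ≤ F.card := by
  have hinj : Function.Injective (fun u : Fin n × Fin n => ((u.1 : ℕ), (u.2 : ℕ))) := by
    rintro ⟨a, b⟩ ⟨c, d⟩ h
    simp only [Prod.mk.injEq] at h
    exact Prod.ext (Fin.ext h.1) (Fin.ext h.2)
  rw [← Set.ncard_image_of_injective _ hinj, ← Set.ncard_coe_finset]
  apply Set.ncard_le_ncard _ (Finset.finite_toSet _)
  rintro _ ⟨u, ⟨hu1, hu2⟩, rfl⟩
  exact hF u hu1 hu2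

theorem t3_wall (m x y : ℕ) (h : x = 0 ∨ y = 0) :
    t3 m x y = if x = 0 ∧ y = 1 then 6 * m * m + 6 - 8 * m else 0 := by
  unfold t3
  rw [if_pos (by tauto)]

theorem t3_far (m x y : ℕ) (hx : 1 ≤ x) (h : 3 * m ≤ x ∨ 3 * m ≤ y) : t3 m x y = 0 := by
  unfold t3
  rw [if_pos (by tauto), if_neg (by omega)]

theorem t3_one (m : ℕ) (hm : 3 ≤ m) : t3 m 1 1 = 6 * m * m + 6 - 8 * m - 1 := by
  have h : lowIx 1 1 = 1 := by decide
  unfold t3
  rw [if_neg (by omega), if_pos (by omega), h, if_neg (by norm_num)]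

theorem count (h1 : W1) {m n : ℕ} (hm : 3 ≤ m) (v : Fin n × Fin n) :
    ((pathGraph n □ pathGraph n).neighborSet v ∩
      {u | t3 m u.1 u.2 + 2 ≤ t3 m v.1 v.2}).ncard < 3 := by
  by_cases hw : 1 ≤ (v.1 : ℕ) ∧ 1 ≤ (v.2 : ℕ)
  · have h2 := h1 m v.1 v.2 hm hw.1 hw.2
    have h3 := count_le m v ((({((v.1 : ℕ) - 1, (v.2 : ℕ)), ((v.1 : ℕ) + 1, (v.2 : ℕ)),
      ((v.1 : ℕ), (v.2 : ℕ) - 1), ((v.1 : ℕ), (v.2 : ℕ) + 1)} : Finset (ℕ × ℕ))).filter
        (fun p => t3 m p.1 p.2 + 2 ≤ t3 m v.1 v.2)) (by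
      intro u hu1 hu2
      rw [adj_iff] at hu1
      simp only [Finset.mem_filter, Finset.mem_insert, Finset.mem_singleton, Prod.mk.injEq]
      refine ⟨by omega, hu2⟩)
    have h4 := card_four_le ((v.1 : ℕ) - 1, (v.2 : ℕ)) ((v.1 : ℕ) + 1, (v.2 : ℕ))
      ((v.1 : ℕ), (v.2 : ℕ) - 1) ((v.1 : ℕ), (v.2 : ℕ) + 1)
      (fun p : ℕ × ℕ => t3 m p.1 p.2 + 2 ≤ t3 m v.1 v.2)
    simp only at h4
    exact lt_of_le_of_lt ((h3.trans h4).trans h2) (by norm_num)
  · have hw' : (v.1 : ℕ) = 0 ∨ (v.2 : ℕ) = 0 := by omega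
    by_cases h01 : (v.1 : ℕ) = 0 ∧ (v.2 : ℕ) = 1
    · have h3 := count_le m v ({(0, 0), (0, 2)} : Finset (ℕ × ℕ)) (by
        intro u hu1 hu2
        rw [adj_iff] at hu1
        have h5 : ¬ ((u.1 : ℕ) = 1 ∧ (u.2 : ℕ) = 1) := by
          rintro ⟨h6, h7⟩
          rw [h6, h7, h01.1, h01.2, t3_one m hm, t3_wall m 0 1 (Or.inl rfl),
            if_pos ⟨rfl, rfl⟩] at hu2
          omega
        simp only [Finset.mem_insert, Finset.mem_singleton, Prod.mk.injEq]
        omega)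
      exact lt_of_le_of_lt (h3.trans Finset.card_le_two) (by norm_num)
    · have h3 := count_le m v ∅ (by
        intro u hu1 hu2
        rw [t3_wall m v.1 v.2 hw', if_neg h01] at hu2
        omega)
      exact lt_of_le_of_lt h3 (by norm_num)

theorem closed (h2 : W2) {m n : ℕ} (hm : 3 ≤ m) (hn : 3 * m + 1 ≤ n) (C : Set (Fin n × Fin n))
    (hC : ∀ v, 3 ≤ ((pathGraph n □ pathGraph n).neighborSet v ∩ C).ncard → v ∈ C)
    (hA : {v : Fin n × Fin n | t3 m v.1 v.2 = 0} ⊆ C) :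
    ∀ k : ℕ, ∀ v : Fin n × Fin n, t3 m v.1 v.2 = k → v ∈ C := by
  intro k
  induction k using Nat.strong_induction_on with
  | _ k ih =>
    intro v hv
    by_cases hk : k = 0
    · exact hA (show t3 m v.1 v.2 = 0 by omega)
    obtain ⟨⟨x, hx⟩, ⟨y, hy⟩⟩ := v
    have hv' : t3 m x y = k := hv
    have tool : ∀ D : Finset (Fin n × Fin n), 3 ≤ D.card →
        (∀ u ∈ D, (pathGraph n □ pathGraph n).Adj (⟨x, hx⟩, ⟨y, hy⟩) u) →
        (∀ u ∈ D, t3 m u.1 u.2 < k) → ((⟨x, hx⟩, ⟨y, hy⟩) : Fin n × Fin n) ∈ C := by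
      intro D hD h3 h4
      apply hC
      rw [← Set.ncard_coe_finset] at hD
      refine hD.trans (Set.ncard_le_ncard ?_ (Set.toFinite _))
      intro u hu
      exact ⟨h3 u hu, ih _ (h4 u hu) u rfl⟩
    by_cases hw : 1 ≤ x ∧ 1 ≤ y
    · have hxm : x < 3 * m := by
        by_contra hcon
        have := t3_far m x y hw.1 (Or.inl (by omega))
        omega
      have hym : y < 3 * m := by
        by_contra hcon
        have := t3_far m x y hw.1 (Or.inr (by omega))
        omega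
      have h3 := h2 m x y hm hw.1 hw.2 (by omega)
      rw [hv'] at h3
      have hc := card_four_eq ((⟨x - 1, by omega⟩, ⟨y, hy⟩) : Fin n × Fin n)
        (⟨x + 1, by omega⟩, ⟨y, hy⟩) (⟨x, hx⟩, ⟨y - 1, by omega⟩) (⟨x, hx⟩, ⟨y + 1, by omega⟩)
        (by simp only [ne_eq, Prod.mk.injEq, Fin.mk.injEq]; omega)
        (by simp only [ne_eq, Prod.mk.injEq, Fin.mk.injEq]; omega)
        (by simp only [ne_eq, Prod.mk.injEq, Fin.mk.injEq]; omega)
        (by simp only [ne_eq, Prod.mk.injEq, Fin.mk.injEq]; omega)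
        (by simp only [ne_eq, Prod.mk.injEq, Fin.mk.injEq]; omega)
        (by simp only [ne_eq, Prod.mk.injEq, Fin.mk.injEq]; omega)
        (fun u => t3 m u.1 u.2 < k)
      simp only at hc
      refine tool _ (by rw [hc]; exact h3) ?_ (fun u hu => (Finset.mem_filter.1 hu).2)
      intro u hu
      rw [adj_iff]
      have hu' := (Finset.mem_filter.1 hu).1
      simp only [Finset.mem_insert, Finset.mem_singleton] at hu'
      rcases hu' with rfl | rfl | rfl | rfl
      · exact Or.inl ⟨Or.inr (show x - 1 + 1 = x by omega), rfl⟩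
      · exact Or.inl ⟨Or.inl rfl, rfl⟩
      · exact Or.inr ⟨Or.inr (show y - 1 + 1 = y by omega), rfl⟩
      · exact Or.inr ⟨Or.inl rfl, rfl⟩
    · have h5 := t3_wall m x y (by omega)
      by_cases h01 : x = 0 ∧ y = 1
      · obtain ⟨rfl, rfl⟩ := h01
        rw [if_pos ⟨rfl, rfl⟩, hv'] at h5
        have e1 : t3 m 0 0 = 0 := by rw [t3_wall m 0 0 (Or.inl rfl), if_neg (by omega)]
        have e2 : t3 m 0 2 = 0 := by rw [t3_wall m 0 2 (Or.inl rfl), if_neg (by omega)]
        have e3 := t3_one m hm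
        have hD : (({((⟨0, hx⟩, ⟨0, by omega⟩) : Fin n × Fin n), (⟨0, hx⟩, ⟨2, by omega⟩),
            (⟨1, by omega⟩, ⟨1, by omega⟩)} : Finset (Fin n × Fin n))).card = 3 := by
          rw [Finset.card_eq_three]
          exact ⟨_, _, _, by simp only [ne_eq, Prod.mk.injEq, Fin.mk.injEq]; omega,
            by simp only [ne_eq, Prod.mk.injEq, Fin.mk.injEq]; omega,
            by simp only [ne_eq, Prod.mk.injEq, Fin.mk.injEq]; omega, rfl⟩
        refine tool _ hD.ge ?_ ?_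
        · intro u hu
          rw [adj_iff]
          simp only [Finset.mem_insert, Finset.mem_singleton] at hu
          rcases hu with rfl | rfl | rfl <;> simp
        · intro u hu
          simp only [Finset.mem_insert, Finset.mem_singleton] at hu
          rcases hu with rfl | rfl | rfl <;> simp only [e1, e2, e3] <;> omega
      · rw [if_neg h01] at h5
        omega

end W3aux

theorem tW3 : W3 := by
  intro h1 h2 m n hm hn
  refine ⟨{v | t3 m v.1 v.2 = 0}, ?_, ?_⟩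
  · apply perc_of_closed
    intro C hC hA
    ext v
    simp only [Set.mem_univ, iff_true]
    exact W3aux.closed h2 hm hn C hC hA _ v rfl
  · intro t ht huniv
    have h3 := inf_subset_tau (pathGraph n □ pathGraph n) 3
      {v : Fin n × Fin n | t3 m v.1 v.2 = 0} (fun v => t3 m v.1 v.2) (fun v hv => hv)
      (W3aux.count h1 hm) t
    have h4 : ((⟨0, by omega⟩, ⟨1, by omega⟩) : Fin n × Fin n) ∈
        inf (pathGraph n □ pathGraph n) 3 {v : Fin n × Fin n | t3 m v.1 v.2 = 0} t := by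
      rw [huniv]; trivial
    have h5 : t3 m 0 1 ≤ t := h3 h4
    rw [W3aux.t3_wall m 0 1 (Or.inl rfl), if_pos ⟨rfl, rfl⟩] at h5
    omega

end Pool.Agent.H132R3.BP
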