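import Pool.Agent.H132R3.BP.Stmts2

/-!
# The upper bound in the plane (project H132-BP2, task W4)
-/

set_option autoImplicit false

namespace Pool.Agent.H132R3.BP

open SimpleGraph

theorem w4_deg (n : ℕ) (v : Fin 2 → Fin n) : ((Grid 2 n).neighborSet v).ncard ≤ 4 := by
  classical
  have hn : ∀ i, (v i : ℕ) < n := fun i => (v i).2
  let up : Fin 2 → Fin n := fun i => ⟨min ((v i : ℕ) + 1) (n - 1), by have := hn i; omega⟩
  let dn : Fin 2 → Fin n := fun i => ⟨(v i : ℕ) - 1, by have := hn i; omega⟩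
  let f : Fin 2 × Bool → (Fin 2 → Fin n) := fun p =>
    Function.update v p.1 (if p.2 then up p.1 else dn p.1)
  have hsub : (Grid 2 n).neighborSet v ⊆ f '' Set.univ := by
    rintro y ⟨i, h, hj⟩
    have hy : y = Function.update v i (y i) := by
      funext j
      by_cases hji : j = i
      · subst hji; simp
      · rw [Function.update_of_ne hji]; exact (hj j hji).symm
    rcases h with h | h
    · refine ⟨(i, true), trivial, ?_⟩
      rw [hy]
      have : up i = y i := by
        apply Fin.ext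
        have := (y i).2
        simp only [up]
        omega
      simp [f, this]
    · refine ⟨(i, false), trivial, ?_⟩
      rw [hy]
      have : dn i = y i := by
        apply Fin.ext
        simp only [dn]
        omega
      simp [f, this]
  calc ((Grid 2 n).neighborSet v).ncard ≤ (f '' Set.univ).ncard :=
        Set.ncard_le_ncard hsub (Set.toFinite _)
    _ ≤ (Set.univ : Set (Fin 2 × Bool)).ncard := Set.ncard_image_le (Set.toFinite _)
    _ = 4 := by rw [Set.ncard_univ]; simp

theorem w4_mono {V : Type} (G : SimpleGraph V) (r : ℕ) (A : Set V) {s t : ℕ} (h : s ≤ t) :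
    inf G r A s ⊆ inf G r A t := by
  induction t, h using Nat.le_induction with
  | base => exact subset_rfl
  | succ t _ ih => exact ih.trans Set.subset_union_left

theorem w4_new {V : Type} (G : SimpleGraph V) (r : ℕ) (A : Set V) {t : ℕ} {v : V} (ht : 1 ≤ t)
    (h : v ∈ inf G r A t) (h' : v ∉ inf G r A (t - 1)) :
    r ≤ (G.neighborSet v ∩ inf G r A (t - 1)).ncard := by
  obtain ⟨s, rfl⟩ : ∃ s, t = s + 1 := ⟨t - 1, by omega⟩
  rcases h with h | h
  · exact absurd h h'
  · exact h

theorem w4_old {V : Type} (G : SimpleGraph V) (r : ℕ) (A : Set V) {t : ℕ} {v : V}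
    (h : v ∉ inf G r A (t + 1)) : ¬ r ≤ (G.neighborSet v ∩ inf G r A t).ncard :=
  fun hh => h (Or.inr hh)

theorem w4_step {V : Type} [Finite V] (G : SimpleGraph V) (r : ℕ) (A : Set V) {t : ℕ} {v : V}
    (ht : 1 ≤ t) (h : v ∈ inf G r A (t + 1)) (h' : v ∉ inf G r A t) :
    ∃ u, G.Adj v u ∧ u ∈ inf G r A t ∧ u ∉ inf G r A (t - 1) := by
  by_contra hcon
  push Not at hcon
  have h1 := w4_new G r A (t := t + 1) (by omega) h h'
  obtain ⟨s, rfl⟩ : ∃ s, t = s + 1 := ⟨t - 1, by omega⟩
  have h2 := w4_old G r A h'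
  apply h2
  refine h1.trans (Set.ncard_le_ncard ?_ (Set.toFinite _))
  rintro u ⟨hu1, hu2⟩
  exact ⟨hu1, hcon u hu1 hu2⟩

theorem w4_path {V : Type} [Finite V] (G : SimpleGraph V) (r : ℕ) (A : Set V) (T : ℕ)
    (hT : 1 ≤ T) : ∀ w, w ∈ inf G r A T → w ∉ inf G r A (T - 1) →
    ∃ v : ℕ → V, v T = w ∧ (∀ t, 1 ≤ t → t ≤ T → v t ∈ inf G r A t ∧ v t ∉ inf G r A (t - 1)) ∧
      ∀ t, 1 ≤ t → t < T → G.Adj (v (t + 1)) (v t) := by
  induction T, hT using Nat.le_induction with
  | base =>
    intro w hw hw'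
    refine ⟨fun _ => w, rfl, ?_, ?_⟩
    · intro t h1 h2
      have : t = 1 := by omega
      subst this
      exact ⟨hw, hw'⟩
    · intro t h1 h2
      omega
  | succ T hT ih =>
    intro w hw hw'
    obtain ⟨u, hu1, hu2, hu3⟩ := w4_step G r A hT hw hw'
    obtain ⟨v, hv1, hv2, hv3⟩ := ih u hu2 hu3
    refine ⟨Function.update v (T + 1) w, by simp, ?_, ?_⟩
    · intro t h1 h2
      by_cases htT : t = T + 1
      · subst htT
        rw [Function.update_self]
        exact ⟨hw, hw'⟩
      · rw [Function.update_of_ne htT]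
        exact hv2 t h1 (by omega)
    · intro t h1 h2
      have htT : t ≠ T + 1 := by omega
      rw [Function.update_of_ne htT]
      by_cases hT' : t = T
      · subst hT'
        rw [Function.update_self, hv1]
        exact hu1
      · have : t + 1 ≠ T + 1 := by omega
        rw [Function.update_of_ne this]
        exact hv3 t h1 (by omega)

theorem w4_bound (n T : ℕ) (A : Set (Fin 2 → Fin n)) (hT : 1 ≤ T)
    (hne : inf (Grid 2 n) 3 A (T - 1) ≠ Set.univ) (hT2 : inf (Grid 2 n) 3 A T = Set.univ) :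
    3 * T ≤ 2 * n ^ 2 := by
  classical
  obtain ⟨w, hw⟩ := (Set.ne_univ_iff_exists_notMem _).mp hne
  obtain ⟨v, -, hv, hadj⟩ := w4_path (Grid 2 n) 3 A T hT w (by rw [hT2]; trivial) hw
  have hlt : ∀ s t, 1 ≤ s → s < t → t ≤ T → v s ∈ inf (Grid 2 n) 3 A (t - 1) := by
    intro s t h1 h2 h3
    exact w4_mono _ _ _ (by omega) (hv s h1 (by omega)).1
  have hne' : ∀ s t, 1 ≤ s → s < t → t ≤ T → v s ≠ v t := by
    intro s t h1 h2 h3 heq
    exact (hv t (by omega) h3).2 (heq ▸ hlt s t h1 h2 h3)
  have hnot : ∀ s t, 1 ≤ t → t ≤ s → s ≤ T → v s ∉ inf (Grid 2 n) 3 A (t - 1) := by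
    intro s t h1 h2 h3 hmem
    exact (hv s (by omega) h3).2 (w4_mono _ _ _ (by omega) hmem)
  -- induced path
  have hind : ∀ s t, 1 ≤ s → s + 1 < t → t ≤ T → ¬ (Grid 2 n).Adj (v s) (v t) := by
    intro s t h1 h2 h3 hst
    have h4 := w4_new (Grid 2 n) 3 A h1 (hv s h1 (by omega)).1 (hv s h1 (by omega)).2
    have h5 := w4_deg n (v s)
    have h6 : insert (v (s + 1)) (insert (v t)
        ((Grid 2 n).neighborSet (v s) ∩ inf (Grid 2 n) 3 A (s - 1))) ⊆
        (Grid 2 n).neighborSet (v s) := by
      intro z hz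
      rcases hz with rfl | rfl | hz
      · exact (hadj s h1 (by omega)).symm
      · exact hst
      · exact hz.1
    have h7 := Set.ncard_le_ncard h6 (Set.toFinite _)
    have h8 : v t ∉ (Grid 2 n).neighborSet (v s) ∩ inf (Grid 2 n) 3 A (s - 1) :=
      fun hh => hnot t s h1 (by omega) h3 hh.2
    have h9 : v (s + 1) ∉ insert (v t)
        ((Grid 2 n).neighborSet (v s) ∩ inf (Grid 2 n) 3 A (s - 1)) := by
      rintro (hh | hh)
      · exact hne' (s + 1) t (by omega) (by omega) h3 hh
      · exact hnot (s + 1) s h1 (by omega) (by omega) hh.2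
    rw [Set.ncard_insert_of_notMem h9 (Set.toFinite _),
      Set.ncard_insert_of_notMem h8 (Set.toFinite _)] at h7
    omega
  let P : Finset (Fin 2 → Fin n) := (Finset.Icc 1 T).image v
  have hPcard : P.card = T := by
    rw [Finset.card_image_of_injOn, Nat.card_Icc]
    · omega
    · intro s hs t ht hst
      simp only [Finset.coe_Icc, Set.mem_Icc] at hs ht
      rcases lt_trichotomy s t with h | h | h
      · exact absurd hst (hne' s t hs.1 h ht.2)
      · exact h
      · exact absurd hst.symm (hne' t s ht.1 h hs.2)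
  have hcount : P.card * 2 ≤ (Pᶜ).card * 4 := by
    apply Finset.card_mul_le_card_mul (fun a b => (Grid 2 n).Adj a b)
    · intro a ha
      obtain ⟨t, ht, rfl⟩ := Finset.mem_image.mp ha
      rw [Finset.mem_Icc] at ht
      have h4 := w4_new (Grid 2 n) 3 A ht.1 (hv t ht.1 ht.2).1 (hv t ht.1 ht.2).2
      have h5 : (Grid 2 n).neighborSet (v t) ∩ inf (Grid 2 n) 3 A (t - 1) ⊆
          insert (v (t - 1)) (↑((Pᶜ).bipartiteAbove (fun a b => (Grid 2 n).Adj a b) (v t)) :
            Set (Fin 2 → Fin n)) := by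
        rintro z ⟨hz1, hz2⟩
        by_cases hzP : z ∈ P
        · obtain ⟨s, hs, rfl⟩ := Finset.mem_image.mp hzP
          rw [Finset.mem_Icc] at hs
          left
          have hs1 : s < t := by
            by_contra hcon
            exact hnot s t ht.1 (by omega) hs.2 hz2
          have hs2 : ¬ s + 1 < t := by
            intro hcon
            exact hind s t hs.1 hcon ht.2 (SimpleGraph.Adj.symm hz1)
          have : s = t - 1 := by omega
          rw [this]
        · right
          rw [Finset.mem_coe, Finset.mem_bipartiteAbove]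
          exact ⟨Finset.mem_compl.mpr hzP, hz1⟩
      have h6 := Set.ncard_le_ncard h5 (Set.toFinite _)
      have h7 := Set.ncard_insert_le (v (t - 1))
        (↑((Pᶜ).bipartiteAbove (fun a b => (Grid 2 n).Adj a b) (v t)) : Set (Fin 2 → Fin n))
      rw [Set.ncard_coe_finset] at h7
      omega
    · intro b _
      have h5 : (↑(P.bipartiteBelow (fun a b => (Grid 2 n).Adj a b) b) : Set (Fin 2 → Fin n)) ⊆
          (Grid 2 n).neighborSet b := by
        intro z hz
        rw [Finset.mem_coe, Finset.mem_bipartiteBelow] at hz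
        exact SimpleGraph.Adj.symm hz.2
      have h6 := Set.ncard_le_ncard h5 (Set.toFinite _)
      rw [Set.ncard_coe_finset] at h6
      exact h6.trans (w4_deg n b)
  have hcompl : (Pᶜ).card = n ^ 2 - P.card := by
    rw [Finset.card_compl]
    simp
  have hle : P.card ≤ n ^ 2 := by
    have := Finset.card_le_univ P
    simpa using this
  omega

/-- W4 -/
theorem tW4 : W4 := by
  intro n
  suffices h : maxTime 3 2 n ≤ (2 * n ^ 2) / 3 by omega
  unfold maxTime
  by_cases hne : {T | ∃ A : Set (Fin 2 → Fin n), (∃ t, inf (Grid 2 n) 3 A t = Set.univ) ∧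
    percTime 3 2 n A = T}.Nonempty
  · apply csSup_le hne
    rintro T ⟨A, hA, rfl⟩
    by_cases h0 : percTime 3 2 n A = 0
    · rw [h0]; exact Nat.zero_le _
    · have h1 : inf (Grid 2 n) 3 A (percTime 3 2 n A) = Set.univ :=
        Nat.sInf_mem (s := {t | inf (Grid 2 n) 3 A t = Set.univ}) hA
      have h2 : inf (Grid 2 n) 3 A (percTime 3 2 n A - 1) ≠ Set.univ := by
        refine Nat.notMem_of_lt_sInf (s := {t | inf (Grid 2 n) 3 A t = Set.univ}) ?_
        show percTime 3 2 n A - 1 < percTime 3 2 n A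
        omega
      have h3 := w4_bound n (percTime 3 2 n A) A (by omega) h2 h1
      omega
  · rw [Set.not_nonempty_iff_eq_empty] at hne
    rw [hne]
    simp

end Pool.Agent.H132R3.BP
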